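import Mathlib

set_option autoImplicit false

namespace Pool.Agent.Helper34.AE

open Finset

namespace Avoid

variable {V X : Type} [Fintype V] [DecidableEq V] [Fintype X] [DecidableEq X] [Nonempty X]

/-- independence of events depending on disjoint sets of coordinates -/
theorem indep (A B : (V → X) → Prop) [DecidablePred A] [DecidablePred B] (P : Finset V)
    (hA : ∀ ω ω', (∀ u ∈ P, ω u = ω' u) → (A ω ↔ A ω'))
    (hB : ∀ ω ω', (∀ u, u ∉ P → ω u = ω' u) → (B ω ↔ B ω')) :
    (univ.filter (fun ω => A ω ∧ B ω)).card * Fintype.card (V → X) =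
      (univ.filter (fun ω => A ω)).card * (univ.filter (fun ω => B ω)).card := by
  rw [← Finset.card_univ, ← Finset.card_product, ← Finset.card_product]
  refine Finset.card_nbij'
    (fun p => ((fun u => if u ∈ P then p.1 u else p.2 u), (fun u => if u ∈ P then p.2 u else p.1 u)))
    (fun p => ((fun u => if u ∈ P then p.1 u else p.2 u), (fun u => if u ∈ P then p.2 u else p.1 u)))
    ?_ ?_ ?_ ?_
  · rintro ⟨a, b⟩ h
    simp only [coe_product, coe_filter, mem_univ, true_and, coe_univ, Set.mem_prod, Set.mem_ofPred_eq,
      Set.mem_univ, and_true] at h ⊢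
    refine ⟨(hA _ _ ?_).1 h.1, (hB _ _ ?_).1 h.2⟩
    · intro u hu; simp [hu]
    · intro u hu; simp [hu]
  · rintro ⟨a, b⟩ h
    simp only [coe_product, coe_filter, mem_univ, true_and, coe_univ, Set.mem_prod, Set.mem_ofPred_eq,
      Set.mem_univ, and_true] at h ⊢
    refine ⟨(hA _ _ ?_).1 h.1, (hB _ _ ?_).1 h.2⟩
    · intro u hu; simp [hu]
    · intro u hu; simp [hu]
  · rintro ⟨a, b⟩ _
    refine Prod.ext ?_ ?_
    · funext u; by_cases hu : u ∈ P <;> simp [hu]
    · funext u; by_cases hu : u ∈ P <;> simp [hu]
  · rintro ⟨a, b⟩ _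
    refine Prod.ext ?_ ?_
    · funext u; by_cases hu : u ∈ P <;> simp [hu]
    · funext u; by_cases hu : u ∈ P <;> simp [hu]

/-- the good configurations with respect to the events inside `S` -/
def Good (Bad : V → (V → X) → Prop) [∀ v ω, Decidable (Bad v ω)] (Nb : V → Finset V)
    (S : Finset V) : Finset (V → X) :=
  univ.filter (fun ω => ∀ v, Nb v ⊆ S → ¬ Bad v ω)

theorem mem_Good {Bad : V → (V → X) → Prop} [∀ v ω, Decidable (Bad v ω)] {Nb : V → Finset V}
    {S : Finset V} {ω : V → X} : ω ∈ Good Bad Nb S ↔ ∀ v, Nb v ⊆ S → ¬ Bad v ω := by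
  simp [Good]

theorem bern (D : ℕ) (hD : 0 < D) (k : ℕ) (hk : k < D) :
    (1 : ℝ) / 2 ≤ (1 - 1 / (2 * D)) ^ k := by
  have hD' : (1 : ℝ) ≤ D := by exact_mod_cast hD
  have h1 : (1 : ℝ) / (2 * D) ≤ 1 / 2 := by
    apply div_le_div_of_nonneg_left <;> linarith
  have h := one_add_mul_le_pow (a := -(1 / (2 * (D : ℝ)))) (by linarith) k
  have h2 : (k : ℝ) ≤ D := by exact_mod_cast hk.le
  have h3 : (k : ℝ) * (1 / (2 * D)) ≤ 1 / 2 := by
    rw [mul_one_div, div_le_iff₀ (by positivity)]
    linarith
  calc (1 : ℝ) / 2 ≤ 1 + k * -(1 / (2 * D)) := by linarith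
    _ ≤ _ := h
    _ = _ := by ring

end Avoid

open Avoid in
theorem avoid {V X : Type} [Fintype V] [DecidableEq V] [Fintype X] [DecidableEq X] [Nonempty X]
    (Bad : V → (V → X) → Prop) [∀ v ω, Decidable (Bad v ω)] (Nb : V → Finset V)
    (hdep : ∀ v ω ω', (∀ u ∈ Nb v, ω u = ω' u) → (Bad v ω ↔ Bad v ω'))
    (D : ℕ) (hD : 0 < D) (h1 : ∀ v, (Nb v).card ≤ D)
    (h2 : ∀ u, (univ.filter (fun v => u ∈ Nb v)).card ≤ D)
    (hp : ∀ v, 4 * D ^ 2 * (univ.filter (fun ω => Bad v ω)).card ≤ Fintype.card (V → X)) :
    ∃ ω, ∀ v, ¬ Bad v ω := by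
  have hD' : (1 : ℝ) ≤ D := by exact_mod_cast hD
  have hq0 : (0 : ℝ) < 1 - 1 / (2 * D) := by
    have h1 : (1 : ℝ) / (2 * D) ≤ 1 / 2 := by
      apply div_le_div_of_nonneg_left <;> linarith
    linarith
  have hΩ : 0 < Fintype.card (V → X) := Fintype.card_pos
  have hΩ' : (0 : ℝ) < Fintype.card (V → X) := by exact_mod_cast hΩ
  -- main claim
  have key : ∀ n : ℕ, ∀ S : Finset V, S.card = n → ∀ u, u ∉ S →
      (1 - 1 / (2 * (D : ℝ))) * (Good Bad Nb S).card ≤ (Good Bad Nb (insert u S)).card := by
    intro n
    induction n using Nat.strong_induction_on with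
    | _ n ih =>
      intro S hS u hu
      -- growth from a subset
      have grow : ∀ k : ℕ, ∀ T : Finset V, T ⊆ S → (S \ T).card = k →
          (1 - 1 / (2 * (D : ℝ))) ^ k * (Good Bad Nb T).card ≤ (Good Bad Nb S).card := by
        intro k
        induction k with
        | zero =>
          intro T hT hc
          have : T = S := by
            apply Finset.Subset.antisymm hT
            exact Finset.sdiff_eq_empty_iff_subset.1 (Finset.card_eq_zero.1 hc)
          rw [this]; simp
        | succ k ihk =>
          intro T hT hc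
          obtain ⟨w, hw⟩ : (S \ T).Nonempty := by
            rw [← Finset.card_pos, hc]; omega
          rw [Finset.mem_sdiff] at hw
          have hTS : T.card < n := by
            rw [← hS]
            exact Finset.card_lt_card ⟨hT, fun h => hw.2 (h hw.1)⟩
          have hs := ih T.card hTS T rfl w hw.2
          have hsub : insert w T ⊆ S := Finset.insert_subset hw.1 hT
          have hcard : (S \ insert w T).card = k := by
            have : S \ insert w T = (S \ T).erase w := by
              ext x; simp only [mem_sdiff, mem_insert, mem_erase, not_or]; tauto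
            rw [this, Finset.card_erase_of_mem (Finset.mem_sdiff.2 hw), hc]; rfl
          have h3 := ihk (insert w T) hsub hcard
          calc (1 - 1 / (2 * (D : ℝ))) ^ (k + 1) * (Good Bad Nb T).card
              = (1 - 1 / (2 * (D : ℝ))) ^ k * ((1 - 1 / (2 * (D : ℝ))) * (Good Bad Nb T).card) := by
                ring
            _ ≤ (1 - 1 / (2 * (D : ℝ))) ^ k * (Good Bad Nb (insert w T)).card :=
                mul_le_mul_of_nonneg_left hs (pow_nonneg hq0.le _)
            _ ≤ _ := h3
      -- the bad part
      have hcover : Good Bad Nb S \ Good Bad Nb (insert u S) ⊆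
          (univ.filter (fun v => u ∈ Nb v)).biUnion
            (fun v => univ.filter (fun ω => Bad v ω ∧ ω ∈ Good Bad Nb (S \ Nb v))) := by
        intro ω hω
        rw [Finset.mem_sdiff, mem_Good, mem_Good] at hω
        obtain ⟨hg, hb⟩ := hω
        push Not at hb
        obtain ⟨v, hv, hbv⟩ := hb
        rw [Finset.mem_biUnion]
        refine ⟨v, ?_, ?_⟩
        · simp only [mem_filter, mem_univ, true_and]
          by_contra hnu
          refine hg v ?_ hbv
          intro x hx
          rcases Finset.mem_insert.1 (hv hx) with h | h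
          · rw [h] at hx; exact absurd hx hnu
          · exact h
        · simp only [mem_filter, mem_univ, true_and]
          refine ⟨hbv, ?_⟩
          rw [mem_Good]
          intro w hw
          exact hg w (hw.trans Finset.sdiff_subset)
      have hone : ∀ v, u ∈ Nb v →
          ((univ.filter (fun ω => Bad v ω ∧ ω ∈ Good Bad Nb (S \ Nb v))).card : ℝ) ≤
            (Good Bad Nb S).card / (2 * D ^ 2) := by
        intro v huv
        have hin := indep (fun ω => Bad v ω) (fun ω => ω ∈ Good Bad Nb (S \ Nb v)) (Nb v)
          (hdep v) (by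
            intro ω ω' h
            rw [mem_Good, mem_Good]
            constructor
            · intro hh w hw hb
              refine hh w hw ((hdep w ω ω' ?_).2 hb)
              intro x hx
              exact h x (Finset.mem_sdiff.1 (hw hx)).2
            · intro hh w hw hb
              refine hh w hw ((hdep w ω ω' ?_).1 hb)
              intro x hx
              exact h x (Finset.mem_sdiff.1 (hw hx)).2)
        have hG : (univ.filter (fun ω => ω ∈ Good Bad Nb (S \ Nb v))) = Good Bad Nb (S \ Nb v) := by
          ext ω; simp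
        rw [hG] at hin
        have hin' : ((univ.filter (fun ω => Bad v ω ∧ ω ∈ Good Bad Nb (S \ Nb v))).card : ℝ) *
            Fintype.card (V → X) =
            (univ.filter (fun ω => Bad v ω)).card * (Good Bad Nb (S \ Nb v)).card := by
          exact_mod_cast hin
        have hpv : 4 * (D : ℝ) ^ 2 * (univ.filter (fun ω => Bad v ω)).card ≤
            Fintype.card (V → X) := by exact_mod_cast hp v
        -- growth
        have hk : (S \ (S \ Nb v)).card < D := by
          have : S \ (S \ Nb v) ⊆ (Nb v).erase u := by
            intro x hx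
            simp only [mem_sdiff, not_and, not_not] at hx
            rw [Finset.mem_erase]
            refine ⟨?_, hx.2 hx.1⟩
            rintro rfl
            exact hu hx.1
          calc (S \ (S \ Nb v)).card ≤ ((Nb v).erase u).card := Finset.card_le_card this
            _ < (Nb v).card := Finset.card_erase_lt_of_mem huv
            _ ≤ D := h1 v
        have hg := grow _ (S \ Nb v) Finset.sdiff_subset rfl
        have hb := bern D hD _ hk
        have hhalf : (1 : ℝ) / 2 * (Good Bad Nb (S \ Nb v)).card ≤ (Good Bad Nb S).card :=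
          (mul_le_mul_of_nonneg_right hb (Nat.cast_nonneg _)).trans hg
        rw [le_div_iff₀ (by positivity)]
        refine le_of_mul_le_mul_right ?_ hΩ'
        calc ((univ.filter (fun ω => Bad v ω ∧ ω ∈ Good Bad Nb (S \ Nb v))).card : ℝ) *
              (2 * D ^ 2) * Fintype.card (V → X)
            = (((univ.filter (fun ω => Bad v ω ∧ ω ∈ Good Bad Nb (S \ Nb v))).card : ℝ) *
              Fintype.card (V → X)) * (2 * D ^ 2) := by ring
          _ = (4 * (D : ℝ) ^ 2 * (univ.filter (fun ω => Bad v ω)).card) *
              (1 / 2 * (Good Bad Nb (S \ Nb v)).card) := by rw [hin']; ring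
          _ ≤ Fintype.card (V → X) * (Good Bad Nb S).card :=
              mul_le_mul hpv hhalf (by positivity) (by positivity)
          _ = _ := by ring
      have hloss : ((Good Bad Nb S \ Good Bad Nb (insert u S)).card : ℝ) ≤
          1 / (2 * D) * (Good Bad Nb S).card := by
        calc ((Good Bad Nb S \ Good Bad Nb (insert u S)).card : ℝ)
            ≤ (((univ.filter (fun v => u ∈ Nb v)).biUnion
            (fun v => univ.filter (fun ω => Bad v ω ∧ ω ∈ Good Bad Nb (S \ Nb v)))).card : ℝ) := by
              exact_mod_cast Finset.card_le_card hcover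
          _ ≤ ∑ v ∈ univ.filter (fun v => u ∈ Nb v),
              ((univ.filter (fun ω => Bad v ω ∧ ω ∈ Good Bad Nb (S \ Nb v))).card : ℝ) := by
              exact_mod_cast Finset.card_biUnion_le
          _ ≤ ∑ v ∈ univ.filter (fun v => u ∈ Nb v), ((Good Bad Nb S).card : ℝ) / (2 * D ^ 2) := by
              apply Finset.sum_le_sum
              intro v hv
              exact hone v (Finset.mem_filter.1 hv).2
          _ = ((univ.filter (fun v => u ∈ Nb v)).card : ℝ) * ((Good Bad Nb S).card / (2 * D ^ 2)) := by
              rw [Finset.sum_const, nsmul_eq_mul]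
          _ ≤ D * ((Good Bad Nb S).card / (2 * D ^ 2)) :=
              mul_le_mul_of_nonneg_right (by exact_mod_cast h2 u) (by positivity)
          _ = _ := by field_simp
      have hsplit : ((Good Bad Nb S).card : ℝ) ≤
          (Good Bad Nb S \ Good Bad Nb (insert u S)).card + (Good Bad Nb (insert u S)).card := by
        have h := Finset.card_le_card_sdiff_add_card (s := Good Bad Nb S)
          (t := Good Bad Nb (insert u S))
        exact_mod_cast h
      linarith
  -- start
  have hempty : (Good Bad Nb ∅).card = Fintype.card (V → X) := by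
    rw [← Finset.card_univ]
    congr 1
    ext ω
    simp only [mem_univ, iff_true]
    rw [mem_Good]
    intro v hv hb
    have hNb : Nb v = ∅ := Finset.subset_empty.1 hv
    have hall : univ.filter (fun ω' => Bad v ω') = univ := by
      ext ω'
      simp only [mem_filter, mem_univ, true_and, iff_true]
      refine (hdep v ω ω' ?_).1 hb
      intro u hu
      rw [hNb] at hu
      exact absurd hu (Finset.notMem_empty u)
    have := hp v
    rw [hall, Finset.card_univ] at this
    have hD2 : 1 ≤ D ^ 2 := Nat.one_le_pow _ _ hD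
    nlinarith
  have hpos : ∀ S : Finset V, 0 < (Good Bad Nb S).card := by
    intro S
    induction S using Finset.induction_on with
    | empty => rw [hempty]; exact hΩ
    | insert u S hu ih =>
      have h := key S.card S rfl u hu
      have h3 : (0 : ℝ) < (Good Bad Nb S).card := by exact_mod_cast ih
      have h4 : (0 : ℝ) < (Good Bad Nb (insert u S)).card := (mul_pos hq0 h3).trans_le h
      exact_mod_cast h4
  obtain ⟨ω, hω⟩ := Finset.card_pos.1 (hpos univ)
  rw [mem_Good] at hω
  exact ⟨ω, fun v => hω v (Finset.subset_univ _)⟩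

end Pool.Agent.Helper34.AE
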