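import Mathlib

set_option autoImplicit false

namespace Pool.Agent.Helper34.AE

open Finset

private theorem exp_le_lin (s x : ℝ) (h0 : 0 ≤ x) (h1 : x ≤ 1) :
    Real.exp (s * x) ≤ 1 + (Real.exp s - 1) * x := by
  have h := convexOn_exp.2 (Set.mem_univ (0 : ℝ)) (Set.mem_univ s) (sub_nonneg.2 h1) h0
    (by ring : (1 - x) + x = 1)
  simp only [smul_eq_mul, mul_zero, zero_add, Real.exp_zero, mul_one] at h
  rw [mul_comm s x]
  linarith

private theorem exp_sub_one_le (s : ℝ) (h0 : 0 ≤ s) (h1 : s ≤ 1) :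
    Real.exp s - 1 ≤ s + s ^ 2 := by
  have h := Real.abs_exp_sub_one_sub_id_le (x := s) (by rw [abs_of_nonneg h0]; exact h1)
  have := (abs_le.1 h).2
  linarith

theorem chernoff {V X : Type} [Fintype V] [DecidableEq V] [Fintype X] [DecidableEq X] [Nonempty X]
    (x : V → X → ℝ) (hx0 : ∀ u a, 0 ≤ x u a) (hx1 : ∀ u a, x u a ≤ 1) (Nb : Finset V)
    (μ τ M : ℝ) (hτ : 0 < τ) (hτ1 : τ ≤ 1) (_hM : 0 ≤ M) (hμM : μ ≤ M)
    (hμ : ∑ u ∈ Nb, (∑ a, x u a) / Fintype.card X ≤ μ) :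
    ((univ.filter (fun ω : V → X => μ + τ * M ≤ ∑ u ∈ Nb, x u (ω u))).card : ℝ) ≤
      Real.exp (-(τ ^ 2 * M / 4)) * Fintype.card (V → X) := by
  classical
  obtain ⟨s, hs⟩ : ∃ s : ℝ, s = τ / 2 := ⟨_, rfl⟩
  have hs0 : 0 ≤ s := by rw [hs]; linarith
  have hs1 : s ≤ 1 := by rw [hs]; linarith
  obtain ⟨f, hf⟩ : ∃ f : V → X → ℝ, f = fun u a => if u ∈ Nb then Real.exp (s * x u a) else 1 :=
    ⟨_, rfl⟩
  have hcX : (0 : ℝ) < Fintype.card X := by exact_mod_cast Fintype.card_pos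
  -- Markov
  have h1 : ((univ.filter (fun ω : V → X => μ + τ * M ≤ ∑ u ∈ Nb, x u (ω u))).card : ℝ) *
      Real.exp (s * (μ + τ * M)) ≤ ∑ ω : V → X, ∏ u, f u (ω u) := by
    have hprod : ∀ ω : V → X, ∏ u, f u (ω u) = Real.exp (s * ∑ u ∈ Nb, x u (ω u)) := by
      intro ω
      rw [hf, mul_sum, Real.exp_sum]
      simp only
      rw [prod_ite_mem, univ_inter]
    rw [← nsmul_eq_mul, ← sum_const]
    refine (sum_le_sum (g := fun ω => ∏ u, f u (ω u)) ?_).trans
      (sum_le_sum_of_subset_of_nonneg (filter_subset _ _) ?_)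
    · intro ω hω
      rw [hprod ω]
      exact Real.exp_le_exp.2 (mul_le_mul_of_nonneg_left (mem_filter.1 hω).2 hs0)
    · intro ω _ _
      rw [hprod ω]
      exact (Real.exp_pos _).le
  -- product
  have h2 : ∑ ω : V → X, ∏ u, f u (ω u) = ∏ u, ∑ a, f u a := by
    rw [prod_univ_sum, Fintype.piFinset_univ]
  have h3 : ∏ u, ∑ a, f u a ≤
      ∏ u, ((Fintype.card X : ℝ) *
        Real.exp (if u ∈ Nb then (s + s ^ 2) * ((∑ a, x u a) / Fintype.card X) else 0)) := by
    apply prod_le_prod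
    · intro u _
      apply sum_nonneg
      intro a _
      rw [hf]
      simp only
      split_ifs
      · exact (Real.exp_pos _).le
      · exact zero_le_one
    · intro u _
      by_cases hu : u ∈ Nb
      · rw [hf]
        simp only [if_pos hu]
        have hsum0 : 0 ≤ (∑ a, x u a) := sum_nonneg (fun a _ => hx0 u a)
        calc ∑ a, Real.exp (s * x u a) ≤ ∑ a, (1 + (Real.exp s - 1) * x u a) :=
              sum_le_sum (fun a _ => exp_le_lin s (x u a) (hx0 u a) (hx1 u a))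
          _ = Fintype.card X + (Real.exp s - 1) * ∑ a, x u a := by
              rw [sum_add_distrib, ← mul_sum]
              simp
          _ ≤ Fintype.card X + (s + s ^ 2) * ∑ a, x u a := by
              have := mul_le_mul_of_nonneg_right (exp_sub_one_le s hs0 hs1) hsum0
              linarith
          _ = (Fintype.card X : ℝ) * ((s + s ^ 2) * ((∑ a, x u a) / Fintype.card X) + 1) := by
              field_simp
              ring
          _ ≤ (Fintype.card X : ℝ) *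
                Real.exp ((s + s ^ 2) * ((∑ a, x u a) / Fintype.card X)) :=
              mul_le_mul_of_nonneg_left (Real.add_one_le_exp _) hcX.le
      · rw [hf]
        simp only [if_neg hu]
        simp
  have h4 : ∏ u, ((Fintype.card X : ℝ) *
        Real.exp (if u ∈ Nb then (s + s ^ 2) * ((∑ a, x u a) / Fintype.card X) else 0)) =
      (Fintype.card (V → X) : ℝ) *
        Real.exp ((s + s ^ 2) * ∑ u ∈ Nb, ((∑ a, x u a) / Fintype.card X)) := by
    rw [prod_mul_distrib, ← Real.exp_sum, sum_ite_mem, univ_inter, ← mul_sum]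
    congr 1
    simp
  have h5 : Real.exp ((s + s ^ 2) * ∑ u ∈ Nb, ((∑ a, x u a) / Fintype.card X)) ≤
      Real.exp ((s + s ^ 2) * μ) :=
    Real.exp_le_exp.2 (mul_le_mul_of_nonneg_left hμ (by positivity))
  have hcV : (0 : ℝ) ≤ Fintype.card (V → X) := Nat.cast_nonneg _
  have h6 : ((univ.filter (fun ω : V → X => μ + τ * M ≤ ∑ u ∈ Nb, x u (ω u))).card : ℝ) *
      Real.exp (s * (μ + τ * M)) ≤ (Fintype.card (V → X) : ℝ) * Real.exp ((s + s ^ 2) * μ) :=
    (h1.trans (h2 ▸ h3)).trans (h4 ▸ mul_le_mul_of_nonneg_left h5 hcV)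
  have h7 : (s + s ^ 2) * μ - s * (μ + τ * M) ≤ -(τ ^ 2 * M / 4) := by
    have : s ^ 2 * μ ≤ s ^ 2 * M := mul_le_mul_of_nonneg_left hμM (sq_nonneg _)
    have h8 : s ^ 2 * M - s * (τ * M) = -(τ ^ 2 * M / 4) := by rw [hs]; ring
    nlinarith
  have h9 : ((univ.filter (fun ω : V → X => μ + τ * M ≤ ∑ u ∈ Nb, x u (ω u))).card : ℝ) ≤
      (Fintype.card (V → X) : ℝ) * Real.exp ((s + s ^ 2) * μ - s * (μ + τ * M)) := by
    rw [Real.exp_sub, mul_div_assoc', le_div_iff₀ (Real.exp_pos _)]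
    exact h6
  rw [mul_comm (Real.exp _)]
  exact h9.trans (mul_le_mul_of_nonneg_left (Real.exp_le_exp.2 h7) hcV)

end Pool.Agent.Helper34.AE
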