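import Pool.Agent.Helper34.CP.Main

set_option autoImplicit false

namespace Pool.Agent.Helper34.AE

open Finset

/-- The neighbours of `v` that come before `v` in the order `ord`. -/
def pre {V : Type} [Fintype V] (G : SimpleGraph V) [DecidableRel G.Adj] (ord : V → ℕ) (v : V) :
    Finset V :=
  univ.filter (fun u => G.Adj u v ∧ ord u < ord v)

/-- `S` is a union of cells of an `N × N` partition of the table (rows and columns separately). -/
def IsStep {m : ℕ} (N : ℕ) (S : Finset (Fin m × Fin m)) : Prop :=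
  ∃ ρ χ : Fin m → ℕ, (∀ i, ρ i < N) ∧ (∀ j, χ j < N) ∧
    ∀ i j i' j', ρ i = ρ i' → χ j = χ j' → ((i, j) ∈ S ↔ (i', j') ∈ S)

end Pool.Agent.Helper34.AE
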