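import Mathlib

/-!
# Finite linear programming duality for doubly stochastic matrices with linear constraints
-/

set_option autoImplicit false

namespace Pool.Agent.Helper34.AE

open Finset

theorem dual_exists {m : ℕ} {ι : Type} [Fintype ι] (u : Fin m → Fin m → ℝ)
    (hu : ∀ i j, 0 ≤ u i j) (A : ι → Fin m → Fin m → ℝ) (c : ι → ℝ)
    (h : ∀ (α β : Fin m → ℝ) (w : ι → ℝ), (∀ t, 0 ≤ w t) →
      ∑ i, α i + ∑ j, β j - ∑ t, w t * c t ≤
        ∑ i, ∑ j, u i j * max 0 (α i + β j - ∑ t, w t * A t i j)) :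
    ∃ P : Fin m → Fin m → ℝ, (∀ i j, 0 ≤ P i j) ∧ (∀ i j, P i j ≤ u i j) ∧
      (∀ i, ∑ j, P i j = 1) ∧ (∀ j, ∑ i, P i j = 1) ∧
      ∀ t, ∑ i, ∑ j, A t i j * P i j ≤ c t := by
  classical
  by_contra hno
  push Not at hno
  -- the linear map
  let L : (Fin m → Fin m → ℝ) →ₗ[ℝ] (Fin m ⊕ (Fin m ⊕ ι) → ℝ) :=
    { toFun := fun x => Sum.elim (fun i => ∑ j, x i j)
        (Sum.elim (fun j => ∑ i, x i j) (fun t => ∑ i, ∑ j, A t i j * x i j))
      map_add' := by
        intro x y
        funext k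
        rcases k with i | j | t
        · simp [Finset.sum_add_distrib]
        · simp [Finset.sum_add_distrib]
        · simp [Finset.sum_add_distrib, mul_add]
      map_smul' := by
        intro r x
        funext k
        rcases k with i | j | t
        · simp [Finset.mul_sum]
        · simp [Finset.mul_sum]
        · simp only [Sum.elim_inr, Pi.smul_apply, smul_eq_mul, RingHom.id_apply, Finset.mul_sum]
          refine Finset.sum_congr rfl fun i _ => Finset.sum_congr rfl fun j _ => ?_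
          ring }
  have hLc : Continuous L := L.continuous_of_finiteDimensional
  let K : Set (Fin m ⊕ (Fin m ⊕ ι) → ℝ) := L '' (Set.Icc 0 u)
  let C : Set (Fin m ⊕ (Fin m ⊕ ι) → ℝ) :=
    {z | (∀ i, z (Sum.inl i) = 1) ∧ (∀ j, z (Sum.inr (Sum.inl j)) = 1) ∧
      ∀ t, z (Sum.inr (Sum.inr t)) ≤ c t}
  have hKconv : Convex ℝ K := (convex_Icc (0 : Fin m → Fin m → ℝ) u).linear_image L
  have hKcomp : IsCompact K := isCompact_Icc.image hLc
  have hCconv : Convex ℝ C := by
    intro x hx y hy a b ha hb hab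
    refine ⟨fun i => ?_, fun j => ?_, fun t => ?_⟩
    · simp only [Pi.add_apply, Pi.smul_apply, smul_eq_mul, hx.1 i, hy.1 i]
      linarith
    · simp only [Pi.add_apply, Pi.smul_apply, smul_eq_mul, hx.2.1 j, hy.2.1 j]
      linarith
    · simp only [Pi.add_apply, Pi.smul_apply, smul_eq_mul]
      have h1 := mul_le_mul_of_nonneg_left (hx.2.2 t) ha
      have h2 := mul_le_mul_of_nonneg_left (hy.2.2 t) hb
      calc a * x (Sum.inr (Sum.inr t)) + b * y (Sum.inr (Sum.inr t)) ≤ a * c t + b * c t :=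
            add_le_add h1 h2
        _ = (a + b) * c t := by ring
        _ = c t := by rw [hab, one_mul]
  have hCclosed : IsClosed C := by
    have e : C = (⋂ i, {z | z (Sum.inl i) = 1}) ∩ ((⋂ j, {z | z (Sum.inr (Sum.inl j)) = 1}) ∩
        ⋂ t, {z | z (Sum.inr (Sum.inr t)) ≤ c t}) := by
      ext z
      simp [C]
    rw [e]
    refine IsClosed.inter ?_ (IsClosed.inter ?_ ?_)
    · exact isClosed_iInter fun i => isClosed_eq (continuous_apply _) continuous_const
    · exact isClosed_iInter fun i => isClosed_eq (continuous_apply _) continuous_const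
    · exact isClosed_iInter fun i => isClosed_le (continuous_apply _) continuous_const
  have hdisj : Disjoint K C := by
    rw [Set.disjoint_left]
    rintro _ ⟨x, hx, rfl⟩ hz
    obtain ⟨t, ht⟩ := hno x (fun i j => hx.1 i j) (fun i j => hx.2 i j) (fun i => hz.1 i)
      (fun j => hz.2.1 j)
    exact absurd (hz.2.2 t) (not_le.2 ht)
  obtain ⟨f, s, v, hfs, hsv, hfv⟩ :=
    geometric_hahn_banach_compact_closed hKconv hKcomp hCconv hCclosed hdisj
  -- coordinates of the functional
  have hf : ∀ z : Fin m ⊕ (Fin m ⊕ ι) → ℝ, f z = ∑ k, z k * f (fun l => if k = l then 1 else 0) := by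
    intro z
    have := LinearMap.pi_apply_eq_sum_univ (f : (Fin m ⊕ (Fin m ⊕ ι) → ℝ) →ₗ[ℝ] ℝ) z
    simpa using this
  obtain ⟨φ, hφ⟩ : ∃ φ : Fin m ⊕ (Fin m ⊕ ι) → ℝ, ∀ z, f z = ∑ k, z k * φ k := ⟨_, hf⟩
  have hφ' : ∀ z : Fin m ⊕ (Fin m ⊕ ι) → ℝ, f z = ∑ i, z (Sum.inl i) * φ (Sum.inl i) +
      (∑ j, z (Sum.inr (Sum.inl j)) * φ (Sum.inr (Sum.inl j)) +
        ∑ t, z (Sum.inr (Sum.inr t)) * φ (Sum.inr (Sum.inr t))) := by
    intro z
    rw [hφ, Fintype.sum_sum_type, Fintype.sum_sum_type]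
  -- the base point of `C`
  let z0 : Fin m ⊕ (Fin m ⊕ ι) → ℝ := Sum.elim (fun _ => 1) (Sum.elim (fun _ => 1) c)
  have hz0 : z0 ∈ C := ⟨fun _ => rfl, fun _ => rfl, fun _ => le_rfl⟩
  -- nonnegativity of the weights
  have hw : ∀ t, 0 ≤ - φ (Sum.inr (Sum.inr t)) := by
    intro t
    by_contra hneg
    have hpos : 0 < φ (Sum.inr (Sum.inr t)) := by linarith
    obtain ⟨r, hr⟩ : ∃ r : ℝ, r = (f z0 - v) / φ (Sum.inr (Sum.inr t)) := ⟨_, rfl⟩
    have hr0 : 0 ≤ r := by
      rw [hr]
      exact div_nonneg (by linarith [hfv z0 hz0]) hpos.le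
    let e : Fin m ⊕ (Fin m ⊕ ι) → ℝ := Pi.single (Sum.inr (Sum.inr t)) 1
    have hmem : z0 - r • e ∈ C := by
      refine ⟨fun i => ?_, fun j => ?_, fun t' => ?_⟩
      · simp [e, z0]
      · simp [e, z0]
      · simp only [e, z0, Pi.sub_apply, Pi.smul_apply, smul_eq_mul, Sum.elim_inr]
        have : (0 : ℝ) ≤ (Pi.single (Sum.inr (Sum.inr t)) (1 : ℝ) :
            Fin m ⊕ (Fin m ⊕ ι) → ℝ) (Sum.inr (Sum.inr t')) := by
          by_cases htt : t' = t
          · subst htt; simp
          · rw [Pi.single_eq_of_ne]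
            simpa using htt
        have := mul_nonneg hr0 this
        linarith
    have h1 := hfv _ hmem
    have h2 : f e = φ (Sum.inr (Sum.inr t)) := by
      rw [hφ]
      simp [e, Pi.single_apply]
    rw [map_sub, map_smul, h2, smul_eq_mul, hr, div_mul_cancel₀ _ hpos.ne'] at h1
    linarith
  -- the maximising point
  have hkey := h (fun i => φ (Sum.inl i)) (fun j => φ (Sum.inr (Sum.inl j)))
    (fun t => - φ (Sum.inr (Sum.inr t))) hw
  let D : Fin m → Fin m → ℝ := fun i j => φ (Sum.inl i) + φ (Sum.inr (Sum.inl j)) -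
    ∑ t, - φ (Sum.inr (Sum.inr t)) * A t i j
  let x : Fin m → Fin m → ℝ := fun i j => if 0 < D i j then u i j else 0
  have hx : x ∈ Set.Icc 0 u := by
    constructor
    · intro i j
      simp only [x]
      split_ifs
      · exact hu i j
      · exact le_rfl
    · intro i j
      simp only [x]
      split_ifs
      · exact le_rfl
      · exact hu i j
  have hxK := hfs _ ⟨x, hx, rfl⟩
  have e1 : f (L x) = ∑ i, ∑ j, x i j * D i j := by
    rw [hφ']
    have a1 : ∀ i, L x (Sum.inl i) = ∑ j, x i j := fun i => rfl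
    have a2 : ∀ j, L x (Sum.inr (Sum.inl j)) = ∑ i, x i j := fun i => rfl
    have a3 : ∀ t, L x (Sum.inr (Sum.inr t)) = ∑ i, ∑ j, A t i j * x i j := fun i => rfl
    simp only [a1, a2, a3, D]
    have b1 : ∀ i j, x i j * (φ (Sum.inl i) + φ (Sum.inr (Sum.inl j)) -
        ∑ t, - φ (Sum.inr (Sum.inr t)) * A t i j) =
        x i j * φ (Sum.inl i) + (x i j * φ (Sum.inr (Sum.inl j)) +
          ∑ t, A t i j * x i j * φ (Sum.inr (Sum.inr t))) := by
      intro i j
      have : ∑ t, A t i j * x i j * φ (Sum.inr (Sum.inr t)) =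
          - (x i j * ∑ t, - φ (Sum.inr (Sum.inr t)) * A t i j) := by
        rw [Finset.mul_sum, ← Finset.sum_neg_distrib]
        refine Finset.sum_congr rfl fun t _ => ?_
        ring
      rw [this]
      ring
    simp only [b1, Finset.sum_add_distrib]
    congr 1
    · refine Finset.sum_congr rfl fun i _ => ?_
      rw [Finset.sum_mul]
    · congr 1
      · rw [Finset.sum_comm]
        refine Finset.sum_congr rfl fun i _ => ?_
        rw [Finset.sum_mul]
      · simp only [Finset.sum_mul]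
        rw [Finset.sum_comm]
        refine Finset.sum_congr rfl fun i _ => ?_
        rw [Finset.sum_comm]
  have e2 : ∀ i j, x i j * D i j = u i j * max 0 (D i j) := by
    intro i j
    simp only [x]
    split_ifs with hD
    · rw [max_eq_right hD.le]
    · rw [max_eq_left (not_lt.1 hD)]
      ring
  have e3 : f z0 = ∑ i, φ (Sum.inl i) + ∑ j, φ (Sum.inr (Sum.inl j)) -
      ∑ t, - φ (Sum.inr (Sum.inr t)) * c t := by
    rw [hφ']
    have a1 : ∀ i, z0 (Sum.inl i) = 1 := fun i => rfl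
    have a2 : ∀ j, z0 (Sum.inr (Sum.inl j)) = 1 := fun i => rfl
    have a3 : ∀ t, z0 (Sum.inr (Sum.inr t)) = c t := fun i => rfl
    simp only [a1, a2, a3, one_mul, neg_mul, Finset.sum_neg_distrib, sub_neg_eq_add]
    rw [add_assoc]
    congr 2
    refine Finset.sum_congr rfl fun t _ => ?_
    ring
  have h1 := hfv z0 hz0
  rw [e3] at h1
  rw [e1] at hxK
  simp only [e2] at hxK
  have h2 : ∑ i, ∑ j, u i j * max 0 (D i j) < ∑ i, ∑ j, u i j * max 0 (D i j) :=
    calc ∑ i, ∑ j, u i j * max 0 (D i j) < s := hxK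
      _ < v := hsv
      _ < _ := h1
      _ ≤ _ := hkey
  exact lt_irrefl _ h2

end Pool.Agent.Helper34.AE
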