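import Pool.Agent.Helper34.AE.Fluid
import Pool.Agent.Helper34.AE.Avoid
import Pool.Agent.Helper34.AE.Chernoff
import Pool.Agent.Helper34.AE.Defs

set_option autoImplicit false

namespace Pool.Agent.Helper34.AE

open Finset

namespace Ord

variable {V : Type} [Fintype V] [DecidableEq V] (G : SimpleGraph V) [DecidableRel G.Adj]

/-- number of neighbours of `v` whose window contains `T` -/
def nn (N : ℕ) (τ : V → ℕ) (v : V) (T : ℕ) : ℕ :=
  ((univ.filter (fun u => G.Adj u v)).filter (fun u => T ∈ Ico (τ u) (τ u + N))).card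

theorem sum_nn_le (N : ℕ) (τ : V → ℕ) (v : V) (B : Finset ℕ) (T0 : ℕ) (hB : ∀ T ∈ B, T < T0) :
    ∑ T ∈ B, nn G N τ v T ≤ ∑ u ∈ univ.filter (fun u => G.Adj u v),
      ((Ico (τ u) (τ u + N)).filter (fun T' => T' < T0)).card := by
  calc ∑ T ∈ B, nn G N τ v T = ∑ T ∈ B, ∑ u ∈ univ.filter (fun u => G.Adj u v),
         (if T ∈ Ico (τ u) (τ u + N) then 1 else 0) := by
        apply sum_congr rfl
        intro T _
        rw [nn, card_filter]
    _ = ∑ u ∈ univ.filter (fun u => G.Adj u v), ∑ T ∈ B,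
         (if T ∈ Ico (τ u) (τ u + N) then 1 else 0) := sum_comm
    _ ≤ _ := by
        apply sum_le_sum
        intro u _
        rw [← card_filter]
        apply card_le_card
        intro T hT
        rw [mem_filter] at hT ⊢
        exact ⟨hT.2, hB T hT.1⟩

theorem AA_ge (N : ℕ) (hN : 0 < N) (M : ℝ) (hM : 0 < M) (τ : V → ℕ) (v : V) (B : Finset ℕ)
    (T0 : ℕ) (hB : ∀ T ∈ B, T < T0) (ζ : ℝ) (hζ : ∀ T ∈ B, ζ * (N * M) ≤ (nn G N τ v T : ℝ)) :
    ζ * (B.card : ℝ) ≤ AA G N M τ v T0 := by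
  have hNM : (0 : ℝ) < N * M := by positivity
  have h1 : ζ * (N * M) * (B.card : ℝ) ≤ ∑ T ∈ B, (nn G N τ v T : ℝ) := by
    have := Finset.card_nsmul_le_sum B (fun T => (nn G N τ v T : ℝ)) (ζ * (N * M)) hζ
    rw [nsmul_eq_mul] at this
    linarith
  have h2 := sum_nn_le G N τ v B T0 hB
  have h3 : ∑ T ∈ B, (nn G N τ v T : ℝ) ≤ ∑ u ∈ univ.filter (fun u => G.Adj u v),
      (((Ico (τ u) (τ u + N)).filter (fun T' => T' < T0)).card : ℝ) := by
    exact_mod_cast h2
  rw [AA, one_div, inv_mul_eq_div, le_div_iff₀ hNM]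
  linarith

theorem slots (N : ℕ) (hN : 0 < N) (M : ℝ) (hM : 0 < M) (τ : V → ℕ) (F : V → ℕ → ℝ) (K : ℝ)
    (n : ℕ) (ζ : ℝ) (hζ : 0 < ζ) (hF1 : ∀ v T, 1 ≤ F v T)
    (hA : ∀ v T, F v T < K → AA G N M τ v T < 1)
    (hsum : ∀ v, ∑ T ∈ Ico (τ v) (τ v + N), F v T ≤ K * n) (hK : 0 < K) (hn : 1 / ζ + 1 ≤ (n : ℝ))
    (v : V) :
    ∃ a : Fin (N - n - n) → ℕ, Function.Injective a ∧ ∀ x, a x ∈ Ico (τ v) (τ v + N) ∧
      F v (a x) < K ∧ (nn G N τ v (a x) : ℝ) ≤ ζ * (N * M) := by
  classical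
  set W := Ico (τ v) (τ v + N) with hW
  set A1 := W.filter (fun T => K ≤ F v T) with hA1
  set A2 := W.filter (fun T => F v T < K ∧ ζ * (N * M) < (nn G N τ v T : ℝ)) with hA2
  set Gd := W.filter (fun T => F v T < K ∧ (nn G N τ v T : ℝ) ≤ ζ * (N * M)) with hGd
  have c1 : A1.card ≤ n := by
    have h1 : (A1.card : ℝ) * K ≤ ∑ T ∈ A1, F v T := by
      have := Finset.card_nsmul_le_sum A1 (fun T => F v T) K (by
        intro T hT
        exact (mem_filter.1 hT).2)
      rwa [nsmul_eq_mul] at this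
    have h2 : ∑ T ∈ A1, F v T ≤ ∑ T ∈ W, F v T := by
      apply sum_le_sum_of_subset_of_nonneg (filter_subset _ _)
      intro T _ _
      linarith [hF1 v T]
    have h3 : (A1.card : ℝ) * K ≤ n * K := by linarith [hsum v]
    exact_mod_cast le_of_mul_le_mul_right h3 hK
  have c2 : A2.card ≤ n := by
    rcases A2.eq_empty_or_nonempty with h | h
    · rw [h]; simp
    · have hmem := A2.max'_mem h
      set T0 := A2.max' h with hT0
      have hlt : AA G N M τ v T0 < 1 := hA v T0 ((mem_filter.1 hmem).2.1)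
      have h1 := AA_ge G N hN M hM τ v (A2.erase T0) T0 (by
        intro T hT
        have h2 := mem_erase.1 hT
        exact lt_of_le_of_ne (A2.le_max' T h2.2) h2.1) ζ (by
        intro T hT
        have h2 := mem_erase.1 hT
        exact (mem_filter.1 h2.2).2.2.le)
      rw [card_erase_of_mem hmem] at h1
      have h3 : 1 ≤ A2.card := h.card_pos
      rw [Nat.cast_sub h3] at h1
      have h4 : ζ * ((A2.card : ℝ) - ((1 : ℕ) : ℝ)) < 1 := lt_of_le_of_lt h1 hlt
      have h5 : (A2.card : ℝ) - ((1 : ℕ) : ℝ) < 1 / ζ := by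
        rw [lt_div_iff₀ hζ]; linarith
      have h6 : (A2.card : ℝ) ≤ n := by
        push_cast at h5
        linarith
      exact_mod_cast h6
  have c3 : N ≤ A1.card + A2.card + Gd.card := by
    have h1 : W ⊆ A1 ∪ A2 ∪ Gd := by
      intro T hT
      simp only [mem_union, hA1, hA2, hGd, mem_filter]
      by_cases h1 : K ≤ F v T
      · exact Or.inl (Or.inl ⟨hT, h1⟩)
      · push Not at h1
        by_cases h2 : ζ * (N * M) < (nn G N τ v T : ℝ)
        · exact Or.inl (Or.inr ⟨hT, h1, h2⟩)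
        · push Not at h2
          exact Or.inr ⟨hT, h1, h2⟩
    have h2 := card_le_card h1
    have h3 : W.card = N := by rw [hW, Nat.card_Ico]; omega
    have h4 := card_union_le (A1 ∪ A2) Gd
    have h5 := card_union_le A1 A2
    omega
  have c4 : N - n - n ≤ Gd.card := by omega
  refine ⟨fun x => (Gd.equivFin.symm (Fin.castLE c4 x) : ℕ), ?_, ?_⟩
  · intro x y hxy
    have h1 := Subtype.ext hxy
    exact Fin.castLE_injective c4 (Gd.equivFin.symm.injective h1)
  · intro x
    have h1 := (Gd.equivFin.symm (Fin.castLE c4 x)).2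
    exact mem_filter.1 h1

theorem mean (N : ℕ) (τ : V → ℕ) (v : V) {n' : ℕ} (a : V → Fin n' → ℕ)
    (hinj : ∀ u, Function.Injective (a u)) (hW : ∀ u x, a u x ∈ Ico (τ u) (τ u + N)) (T : ℕ)
    (g : V → ℕ → ℝ) (hg : ∀ u T, 0 ≤ g u T) (C : ℝ) (hC : ∀ u T, g u T ≤ C) :
    ∑ u ∈ univ.filter (fun u => G.Adj u v), ∑ x, (if a u x ≤ T then g u (a u x) else 0) ≤
      ∑ u ∈ univ.filter (fun u => G.Adj u v),
        ∑ T' ∈ (Ico (τ u) (τ u + N)).filter (fun T' => T' < T), g u T' + C * nn G N τ v T := by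
  classical
  have hnn : (nn G N τ v T : ℝ) = ∑ u ∈ univ.filter (fun u => G.Adj u v),
      (if T ∈ Ico (τ u) (τ u + N) then (1 : ℝ) else 0) := by
    rw [nn, card_filter]
    push_cast
    rfl
  rw [hnn, mul_sum, ← sum_add_distrib]
  apply sum_le_sum
  intro u _
  have h1 : ∑ x, (if a u x ≤ T then g u (a u x) else 0) =
      ∑ T' ∈ univ.image (a u), (if T' ≤ T then g u T' else 0) := by
    rw [sum_image]
    intro x _ y _ hxy
    exact hinj u hxy
  have h2 : ∑ T' ∈ univ.image (a u), (if T' ≤ T then g u T' else 0) ≤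
      ∑ T' ∈ Ico (τ u) (τ u + N), (if T' ≤ T then g u T' else 0) := by
    apply sum_le_sum_of_subset_of_nonneg
    · intro T' hT'
      obtain ⟨x, _, rfl⟩ := mem_image.1 hT'
      exact hW u x
    · intro T' _ _
      split_ifs
      · exact hg u T'
      · exact le_refl _
  have h3 : ∑ T' ∈ Ico (τ u) (τ u + N), (if T' ≤ T then g u T' else 0) =
      ∑ T' ∈ Ico (τ u) (τ u + N), (if T' < T then g u T' else 0) +
      ∑ T' ∈ Ico (τ u) (τ u + N), (if T = T' then g u T' else 0) := by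
    rw [← sum_add_distrib]
    apply sum_congr rfl
    intro T' _
    by_cases h : T' < T
    · rw [if_pos h.le, if_pos h, if_neg (by omega)]; simp
    · by_cases h' : T = T'
      · rw [if_pos (by omega), if_neg h, if_pos h']; simp
      · rw [if_neg (by omega), if_neg h, if_neg h']; simp
  rw [h1]
  refine h2.trans ?_
  rw [h3, ← sum_filter, sum_ite_eq]
  apply add_le_add le_rfl
  split_ifs
  · rw [mul_one]; exact hC u T
  · rw [mul_zero]

end Ord


namespace Ord

variable {V : Type} [Fintype V] [DecidableEq V] (G : SimpleGraph V) [DecidableRel G.Adj]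

/-- the probabilistic step -/
theorem prob (n' : ℕ) (hn' : 0 < n') (t : ℝ) (ht : 0 < t) (ht1 : t ≤ 1) (m Δ : ℕ)
    (hm : 128 * (n' : ℝ) / t ^ 2 ≤ m) (hΔ : (Δ : ℝ) ≤ Real.exp (t ^ 2 / 32 * m))
    (hdeg : ∀ v, G.degree v ≤ Δ) (f : V → Fin n' → Bool → V → Fin n' → ℝ)
    (hf0 : ∀ v x b u y, 0 ≤ f v x b u y) (hf1 : ∀ v x b u y, f v x b u y ≤ 1)
    (E : V → Fin n' → Bool → ℝ) (hE : ∀ v x b, E v x b ≤ 2 * m)
    (hmean : ∀ v x b, ∑ u ∈ univ.filter (fun u => G.Adj u v), (∑ y, f v x b u y) / n' ≤ E v x b) :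
    ∃ ω : V → Fin n', ∀ v x b,
      ∑ u ∈ univ.filter (fun u => G.Adj u v), f v x b u (ω u) < E v x b + t * m := by
  classical
  haveI : Nonempty (Fin n') := ⟨⟨0, hn'⟩⟩
  have hm0 : (0 : ℝ) ≤ m := Nat.cast_nonneg _
  set Bad : V → (V → Fin n') → Prop := fun v ω => ∃ x b,
    E v x b + t * m ≤ ∑ u ∈ univ.filter (fun u => G.Adj u v), f v x b u (ω u) with hBad
  obtain ⟨ω, hω⟩ := avoid Bad (fun v => univ.filter (fun u => G.Adj u v))
    (by
      intro v ω ω' h
      have key : ∀ x b, ∑ u ∈ univ.filter (fun u => G.Adj u v), f v x b u (ω u) =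
          ∑ u ∈ univ.filter (fun u => G.Adj u v), f v x b u (ω' u) := by
        intro x b
        apply sum_congr rfl
        intro u hu
        rw [h u hu]
      simp only [hBad, key])
    (max Δ 1) (by positivity)
    (by
      intro v
      have h1 : (univ.filter (fun u => G.Adj u v)) = G.neighborFinset v := by
        ext u; simp [SimpleGraph.adj_comm]
      rw [h1, SimpleGraph.card_neighborFinset_eq_degree]
      exact (hdeg v).trans (le_max_left _ _))
    (by
      intro u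
      have h1 : (univ.filter (fun v => u ∈ univ.filter (fun u => G.Adj u v))) =
          G.neighborFinset u := by
        ext v; simp
      rw [h1, SimpleGraph.card_neighborFinset_eq_degree]
      exact (hdeg u).trans (le_max_left _ _))
    (by
      intro v
      have h1 : (univ.filter (fun ω => Bad v ω)) ⊆
          (univ : Finset (Fin n' × Bool)).biUnion (fun p => univ.filter (fun ω : V → Fin n' =>
            E v p.1 p.2 + t * m ≤ ∑ u ∈ univ.filter (fun u => G.Adj u v), f v p.1 p.2 u (ω u))) := by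
        intro ω hω
        obtain ⟨x, b, hxb⟩ := (mem_filter.1 hω).2
        exact mem_biUnion.2 ⟨(x, b), mem_univ _, mem_filter.2 ⟨mem_univ _, hxb⟩⟩
      have h2 := (card_le_card h1).trans card_biUnion_le
      have h3 : ∀ p : Fin n' × Bool, ((univ.filter (fun ω : V → Fin n' =>
            E v p.1 p.2 + t * m ≤ ∑ u ∈ univ.filter (fun u => G.Adj u v),
              f v p.1 p.2 u (ω u))).card : ℝ) ≤
            Real.exp (-((t / 2) ^ 2 * (2 * m) / 4)) * Fintype.card (V → Fin n') := by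
        intro p
        have h4 := chernoff (f v p.1 p.2) (hf0 v p.1 p.2) (hf1 v p.1 p.2)
          (univ.filter (fun u => G.Adj u v)) (E v p.1 p.2) (t / 2) (2 * m) (by positivity)
          (by linarith) (by positivity) (hE v p.1 p.2) (by
            rw [Fintype.card_fin]
            exact hmean v p.1 p.2)
        have h5 : t / 2 * (2 * (m : ℝ)) = t * m := by ring
        rw [h5] at h4
        exact h4
      have h4 : ((univ.filter (fun ω => Bad v ω)).card : ℝ) ≤
          (2 * n') * (Real.exp (-((t / 2) ^ 2 * (2 * m) / 4)) * Fintype.card (V → Fin n')) := by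
        calc ((univ.filter (fun ω => Bad v ω)).card : ℝ) ≤ ∑ p : Fin n' × Bool,
              ((univ.filter (fun ω : V → Fin n' =>
            E v p.1 p.2 + t * m ≤ ∑ u ∈ univ.filter (fun u => G.Adj u v),
              f v p.1 p.2 u (ω u))).card : ℝ) := by exact_mod_cast h2
          _ ≤ ∑ p : Fin n' × Bool,
            (Real.exp (-((t / 2) ^ 2 * (2 * m) / 4)) * Fintype.card (V → Fin n')) :=
              sum_le_sum (fun p _ => h3 p)
          _ = _ := by
              rw [sum_const, card_univ, Fintype.card_prod, Fintype.card_fin, Fintype.card_bool,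
                nsmul_eq_mul]
              push_cast
              ring
      have hD : ((max Δ 1 : ℕ) : ℝ) ≤ Real.exp (t ^ 2 / 32 * m) := by
        rw [Nat.cast_max]
        apply max_le hΔ
        rw [Nat.cast_one]
        exact Real.one_le_exp (by positivity)
      have hD2 : ((max Δ 1 : ℕ) : ℝ) ^ 2 ≤ Real.exp (t ^ 2 / 16 * m) := by
        calc ((max Δ 1 : ℕ) : ℝ) ^ 2 ≤ (Real.exp (t ^ 2 / 32 * m)) ^ 2 := by
              apply pow_le_pow_left₀ (Nat.cast_nonneg _) hD
          _ = Real.exp (t ^ 2 / 16 * m) := by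
              rw [← Real.exp_nat_mul]
              congr 1
              push_cast
              ring
      have hn8 : 8 * (n' : ℝ) ≤ Real.exp (t ^ 2 / 16 * m) := by
        have h5 : 8 * (n' : ℝ) ≤ t ^ 2 / 16 * m := by
          rw [div_le_iff₀ (by positivity)] at hm
          linarith
        have h6 := Real.add_one_le_exp (t ^ 2 / 16 * (m : ℝ))
        linarith
      have hΩ : (0 : ℝ) ≤ Fintype.card (V → Fin n') := Nat.cast_nonneg _
      have h5 : (4 * (max Δ 1) ^ 2 * (univ.filter (fun ω => Bad v ω)).card : ℝ) ≤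
          Fintype.card (V → Fin n') := by
        set e1 := Real.exp (t ^ 2 / 16 * m) with he1
        set e2 := Real.exp (-((t / 2) ^ 2 * (2 * m) / 4)) with he2
        have he12 : e1 * (e1 * e2) = 1 := by
          rw [he1, he2, ← Real.exp_add, ← Real.exp_add, Real.exp_eq_one_iff]
          ring
        have he1p : 0 < e1 := Real.exp_pos _
        have he2p : 0 < e2 := Real.exp_pos _
        calc (4 * ((max Δ 1 : ℕ) : ℝ) ^ 2 * (univ.filter (fun ω => Bad v ω)).card : ℝ)
            ≤ 4 * e1 * ((2 * n') * (e2 * Fintype.card (V → Fin n'))) := by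
              apply mul_le_mul (by linarith) h4 (Nat.cast_nonneg _) (by positivity)
          _ = (8 * n') * (e1 * e2) * Fintype.card (V → Fin n') := by ring
          _ ≤ e1 * (e1 * e2) * Fintype.card (V → Fin n') := by
              apply mul_le_mul_of_nonneg_right _ hΩ
              apply mul_le_mul_of_nonneg_right hn8 (by positivity)
          _ = Fintype.card (V → Fin n') := by rw [he12, one_mul]
      exact_mod_cast h5)
  refine ⟨ω, ?_⟩
  intro v x b
  have h1 := hω v
  simp only [hBad, not_exists, not_le] at h1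
  exact h1 x b

end Ord


namespace Ord

theorem final_ineq (d m K ζ A S F p s : ℝ) (hd : 4 ≤ d) (hm : 0 < m) (hK : 0 < K)
    (hζ : 12 * K * ζ = 1) (hζ0 : 0 < ζ) (hA : 0 ≤ A) (hS : 0 ≤ S) (hF1 : 1 ≤ F) (hFK : F ≤ K)
    (hFA : F * (1 - A) = 1 + S) (hp : p ≤ m * ((d - 3) / (d - 2)) * (A + ζ) + ζ * m)
    (hs : s ≤ m * ((d - 3) / (d - 2)) * (S + K * ζ) + K * ζ * m) :
    1 + (1 + 1 / (d - 3)) / m * (2 * s) ≤ 2 * F * (1 - p / m) := by
  have h3 : 0 < d - 3 := by linarith
  have h2 : 0 < d - 2 := by linarith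
  have hg : (1 + 1 / (d - 3)) * ((d - 3) / (d - 2)) = 1 := by
    field_simp
    ring
  have hg2 : 1 + 1 / (d - 3) ≤ 2 := by
    have : 1 / (d - 3) ≤ 1 := by
      rw [div_le_one h3]; linarith
    linarith
  have hg0 : 0 < 1 + 1 / (d - 3) := by positivity
  have hr1 : (d - 3) / (d - 2) ≤ 1 := by
    rw [div_le_one h2]; linarith
  have hr0 : 0 ≤ (d - 3) / (d - 2) := by positivity
  set g := 1 + 1 / (d - 3) with hgdef
  set r := (d - 3) / (d - 2) with hrdef
  have e1 : s / m ≤ r * (S + K * ζ) + K * ζ := by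
    rw [div_le_iff₀ hm]; linarith
  have e2 : p / m ≤ r * (A + ζ) + ζ := by
    rw [div_le_iff₀ hm]; linarith
  have e3 : g / m * (2 * s) = 2 * (g * (s / m)) := by ring
  have e4 : g * (s / m) ≤ S + K * ζ + 2 * (K * ζ) := by
    calc g * (s / m) ≤ g * (r * (S + K * ζ) + K * ζ) := mul_le_mul_of_nonneg_left e1 hg0.le
      _ = (g * r) * (S + K * ζ) + g * (K * ζ) := by ring
      _ ≤ S + K * ζ + 2 * (K * ζ) := by
        rw [hg, one_mul]
        have : g * (K * ζ) ≤ 2 * (K * ζ) := mul_le_mul_of_nonneg_right hg2 (by positivity)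
        linarith
  have e5 : p / m ≤ A + 2 * ζ := by
    have : r * (A + ζ) ≤ 1 * (A + ζ) := mul_le_mul_of_nonneg_right hr1 (by positivity)
    linarith
  have e6 : F * (1 - (A + 2 * ζ)) ≤ F * (1 - p / m) := by
    apply mul_le_mul_of_nonneg_left _ (by linarith)
    linarith
  have e7 : F * ζ ≤ K * ζ := mul_le_mul_of_nonneg_right hFK hζ0.le
  have e8 : F * (1 - (A + 2 * ζ)) = F * (1 - A) - 2 * (F * ζ) := by ring
  rw [e3]
  nlinarith

end Ord

theorem order_theorem (ε : ℝ) (hε : 0 < ε) (hε1 : ε ≤ 1) :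
    ∃ (K' γ c : ℝ) (m₀ : ℕ), 1 ≤ K' ∧ 0 < γ ∧ 0 < c ∧ 0 < m₀ ∧ ∀ m : ℕ, m₀ ≤ m → ∀ Δ : ℕ,
      (Δ : ℝ) ≤ Real.exp (c * m) →
      ∀ (V : Type) [Fintype V] [DecidableEq V] (G : SimpleGraph V) [DecidableRel G.Adj],
        (∀ v, G.degree v ≤ Δ) →
        (∀ S : Finset V, (((S ×ˢ S).filter (fun p => G.Adj p.1 p.2)).card : ℝ) ≤
          (1 - ε) * m * S.card) →
        ∃ (ord : V → ℕ) (J : V → ℝ), Function.Injective ord ∧ (∀ v, 1 ≤ J v) ∧ (∀ v, J v ≤ K') ∧
          ∀ v, 1 + (1 + γ) / m * ∑ u ∈ pre G ord v, J u ≤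
            J v * (1 - ((pre G ord v).card : ℝ) / m) := by
  obtain ⟨d, hd⟩ := exists_nat_ge (3 + 6 / ε)
  have h6ε : 6 ≤ 6 / ε := by rw [le_div_iff₀ hε]; linarith
  have h10ε : 10 ≤ 10 / ε := by rw [le_div_iff₀ hε]; linarith
  have hd9 : (9 : ℝ) ≤ d := by linarith
  obtain ⟨K, hKdef⟩ : ∃ K : ℝ, K = d * (10 / ε) := ⟨_, rfl⟩
  have hK90 : 90 ≤ K := by rw [hKdef]; nlinarith
  obtain ⟨ζ, hζdef⟩ : ∃ ζ : ℝ, ζ = 1 / (12 * K) := ⟨_, rfl⟩
  have hζ0 : 0 < ζ := by rw [hζdef]; positivity
  have hζK : 12 * K * ζ = 1 := by rw [hζdef]; field_simp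
  have hζ1 : ζ ≤ 1 := by nlinarith
  have hζinv : 1 / ζ = 12 * K := by rw [hζdef]; field_simp
  obtain ⟨n, hn⟩ := exists_nat_ge (12 * K + 1)
  have hn0 : (0 : ℝ) < n := by linarith
  have hnpos : 0 < n := by exact_mod_cast hn0
  have hd9' : 9 ≤ d := by exact_mod_cast hd9
  obtain ⟨N, hN⟩ : ∃ N : ℕ, N = d * n := ⟨_, rfl⟩
  obtain ⟨n', hn'⟩ : ∃ n' : ℕ, n' = N - n - n := ⟨_, rfl⟩
  have hNR : (N : ℝ) = d * n := by rw [hN]; push_cast; rfl
  have hNge : 9 * n ≤ N := by rw [hN]; exact Nat.mul_le_mul_right n hd9'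
  have hn'add : n' + n + n = N := by omega
  have hn'R : (n' : ℝ) = (d - 2) * n := by
    have : (n' : ℝ) + n + n = N := by exact_mod_cast hn'add
    rw [hNR] at this
    linarith
  have hn'pos : 0 < n' := by omega
  have hn'R0 : (0 : ℝ) < n' := by exact_mod_cast hn'pos
  have hNpos : 0 < N := by omega
  have hNR0 : (0 : ℝ) < N := by exact_mod_cast hNpos
  refine ⟨2 * K, 1 / ((d : ℝ) - 3), ζ ^ 2 / 32, ⌈128 * (n' : ℝ) / ζ ^ 2⌉₊ + 1, by linarith, ?_, by
    positivity, by positivity, ?_⟩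
  · apply div_pos one_pos; linarith
  intro m hm Δ hΔ V _ _ G _ hdeg hdens
  have hm1 : 128 * (n' : ℝ) / ζ ^ 2 ≤ m := by
    have h1 := Nat.le_ceil (128 * (n' : ℝ) / ζ ^ 2)
    have h2 : ((⌈128 * (n' : ℝ) / ζ ^ 2⌉₊ + 1 : ℕ) : ℝ) ≤ m := by exact_mod_cast hm
    push_cast at h2
    linarith
  have hm0 : (0 : ℝ) < m := by
    have : 0 < m := by omega
    exact_mod_cast this
  obtain ⟨M, hM⟩ : ∃ M : ℝ, M = m * ((d : ℝ) - 3) / d := ⟨_, rfl⟩
  have hd3 : (0 : ℝ) < d - 3 := by linarith
  have hd0 : (0 : ℝ) < d := by linarith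
  have hM0 : 0 < M := by rw [hM]; positivity
  have hNM : N * M = m * ((d : ℝ) - 3) * n := by rw [hM, hNR]; field_simp
  have hNM0 : 0 < N * M := by positivity
  have hrho : N * M / n' = m * (((d : ℝ) - 3) / (d - 2)) := by
    have : (d : ℝ) - 2 ≠ 0 := by linarith
    rw [hNM, hn'R]; field_simp
  have hrhole : N * M / n' ≤ m := by
    rw [hrho]
    have : ((d : ℝ) - 3) / (d - 2) ≤ 1 := by
      rw [div_le_one (by linarith)]; linarith
    nlinarith
  have hMd : (1 - ε) * m ≤ (1 - ε / 2) * M := by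
    have h1 : 6 ≤ ε * ((d : ℝ) - 3) := by
      have h2 : 6 / ε ≤ (d : ℝ) - 3 := by linarith
      rw [div_le_iff₀ hε] at h2
      linarith
    rw [hM, mul_div_assoc', le_div_iff₀ hd0]
    have h3 : (1 - ε) * (d : ℝ) ≤ (1 - ε / 2) * (d - 3) := by nlinarith
    nlinarith
  obtain ⟨τ, F, S, hF1, hFK, hS0, hFA, hSsum, hFsum⟩ := fluid G N hNpos K M (ε / 2) (by linarith)
    hM0 (by linarith) (by linarith) (by
      intro S
      refine (hdens S).trans ?_
      exact mul_le_mul_of_nonneg_right hMd (Nat.cast_nonneg _))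
  -- the sum of `F` over a window
  have hK3N : 3 * K ≤ N := by
    rw [hNR]
    nlinarith
  have hsum : ∀ v, ∑ T ∈ Ico (τ v) (τ v + N), F v T ≤ K * n := by
    intro v
    refine (hFsum v).trans ?_
    have h1 : 3 * K / N ≤ 1 := by rw [div_le_one hNR0]; exact hK3N
    have h2 : K / N ≤ 1 := by rw [div_le_one hNR0]; linarith
    have h3 : (1 + 3 * K / N) / (ε / 2) ≤ 2 / (ε / 2) := by
      apply div_le_div_of_nonneg_right _ (by linarith)
      linarith
    have h4 : (2 : ℝ) / (ε / 2) = 4 / ε := by field_simp; norm_num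
    have h5 : (1 : ℝ) ≤ 1 / ε := by rw [le_div_iff₀ hε]; linarith
    have h6 : (1 + 3 * K / N) / (ε / 2) + K / N ≤ 10 / ε := by
      have : (10 : ℝ) / ε = 4 / ε + 6 * (1 / ε) := by ring
      rw [this]
      linarith
    have h7 : K * n = 10 / ε * N := by rw [hKdef, hNR]; ring
    rw [h7]
    exact mul_le_mul_of_nonneg_right h6 hNR0.le
  have hslots := fun v => Ord.slots G N hNpos M hM0 τ F K n ζ hζ0 hF1 (fun v T h => (hFA v T h).1)
    hsum (by linarith) (by rw [hζinv]; linarith) v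
  choose a0 ha0 using hslots
  obtain ⟨a, ha⟩ : ∃ a : V → Fin n' → ℕ, ∀ v, Function.Injective (a v) ∧ ∀ x,
      a v x ∈ Ico (τ v) (τ v + N) ∧ F v (a v x) < K ∧
      (Ord.nn G N τ v (a v x) : ℝ) ≤ ζ * (N * M) := by
    rw [hn']
    exact ⟨a0, ha0⟩
  have hAA0 : ∀ v T, 0 ≤ AA G N M τ v T := by
    intro v T
    rw [AA]
    apply mul_nonneg (by positivity)
    exact sum_nonneg (fun _ _ => Nat.cast_nonneg _)
  obtain ⟨g, hg⟩ : ∃ g : Bool → V → ℕ → ℝ, (∀ u T, g true u T = 1) ∧
    (∀ u T, g false u T = F u T / K) := ⟨fun b u T => if b then 1 else F u T / K, by simp, by simp⟩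
  obtain ⟨H, hH⟩ : ∃ H : Bool → V → ℕ → ℝ, (∀ u T, H true u T = AA G N M τ u T) ∧
    (∀ u T, H false u T = S u T / K) := ⟨fun b u T => if b then AA G N M τ u T else S u T / K,
      by simp, by simp⟩
  have hg0 : ∀ b u T, 0 ≤ g b u T := by
    intro b u T
    cases b
    · rw [hg.2]; apply div_nonneg (by linarith [hF1 u T]) (by linarith)
    · rw [hg.1]; norm_num
  have hg1 : ∀ b u T, g b u T ≤ 1 := by
    intro b u T
    cases b
    · rw [hg.2, div_le_one (by linarith)]; exact hFK u T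
    · rw [hg.1]
  have hgH : ∀ b v T, ∑ u ∈ univ.filter (fun u => G.Adj u v),
        ∑ T' ∈ (Ico (τ u) (τ u + N)).filter (fun T' => T' < T), g b u T' ≤ N * M * H b v T := by
    intro b v T
    cases b
    · rw [hH.2]
      have h1 := hSsum v T
      rw [one_div, inv_mul_eq_div, div_le_iff₀ hNM0] at h1
      have h2 : ∑ u ∈ univ.filter (fun u => G.Adj u v),
        ∑ T' ∈ (Ico (τ u) (τ u + N)).filter (fun T' => T' < T), g false u T' =
        (∑ u ∈ univ.filter (fun u => G.Adj u v),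
        ∑ T' ∈ (Ico (τ u) (τ u + N)).filter (fun T' => T' < T), F u T') / K := by
        simp only [hg.2, sum_div]
      rw [h2, mul_div_assoc', div_le_div_iff_of_pos_right (by linarith)]
      linarith
    · rw [hH.1, AA]
      simp only [hg.1, sum_const, nsmul_eq_mul, mul_one]
      rw [one_div, mul_inv_cancel_left₀ hNM0.ne']
  have hprob := Ord.prob G n' hn'pos ζ hζ0 hζ1 m Δ hm1 hΔ hdeg
    (fun v x b u y => if a u y ≤ a v x then g b u (a u y) else 0)
    (by
      intro v x b u y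
      split_ifs
      · exact hg0 _ _ _
      · exact le_rfl)
    (by
      intro v x b u y
      split_ifs
      · exact hg1 _ _ _
      · exact zero_le_one)
    (fun v x b => N * M / n' * (H b v (a v x) + ζ))
    (by
      intro v x b
      have h1 : H b v (a v x) ≤ 1 := by
        have h2 := hFA v (a v x) ((ha v).2 x).2.1
        cases b
        · rw [hH.2, div_le_one (by linarith)]
          have h3 := hAA0 v (a v x)
          have h4 := hFK v (a v x)
          have h5 := hF1 v (a v x)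
          nlinarith
        · rw [hH.1]
          exact h2.1.le
      have h2 : 0 ≤ H b v (a v x) := by
        cases b
        · rw [hH.2]; exact div_nonneg (hS0 _ _) (by linarith)
        · rw [hH.1]; exact hAA0 _ _
      calc N * M / n' * (H b v (a v x) + ζ) ≤ m * 2 := by
            apply mul_le_mul hrhole (by linarith) (by linarith) hm0.le
        _ = 2 * m := by ring)
    (by
      intro v x b
      have h1 := Ord.mean G N τ v a (fun u => (ha u).1) (fun u y => ((ha u).2 y).1) (a v x)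
        (g b) (hg0 b) 1 (hg1 b)
      rw [← sum_div, div_mul_eq_mul_div, div_le_div_iff_of_pos_right hn'R0]
      refine h1.trans ?_
      have h2 := hgH b v (a v x)
      have h3 := ((ha v).2 x).2.2
      linarith)
  obtain ⟨ω, hω⟩ := hprob
  -- the order
  obtain ⟨ord, hord⟩ : ∃ ord : V → ℕ, ∀ v, ord v = a v (ω v) * (Fintype.card V + 1) +
      (Fintype.equivFin V v : ℕ) := ⟨fun v => _, fun v => rfl⟩
  have hidx : ∀ v, (Fintype.equivFin V v : ℕ) < Fintype.card V + 1 := fun v =>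
    Nat.lt_succ_of_lt (Fintype.equivFin V v).2
  have hordinj : Function.Injective ord := by
    intro u v huv
    rw [hord, hord] at huv
    have h1 : (Fintype.equivFin V u : ℕ) = (Fintype.equivFin V v : ℕ) := by
      have h2 : (a u (ω u) * (Fintype.card V + 1) + (Fintype.equivFin V u : ℕ)) %
          (Fintype.card V + 1) = (a v (ω v) * (Fintype.card V + 1) +
          (Fintype.equivFin V v : ℕ)) % (Fintype.card V + 1) := by rw [huv]
      rw [Nat.mul_add_mod_of_lt (hidx u) , Nat.mul_add_mod_of_lt (hidx v)] at h2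
      exact h2
    exact (Fintype.equivFin V).injective (Fin.ext h1)
  have hordlt : ∀ u v, ord u < ord v → a u (ω u) ≤ a v (ω v) := by
    intro u v huv
    by_contra hcon
    push Not at hcon
    rw [hord, hord] at huv
    have h1 : (a v (ω v) + 1) * (Fintype.card V + 1) ≤ a u (ω u) * (Fintype.card V + 1) :=
      Nat.mul_le_mul_right _ hcon
    have h2 := hidx v
    have h3 : (a v (ω v) + 1) * (Fintype.card V + 1) =
      a v (ω v) * (Fintype.card V + 1) + (Fintype.card V + 1) := by ring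
    omega
  refine ⟨ord, fun v => 2 * F v (a v (ω v)), hordinj, ?_, ?_, ?_⟩
  · intro v
    linarith [hF1 v (a v (ω v))]
  · intro v
    linarith [hFK v (a v (ω v))]
  intro v
  have hpre : ∀ b, ∑ u ∈ pre G ord v, g b u (a u (ω u)) ≤
      N * M / n' * (H b v (a v (ω v)) + ζ) + ζ * m := by
    intro b
    refine le_trans ?_ (hω v (ω v) b).le
    rw [← sum_filter]
    apply sum_le_sum_of_subset_of_nonneg
    · intro u hu
      rw [pre, mem_filter] at hu
      rw [mem_filter, mem_filter]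
      exact ⟨⟨mem_univ _, hu.2.1⟩, hordlt u v hu.2.2⟩
    · intro u _ _
      exact hg0 _ _ _
  have hp := hpre true
  have hs := hpre false
  simp only [hg.1, hg.2, hH.1, hH.2, hrho, sum_const, nsmul_eq_mul, mul_one] at hp hs
  rw [← sum_div, div_le_iff₀ (by linarith)] at hs
  have hK0 : 0 < K := by linarith
  have hs' : ∑ u ∈ pre G ord v, F u (a u (ω u)) ≤
      m * (((d : ℝ) - 3) / (d - 2)) * (S v (a v (ω v)) + K * ζ) + K * ζ * m := by
    refine hs.trans (le_of_eq ?_)
    field_simp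
  have hFAv := hFA v (a v (ω v)) ((ha v).2 (ω v)).2.1
  have hfin := Ord.final_ineq d m K ζ (AA G N M τ v (a v (ω v))) (S v (a v (ω v)))
    (F v (a v (ω v))) ((pre G ord v).card : ℝ) (∑ u ∈ pre G ord v, F u (a u (ω u)))
    (by linarith) hm0 hK0 hζK hζ0 (hAA0 _ _) (hS0 _ _) (hF1 _ _) (hFK _ _) hFAv.2 hp hs'
  rw [← mul_sum]
  exact hfin

end Pool.Agent.Helper34.AE
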