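import Pool.Agent.Helper34.AE.ProcB
import Pool.Agent.Helper34.AE.Order
import Pool.Agent.Helper34.CP.Main

set_option autoImplicit false

namespace Pool.Agent.Helper34.AE

open Finset Pool.Agent.Helper34.CP

/-! ## final -/
theorem subexp_degree (ε : ℝ) (hε : 0 < ε) :
    ∃ (c : ℝ) (m₀ : ℕ), 0 < c ∧ ∀ (k Δ m : ℕ), m₀ ≤ m → (1 + ε) * (k : ℝ) ≤ (m : ℝ) →
      (Δ : ℝ) ≤ Real.exp (c * m) →
      ∀ (V : Type) [Fintype V] [DecidableEq V] (G : SimpleGraph V) [DecidableRel G.Adj],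
        (∀ v, G.degree v ≤ Δ) →
        (∀ S : Finset V, S.Nonempty →
          ((S ×ˢ S).filter (fun p => G.Adj p.1 p.2)).card < k * S.card) →
        ∀ σ : V → V → Equiv.Perm (Fin m),
          (∀ u v, G.Adj u v → σ v u = (σ u v).symm) →
          ∃ c : Fin m → V → Fin m,
            (∀ v, Function.Injective (fun i => c i v)) ∧
            ∀ i u v, G.Adj u v → c i v ≠ σ u v (c i u) := by
  -- reduce to `ε ≤ 1`
  obtain ⟨e, he⟩ : ∃ e : ℝ, e = ε / (1 + ε) := ⟨_, rfl⟩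
  have he0 : 0 < e := by rw [he]; positivity
  have he1 : e ≤ 1 := by rw [he, div_le_one (by linarith)]; linarith
  obtain ⟨K', γ, c1, m1, hK', hγ, hc1, hm1, ho⟩ := order_theorem e he0 he1
  obtain ⟨c2, m2, hc2, hm2, hp⟩ := process K' γ hK' hγ
  refine ⟨min c1 c2, max m1 m2, lt_min hc1 hc2, ?_⟩
  intro k Δ m hm hkm hΔ V _ _ G _ hdeg hmad σ hσ
  apply CP.to_colourings
  have hmm1 : m1 ≤ m := (le_max_left _ _).trans hm
  have hmm2 : m2 ≤ m := (le_max_right _ _).trans hm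
  have hm0 : (0 : ℝ) ≤ m := Nat.cast_nonneg _
  have hΔ1 : (Δ : ℝ) ≤ Real.exp (c1 * m) :=
    hΔ.trans (Real.exp_le_exp.2 (mul_le_mul_of_nonneg_right (min_le_left _ _) hm0))
  have hΔ2 : (Δ : ℝ) ≤ Real.exp (c2 * m) :=
    hΔ.trans (Real.exp_le_exp.2 (mul_le_mul_of_nonneg_right (min_le_right _ _) hm0))
  have hkk : (k : ℝ) ≤ (1 - e) * m := by
    have : (1 - e) = 1 / (1 + ε) := by rw [he]; field_simp; ring
    rw [this, one_div, inv_mul_eq_div, le_div_iff₀ (by linarith)]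
    linarith
  obtain ⟨ord, J, hinj, hJ1, hJK, hJ⟩ := ho m hmm1 Δ hΔ1 V G hdeg (by
    intro S
    rcases S.eq_empty_or_nonempty with h | h
    · rw [h]; simp
    · have h1 := hmad S h
      have h2 : (((S ×ˢ S).filter (fun p => G.Adj p.1 p.2)).card : ℝ) ≤ k * S.card := by
        exact_mod_cast h1.le
      exact h2.trans (mul_le_mul_of_nonneg_right hkk (Nat.cast_nonneg _)))
  exact hp m hmm2 Δ hΔ2 V G hdeg ord J hinj hJ1 hJK hJ σ hσ

end Pool.Agent.Helper34.AE
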