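import Mathlib

set_option autoImplicit false

namespace Pool.Agent.Helper34.AE

open Finset

/-! ## FL: fluid order -/
noncomputable def AA {V : Type} [Fintype V] (G : SimpleGraph V) [DecidableRel G.Adj] (N : ℕ) (M : ℝ)
    (τ : V → ℕ) (v : V) (T : ℕ) : ℝ :=
  1 / (N * M) * ∑ u ∈ univ.filter (fun u => G.Adj u v),
    (((Ico (τ u) (τ u + N)).filter (fun T' => T' < T)).card : ℝ)

namespace Fluid

section defs

variable {V : Type} [Fintype V] (G : SimpleGraph V) [DecidableRel G.Adj] (N : ℕ) (K M c : ℝ)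

/-- the fluid, by strong recursion on the time -/
noncomputable def FF (τ : V → ℕ) (T : ℕ) (v : V) : ℝ :=
  if AA G N M τ v T < 1 then
    min K ((1 + 1 / (N * M) * ∑ u ∈ univ.filter (fun u => G.Adj u v),
      (if τ u + N ≤ T then c * N else
        min (c * N) (∑ T' : Fin T, if τ u ≤ T'.1 ∧ T'.1 < τ u + N then FF τ T'.1 u else 0)))
      / (1 - AA G N M τ v T))
  else K
termination_by T
decreasing_by exact T'.2

/-- sum over the beginning of the window -/
noncomputable def PS (τ : V → ℕ) (u : V) (T : ℕ) : ℝ :=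
  ∑ T' ∈ (Ico (τ u) (τ u + N)).filter (fun T' => T' < T), FF G N K M c τ T' u

noncomputable def gg (τ : V → ℕ) (u : V) (T : ℕ) : ℝ :=
  if τ u + N ≤ T then c * N else min (c * N) (PS G N K M c τ u T)

noncomputable def SS (τ : V → ℕ) (v : V) (T : ℕ) : ℝ :=
  1 / (N * M) * ∑ u ∈ univ.filter (fun u => G.Adj u v), gg G N K M c τ u T

noncomputable def WS (τ : V → ℕ) (v : V) : ℝ :=
  ∑ T ∈ Ico (τ v) (τ v + N), FF G N K M c τ T v

lemma FF_eq (τ : V → ℕ) (T : ℕ) (v : V) :
    FF G N K M c τ T v = if AA G N M τ v T < 1 then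
      min K ((1 + SS G N K M c τ v T) / (1 - AA G N M τ v T)) else K := by
  have key : ∀ u, (∑ T' : Fin T, if τ u ≤ T'.1 ∧ T'.1 < τ u + N then FF G N K M c τ T'.1 u else 0)
      = PS G N K M c τ u T := by
    intro u
    rw [Fin.sum_univ_eq_sum_range
      (fun T' => if τ u ≤ T' ∧ T' < τ u + N then FF G N K M c τ T' u else 0) T,
      ← Finset.sum_filter]
    unfold PS
    apply Finset.sum_congr _ (fun _ _ => rfl)
    ext x
    simp only [mem_filter, mem_range, mem_Ico]
    tauto
  rw [FF]
  simp only [key]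
  rfl

end defs

section facts

variable {V : Type} [Fintype V] (G : SimpleGraph V) [DecidableRel G.Adj] (N : ℕ) (K M : ℝ)
  (hK : 1 ≤ K) (hM : 0 < M)

lemma FF_le (c : ℝ) (τ : V → ℕ) (T : ℕ) (v : V) : FF G N K M c τ T v ≤ K := by
  rw [FF_eq]
  split_ifs
  · exact min_le_left _ _
  · exact le_refl _

include hM in
lemma AA_nonneg (τ : V → ℕ) (v : V) (T : ℕ) : 0 ≤ AA G N M τ v T := by
  unfold AA
  positivity

include hM in
lemma AA_anti (τ τ' : V → ℕ) (h : ∀ v, τ v ≤ τ' v) (v : V) (T : ℕ) :
    AA G N M τ' v T ≤ AA G N M τ v T := by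
  unfold AA
  apply mul_le_mul_of_nonneg_left _ (by positivity)
  apply Finset.sum_le_sum
  intro u _
  have h1 : ∀ a : ℕ, (Ico a (a + N)).filter (fun T' => T' < T) = Ico a (min (a + N) T) := by
    intro a
    ext x
    simp only [mem_filter, mem_Ico, lt_min_iff]
    tauto
  rw [h1, h1, Nat.card_Ico, Nat.card_Ico]
  have := h u
  norm_cast
  omega

include hK hM in
lemma FF_one_le (c : ℝ) (hc : 0 ≤ c) (τ : V → ℕ) (T : ℕ) :
    ∀ v, 1 ≤ FF G N K M c τ T v := by
  induction T using Nat.strong_induction_on with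
  | _ T ih =>
    intro v
    rw [FF_eq]
    split_ifs with hA
    · apply le_min hK
      rw [le_div_iff₀ (by linarith)]
      have h1 := AA_nonneg G N M hM τ v T
      have h2 : 0 ≤ SS G N K M c τ v T := by
        unfold SS
        apply mul_nonneg (by positivity)
        apply Finset.sum_nonneg
        intro u _
        unfold gg
        split_ifs
        · positivity
        · apply le_min (by positivity)
          unfold PS
          apply Finset.sum_nonneg
          intro x hx
          have := ih x (mem_filter.1 hx).2 u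
          linarith
      linarith
    · exact hK

include hK hM in
lemma PS_nonneg (c : ℝ) (hc : 0 ≤ c) (τ : V → ℕ) (u : V) (T : ℕ) : 0 ≤ PS G N K M c τ u T := by
  unfold PS
  apply Finset.sum_nonneg
  intro x _
  have := FF_one_le G N K M hK hM c hc τ x u
  linarith

include hK hM in
lemma gg_nonneg (c : ℝ) (hc : 0 ≤ c) (τ : V → ℕ) (u : V) (T : ℕ) : 0 ≤ gg G N K M c τ u T := by
  unfold gg
  split_ifs
  · positivity
  · exact le_min (by positivity) (PS_nonneg G N K M hK hM c hc τ u T)

include hK hM in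
lemma SS_nonneg (c : ℝ) (hc : 0 ≤ c) (τ : V → ℕ) (v : V) (T : ℕ) : 0 ≤ SS G N K M c τ v T := by
  unfold SS
  apply mul_nonneg (by positivity)
  exact Finset.sum_nonneg (fun u _ => gg_nonneg G N K M hK hM c hc τ u T)

include hK hM in
lemma FF_mono (c c' : ℝ) (hc : 0 ≤ c) (hcc : c ≤ c') (τ τ' : V → ℕ) (h : ∀ v, τ v ≤ τ' v)
    (T : ℕ) : ∀ v, FF G N K M c τ' T v ≤ FF G N K M c' τ T v := by
  induction T using Nat.strong_induction_on with
  | _ T ih =>
    intro v
    by_cases hA : AA G N M τ v T < 1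
    · have hA' : AA G N M τ' v T < 1 := (AA_anti G N M hM τ τ' h v T).trans_lt hA
      rw [FF_eq, FF_eq, if_pos hA, if_pos hA']
      apply min_le_min (le_refl _)
      have hS' := SS_nonneg G N K M hK hM c hc τ' v T
      have hS : SS G N K M c τ' v T ≤ SS G N K M c' τ v T := by
        unfold SS
        apply mul_le_mul_of_nonneg_left _ (by positivity)
        apply Finset.sum_le_sum
        intro u _
        have hcN : c * N ≤ c' * N := mul_le_mul_of_nonneg_right hcc (Nat.cast_nonneg _)
        unfold gg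
        by_cases h1 : τ u + N ≤ T
        · rw [if_pos h1]
          split_ifs
          · exact hcN
          · exact (min_le_left _ _).trans hcN
        · have h2 : ¬ (τ' u + N ≤ T) := by have := h u; omega
          rw [if_neg h1, if_neg h2]
          apply min_le_min hcN
          unfold PS
          calc _ ≤ ∑ T' ∈ (Ico (τ' u) (τ' u + N)).filter (fun T' => T' < T),
                FF G N K M c' τ T' u :=
                Finset.sum_le_sum (fun x hx => ih x (mem_filter.1 hx).2 u)
            _ ≤ _ := by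
                apply Finset.sum_le_sum_of_subset_of_nonneg
                · intro x hx
                  simp only [mem_filter, mem_Ico] at hx ⊢
                  have := h u
                  omega
                · intro x _ _
                  have := FF_one_le G N K M hK hM c' (hc.trans hcc) τ x u
                  linarith
      apply div_le_div₀ (by linarith) (by linarith) (by linarith)
      have := AA_anti G N M hM τ τ' h v T
      linarith
    · rw [FF_eq G N K M c' τ T v, if_neg hA]
      exact FF_le G N K M c τ' T v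

/-- the defining inequality -/
lemma FF_ineq (c : ℝ) (hK : 1 ≤ K) (hM : 0 < M) (hc : 0 ≤ c) (τ : V → ℕ) (T : ℕ) (v : V) :
    FF G N K M c τ T v * (1 - AA G N M τ v T) ≤ 1 + SS G N K M c τ v T := by
  have hS := SS_nonneg G N K M hK hM c hc τ v T
  by_cases hA : AA G N M τ v T < 1
  · rw [FF_eq, if_pos hA]
    have : 0 < 1 - AA G N M τ v T := by linarith
    rw [← le_div_iff₀ this]
    exact min_le_right _ _
  · have h1 := FF_one_le G N K M hK hM c hc τ T v
    have h2 : 0 ≤ FF G N K M c τ T v := by linarith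
    have h3 : 1 - AA G N M τ v T ≤ 0 := by linarith
    have := mul_nonpos_of_nonneg_of_nonpos h2 h3
    linarith

/-- bracket of an ordered pair -/
lemma pair_bound (c : ℝ) (hK : 1 ≤ K) (hM : 0 < M) (hc : 0 ≤ c) (τ : V → ℕ) (u v : V)
    (hu : c * N ≤ WS G N K M c τ u + K) :
    ∑ T ∈ Ico (τ v) (τ v + N), gg G N K M c τ u T +
      ∑ T' ∈ Ico (τ u) (τ u + N), FF G N K M c τ T' u *
        (((Ico (τ v) (τ v + N)).filter (fun T => T < T')).card : ℝ) ≤
      N * (WS G N K M c τ u + K) := by
  have hF : ∀ T, 0 ≤ FF G N K M c τ T u := fun T => by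
    have := FF_one_le G N K M hK hM c hc τ T u
    linarith
  have h1 : ∀ T, gg G N K M c τ u T ≤
      K + ∑ T' ∈ Ico (τ u) (τ u + N), (if T' < T then FF G N K M c τ T' u else 0) := by
    intro T
    rw [← Finset.sum_filter]
    unfold gg
    split_ifs with h
    · have : (Ico (τ u) (τ u + N)).filter (fun T' => T' < T) = Ico (τ u) (τ u + N) := by
        apply Finset.filter_true_of_mem
        intro x hx
        rw [mem_Ico] at hx
        omega
      rw [this]
      change _ ≤ K + WS G N K M c τ u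
      linarith
    · refine (min_le_right _ _).trans ?_
      change PS G N K M c τ u T ≤ K + PS G N K M c τ u T
      linarith
  have h2 : ∑ T' ∈ Ico (τ u) (τ u + N), FF G N K M c τ T' u *
        (((Ico (τ v) (τ v + N)).filter (fun T => T < T')).card : ℝ) =
      ∑ T ∈ Ico (τ v) (τ v + N), ∑ T' ∈ Ico (τ u) (τ u + N),
        (if T < T' then FF G N K M c τ T' u else 0) := by
    rw [Finset.sum_comm]
    apply Finset.sum_congr rfl
    intro T' _
    rw [← Finset.sum_filter, Finset.sum_const, nsmul_eq_mul, mul_comm]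
  rw [h2, ← Finset.sum_add_distrib]
  calc _ ≤ ∑ T ∈ Ico (τ v) (τ v + N), (WS G N K M c τ u + K) := by
        apply Finset.sum_le_sum
        intro T _
        have h3 : ∑ T' ∈ Ico (τ u) (τ u + N), (if T' < T then FF G N K M c τ T' u else 0) +
            ∑ T' ∈ Ico (τ u) (τ u + N), (if T < T' then FF G N K M c τ T' u else 0) ≤
            WS G N K M c τ u := by
          unfold WS
          rw [← Finset.sum_add_distrib]
          apply Finset.sum_le_sum
          intro T' _
          have := hF T'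
          split_ifs <;> first | omega | linarith
        have := h1 T
        linarith
    _ = _ := by
        rw [Finset.sum_const, Nat.card_Ico, nsmul_eq_mul]
        congr 2
        omega

/-- the counting argument -/
lemma count (c c2 ε' : ℝ) (hN : 0 < N) (hK : 1 ≤ K) (hM : 0 < M) (hc : 0 ≤ c) (τ : V → ℕ)
    (Z : Finset V)
    (hdens : (((Z ×ˢ Z).filter (fun p => G.Adj p.1 p.2)).card : ℝ) ≤ (1 - ε') * M * Z.card)
    (hout : ∀ v ∈ Z, ∀ u, u ∉ Z → τ v + N ≤ τ u)
    (hlo : ∀ u ∈ Z, c * N ≤ WS G N K M c τ u + K)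
    (hhi : ∀ u ∈ Z, WS G N K M c τ u ≤ c2 * N) (hc2 : 0 ≤ c2) :
    (c * N - K) * Z.card ≤ N * Z.card + (c2 * N + K) * ((1 - ε') * Z.card) := by
  classical
  have hN' : (0 : ℝ) < N := Nat.cast_pos.2 hN
  have hNM : (0 : ℝ) < N * M := by positivity
  -- rewriting of the sums over neighbours
  have hS : ∀ v ∈ Z, ∀ T ∈ Ico (τ v) (τ v + N), SS G N K M c τ v T =
      1 / (N * M) * ∑ u ∈ Z, (if G.Adj u v then gg G N K M c τ u T else 0) := by
    intro v hv T hT
    rw [mem_Ico] at hT
    unfold SS
    congr 1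
    rw [Finset.sum_filter]
    symm
    apply Finset.sum_subset (Finset.subset_univ _)
    intro u _ hu
    have h1 := hout v hv u hu
    have h2 : gg G N K M c τ u T = 0 := by
      unfold gg
      rw [if_neg (by omega)]
      have : PS G N K M c τ u T = 0 := by
        unfold PS
        apply Finset.sum_eq_zero
        intro x hx
        simp only [mem_filter, mem_Ico] at hx
        omega
      rw [this]
      apply min_eq_right
      positivity
    rw [h2]
    simp
  have hA : ∀ v ∈ Z, ∀ T ∈ Ico (τ v) (τ v + N), AA G N M τ v T =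
      1 / (N * M) * ∑ u ∈ Z, (if G.Adj u v then
        (((Ico (τ u) (τ u + N)).filter (fun T' => T' < T)).card : ℝ) else 0) := by
    intro v hv T hT
    rw [mem_Ico] at hT
    unfold AA
    congr 1
    rw [Finset.sum_filter]
    symm
    apply Finset.sum_subset (Finset.subset_univ _)
    intro u _ hu
    have h1 := hout v hv u hu
    have h2 : (Ico (τ u) (τ u + N)).filter (fun T' => T' < T) = ∅ := by
      apply Finset.filter_false_of_mem
      intro x hx
      rw [mem_Ico] at hx
      omega
    rw [h2]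
    simp
  have h1 : ∑ v ∈ Z, WS G N K M c τ v ≤ ∑ v ∈ Z, ∑ T ∈ Ico (τ v) (τ v + N),
      (1 + SS G N K M c τ v T + FF G N K M c τ T v * AA G N M τ v T) := by
    apply Finset.sum_le_sum
    intro v _
    unfold WS
    apply Finset.sum_le_sum
    intro T _
    have := FF_ineq G N K M c hK hM hc τ T v
    linarith
  have h2 : ∑ v ∈ Z, ∑ T ∈ Ico (τ v) (τ v + N), (1 : ℝ) = N * Z.card := by
    simp [Finset.sum_const, Nat.card_Ico, mul_comm]
  have h3 : ∑ v ∈ Z, ∑ T ∈ Ico (τ v) (τ v + N), SS G N K M c τ v T =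
      1 / (N * M) * ∑ v ∈ Z, ∑ u ∈ Z, (if G.Adj u v then
        ∑ T ∈ Ico (τ v) (τ v + N), gg G N K M c τ u T else 0) := by
    rw [Finset.mul_sum]
    apply Finset.sum_congr rfl
    intro v hv
    rw [Finset.sum_congr rfl (hS v hv), ← Finset.mul_sum, Finset.sum_comm]
    congr 1
    apply Finset.sum_congr rfl
    intro u _
    split_ifs
    · rfl
    · simp
  have h4 : ∑ v ∈ Z, ∑ T ∈ Ico (τ v) (τ v + N), FF G N K M c τ T v * AA G N M τ v T =
      1 / (N * M) * ∑ v ∈ Z, ∑ u ∈ Z, (if G.Adj u v then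
        ∑ T' ∈ Ico (τ u) (τ u + N), FF G N K M c τ T' u *
        (((Ico (τ v) (τ v + N)).filter (fun T => T < T')).card : ℝ) else 0) := by
    have h5 : ∑ v ∈ Z, ∑ T ∈ Ico (τ v) (τ v + N), FF G N K M c τ T v * AA G N M τ v T =
      1 / (N * M) * ∑ v ∈ Z, ∑ u ∈ Z, (if G.Adj u v then
        ∑ T ∈ Ico (τ v) (τ v + N), FF G N K M c τ T v *
        (((Ico (τ u) (τ u + N)).filter (fun T' => T' < T)).card : ℝ) else 0) := by
      rw [Finset.mul_sum]
      apply Finset.sum_congr rfl
      intro v hv
      have : ∀ T ∈ Ico (τ v) (τ v + N), FF G N K M c τ T v * AA G N M τ v T =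
          1 / (N * M) * ∑ u ∈ Z, (if G.Adj u v then FF G N K M c τ T v *
            (((Ico (τ u) (τ u + N)).filter (fun T' => T' < T)).card : ℝ) else 0) := by
        intro T hT
        rw [hA v hv T hT]
        rw [mul_left_comm, Finset.mul_sum]
        congr 1
        apply Finset.sum_congr rfl
        intro u _
        split_ifs <;> simp
      rw [Finset.sum_congr rfl this, ← Finset.mul_sum, Finset.sum_comm]
      congr 1
      apply Finset.sum_congr rfl
      intro u _
      split_ifs
      · rfl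
      · simp
    rw [h5, Finset.sum_comm]
    congr 1
    apply Finset.sum_congr rfl
    intro u _
    apply Finset.sum_congr rfl
    intro v _
    simp only [G.adj_comm v u]
  have h6 : ∑ v ∈ Z, (∑ T ∈ Ico (τ v) (τ v + N),
      (1 + SS G N K M c τ v T + FF G N K M c τ T v * AA G N M τ v T)) ≤
      N * Z.card + 1 / (N * M) * (((((Z ×ˢ Z).filter (fun p => G.Adj p.1 p.2)).card : ℝ)) *
        (N * (c2 * N + K))) := by
    simp only [Finset.sum_add_distrib]
    rw [h2, h3, h4, add_assoc, ← mul_add, ← Finset.sum_add_distrib]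
    apply add_le_add_right
    apply mul_le_mul_of_nonneg_left _ (by positivity)
    have h7 : (((((Z ×ˢ Z).filter (fun p => G.Adj p.1 p.2)).card : ℝ)) * (N * (c2 * N + K))) =
        ∑ v ∈ Z, ∑ u ∈ Z, (if G.Adj u v then (N * (c2 * N + K)) else 0) := by
      rw [Finset.sum_comm, ← Finset.sum_product' (s := Z) (t := Z)
        (f := fun u v => if G.Adj u v then ((N : ℝ) * (c2 * N + K)) else 0),
        ← Finset.sum_filter, Finset.sum_const, nsmul_eq_mul]
    rw [h7]
    apply Finset.sum_le_sum
    intro v _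
    rw [← Finset.sum_add_distrib]
    apply Finset.sum_le_sum
    intro u hu
    split_ifs
    · refine (pair_bound G N K M c hK hM hc τ u v (hlo u hu)).trans ?_
      apply mul_le_mul_of_nonneg_left _ hN'.le
      have := hhi u hu
      linarith
    · simp
  have h8 : (c * N - K) * Z.card ≤ ∑ v ∈ Z, WS G N K M c τ v := by
    rw [mul_comm, ← nsmul_eq_mul, ← Finset.sum_const]
    apply Finset.sum_le_sum
    intro v hv
    have := hlo v hv
    linarith
  have h9 : 1 / (N * M) * (((((Z ×ˢ Z).filter (fun p => G.Adj p.1 p.2)).card : ℝ)) *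
        (N * (c2 * N + K))) ≤ (c2 * N + K) * ((1 - ε') * Z.card) := by
    have hcK : 0 ≤ c2 * N + K := by positivity
    calc _ ≤ 1 / (N * M) * (((1 - ε') * M * Z.card) * (N * (c2 * N + K))) := by
          apply mul_le_mul_of_nonneg_left _ (by positivity)
          apply mul_le_mul_of_nonneg_right hdens (by positivity)
      _ = _ := by field_simp
  linarith

omit [Fintype V] in
lemma pigeon [Fintype V] (D : ℕ) (τ : V → ℕ) :
    ∃ i : ℕ, i ≤ Fintype.card V ∧ ∀ v, ¬ (D + i * (N + 1) < τ v ∧ τ v ≤ D + i * (N + 1) + N) := by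
  classical
  by_contra hcon
  push Not at hcon
  have h1 : ∀ i : Fin (Fintype.card V + 1), ∃ v, D + i.1 * (N + 1) < τ v ∧
      τ v ≤ D + i.1 * (N + 1) + N := fun i => hcon i.1 (by omega)
  choose f hf using h1
  have hinj : Function.Injective f := by
    have aux : ∀ i j : Fin (Fintype.card V + 1), i.1 < j.1 → f i ≠ f j := by
      intro i j hij h
      have a := hf i
      have b := hf j
      rw [← h] at b
      have : (i.1 + 1) * (N + 1) ≤ j.1 * (N + 1) := Nat.mul_le_mul_right _ hij
      rw [add_mul, one_mul] at this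
      omega
    intro i j h
    by_contra hne
    rcases lt_or_gt_of_ne (fun h' => hne (Fin.ext h')) with h' | h'
    · exact aux i j h' h
    · exact aux j i h' h.symm
  have := Fintype.card_le_of_injective f hinj
  rw [Fintype.card_fin] at this
  omega

lemma step [DecidableEq V] (c1 c2 ε' : ℝ) (hN : 0 < N) (hK : 1 ≤ K) (hM : 0 < M)
    (hε : 0 < ε')
    (hdens : ∀ S : Finset V, (((S ×ˢ S).filter (fun p => G.Adj p.1 p.2)).card : ℝ) ≤
      (1 - ε') * M * S.card)
    (hc : c2 = c1 + K / N) (hbig : (1 + 3 * K / N) / ε' < c1)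
    (τ₂ : V → ℕ) (h2 : ∀ v, WS G N K M c2 τ₂ v ≤ c2 * N) :
    ∃ τ : V → ℕ, ∀ v, WS G N K M c1 τ v ≤ c1 * N := by
  classical
  have hN' : (0 : ℝ) < N := Nat.cast_pos.2 hN
  have hc1 : 0 ≤ c1 := by
    have : 0 < (1 + 3 * K / N) / ε' := by positivity
    linarith
  have hKN : 0 ≤ K / N := by positivity
  have hc12 : c1 ≤ c2 := by linarith
  by_contra hcon
  push Not at hcon
  obtain ⟨D, hD⟩ : ∃ D : ℕ, ∀ v, τ₂ v ≤ D :=
    ⟨univ.sup τ₂, fun v => Finset.le_sup (Finset.mem_univ v)⟩
  obtain ⟨B, hB⟩ : ∃ B : ℕ, B = D + (Fintype.card V + 1) * (N + 1) := ⟨_, rfl⟩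
  let Semi : (V → ℕ) → Prop := fun τ => ∀ v, τ₂ v < τ v → WS G N K M c1 τ v ≤ c1 * N
  let Box : Finset (V → ℕ) := Fintype.piFinset (fun v => Icc (τ₂ v) (τ₂ v + B))
  have hne : (Box.filter Semi).Nonempty := by
    refine ⟨τ₂, ?_⟩
    rw [mem_filter]
    constructor
    · rw [Fintype.mem_piFinset]
      intro v
      rw [mem_Icc]
      omega
    · intro v hv
      omega
  obtain ⟨τ, hτ, hmax⟩ := Finset.exists_max_image (Box.filter Semi) (fun τ => ∑ v, τ v) hne
  rw [mem_filter] at hτ
  obtain ⟨hτB, hτS⟩ := hτ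
  have hτB' : ∀ v, τ₂ v ≤ τ v ∧ τ v ≤ τ₂ v + B := by
    intro v
    have := (Fintype.mem_piFinset.1 hτB) v
    rwa [mem_Icc] at this
  obtain ⟨v₀, hv₀⟩ := hcon τ
  have hv₀' : τ v₀ = τ₂ v₀ := by
    by_contra hne
    have h1 := hτB' v₀
    have := hτS v₀ (by omega)
    linarith
  -- (i)
  have hhi : ∀ v, WS G N K M c1 τ v ≤ c2 * N := by
    intro v
    by_cases h : τ₂ v < τ v
    · exact (hτS v h).trans (mul_le_mul_of_nonneg_right hc12 hN'.le)
    · have h1 := hτB' v
      have h3 : τ v = τ₂ v := by omega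
      refine le_trans ?_ (h2 v)
      unfold WS
      rw [h3]
      apply Finset.sum_le_sum
      intro T _
      exact FF_mono G N K M hK hM c1 c2 hc1 hc12 τ₂ τ (fun v => (hτB' v).1) T v
  -- (ii)
  have hlo : ∀ v, τ v < τ₂ v + B → c1 * N ≤ WS G N K M c1 τ v + K := by
    intro v hv
    let τ' : V → ℕ := Function.update τ v (τ v + 1)
    have hτ'v : τ' v = τ v + 1 := Function.update_self _ _ _
    have hτ'w : ∀ w, w ≠ v → τ' w = τ w := fun w hw => Function.update_of_ne hw _ _
    have hle : ∀ w, τ w ≤ τ' w := by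
      intro w
      by_cases h : w = v
      · subst h
        rw [hτ'v]
        omega
      · rw [hτ'w w h]
    have hbox : τ' ∈ Box := by
      rw [Fintype.mem_piFinset]
      intro w
      rw [mem_Icc]
      have h1 := hτB' w
      by_cases h : w = v
      · subst h
        rw [hτ'v]
        omega
      · rw [hτ'w w h]
        exact h1
    have hsum : ∑ w, τ w < ∑ w, τ' w :=
      Finset.sum_lt_sum (fun w _ => hle w) ⟨v, Finset.mem_univ _, by rw [hτ'v]; omega⟩
    have hns : ¬ Semi τ' := by
      intro hs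
      have := hmax τ' (mem_filter.2 ⟨hbox, hs⟩)
      omega
    have hns' : ∃ w, τ₂ w < τ' w ∧ c1 * N < WS G N K M c1 τ' w := by
      by_contra hh
      push Not at hh
      exact hns hh
    obtain ⟨w, hw1, hw2⟩ := hns'
    have hmono : ∀ T x, FF G N K M c1 τ' T x ≤ FF G N K M c1 τ T x := fun T x =>
      FF_mono G N K M hK hM c1 c1 hc1 (le_refl _) τ τ' hle T x
    by_cases h : w = v
    · subst h
      have h3 : WS G N K M c1 τ' w ≤ ∑ T ∈ Ico (τ w + 1) (τ w + 1 + N), FF G N K M c1 τ T w := by
        unfold WS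
        rw [hτ'v]
        exact Finset.sum_le_sum (fun T _ => hmono T w)
      have h4 : ∑ T ∈ Ico (τ w + 1) (τ w + 1 + N), FF G N K M c1 τ T w ≤
          WS G N K M c1 τ w + K := by
        have e1 : τ w + 1 + N = (τ w + N) + 1 := by omega
        have e2 : ∑ T ∈ Ico (τ w) (τ w + N + 1), FF G N K M c1 τ T w =
            FF G N K M c1 τ (τ w) w + ∑ T ∈ Ico (τ w + 1) (τ w + N + 1), FF G N K M c1 τ T w :=
          Finset.sum_eq_sum_Ico_succ_bot (by omega) _
        have e3 : ∑ T ∈ Ico (τ w) (τ w + N + 1), FF G N K M c1 τ T w =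
            WS G N K M c1 τ w + FF G N K M c1 τ (τ w + N) w :=
          Finset.sum_Ico_succ_top (by omega) _
        have e4 := FF_one_le G N K M hK hM c1 hc1 τ (τ w) w
        have e5 := FF_le G N K M c1 τ (τ w + N) w
        rw [e1]
        linarith
      linarith
    · exfalso
      have h3 : WS G N K M c1 τ' w ≤ WS G N K M c1 τ w := by
        unfold WS
        rw [hτ'w w h]
        exact Finset.sum_le_sum (fun T _ => hmono T w)
      rw [hτ'w w h] at hw1
      have := hτS w hw1
      linarith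
  -- (iii)
  obtain ⟨i, hi, hgap⟩ := pigeon N D τ
  obtain ⟨x, hx⟩ : ∃ x, x = D + i * (N + 1) := ⟨_, rfl⟩
  rw [← hx] at hgap
  have hxB : x < B := by
    rw [hx, hB]
    have : i * (N + 1) < (Fintype.card V + 1) * (N + 1) :=
      Nat.mul_lt_mul_of_pos_right (by omega) (by omega)
    omega
  obtain ⟨Z, hZ⟩ : ∃ Z : Finset V, Z = univ.filter (fun v => τ v ≤ x) := ⟨_, rfl⟩
  have hZm : ∀ v, v ∈ Z ↔ τ v ≤ x := by intro v; rw [hZ]; simp
  have hv₀Z : v₀ ∈ Z := by
    rw [hZm, hv₀', hx]
    have := hD v₀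
    omega
  have hZpos : (0 : ℝ) < Z.card := Nat.cast_pos.2 (Finset.card_pos.2 ⟨v₀, hv₀Z⟩)
  have hcount := count G N K M c1 c2 ε' hN hK hM hc1 τ Z (hdens Z)
    (by
      intro v hv u hu
      rw [hZm] at hv hu
      have := hgap u
      omega)
    (by
      intro u hu
      rw [hZm] at hu
      exact hlo u (by omega))
    (fun u _ => hhi u) (by linarith)
  have h5 : (c1 * N - K) ≤ N + (c2 * N + K) * (1 - ε') := by
    by_contra hh
    push Not at hh
    have := mul_lt_mul_of_pos_right hh hZpos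
    nlinarith
  have h6 : c2 * N = c1 * N + K := by
    rw [hc]
    field_simp
  rw [h6] at h5
  have h7 : 1 + 3 * K / N < c1 * ε' := by
    rwa [div_lt_iff₀ hε] at hbig
  have h8 : N + 3 * K < c1 * ε' * N := by
    have := mul_lt_mul_of_pos_right h7 hN'
    have e : (1 + 3 * K / N) * N = N + 3 * K := by field_simp
    linarith
  have h9 : 0 < K * ε' := by positivity
  nlinarith

lemma exists_valid [DecidableEq V] (ε' : ℝ) (hN : 0 < N) (hK : 1 ≤ K) (hM : 0 < M)
    (hε : 0 < ε')
    (hdens : ∀ S : Finset V, (((S ×ˢ S).filter (fun p => G.Adj p.1 p.2)).card : ℝ) ≤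
      (1 - ε') * M * S.card) :
    ∃ (c : ℝ) (τ : V → ℕ), 0 ≤ c ∧ c ≤ (1 + 3 * K / N) / ε' + K / N ∧
      ∀ v, WS G N K M c τ v ≤ c * N := by
  have hN' : (0 : ℝ) < N := Nat.cast_pos.2 hN
  have hbd : 0 < (1 + 3 * K / N) / ε' := by positivity
  have key : ∀ j : ℕ, (∃ (c : ℝ) (τ : V → ℕ), 0 ≤ c ∧ c ≤ K - j * (K / N) ∧
      ∀ v, WS G N K M c τ v ≤ c * N) ∨ (∃ (c : ℝ) (τ : V → ℕ), 0 ≤ c ∧
      c ≤ (1 + 3 * K / N) / ε' + K / N ∧ ∀ v, WS G N K M c τ v ≤ c * N) := by
    intro j
    induction j with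
    | zero =>
      left
      refine ⟨K, fun _ => 0, by linarith, by simp, ?_⟩
      intro v
      unfold WS
      calc _ ≤ ∑ T ∈ Ico 0 (0 + N), K := Finset.sum_le_sum (fun T _ => FF_le G N K M K _ T v)
        _ = K * N := by simp [mul_comm]
    | succ j ih =>
      rcases ih with ⟨c, τ, h0, h1, h2⟩ | h
      · by_cases hc : c ≤ (1 + 3 * K / N) / ε' + K / N
        · right
          exact ⟨c, τ, h0, hc, h2⟩
        · left
          push Not at hc
          obtain ⟨τ', hτ'⟩ := step G N K M (c - K / N) c ε' hN hK hM hε hdens (by ring)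
            (by linarith) τ h2
          refine ⟨c - K / N, τ', by linarith, ?_, hτ'⟩
          push_cast
          linarith
      · right
        exact h
  rcases key (N + 1) with ⟨c, τ, h0, h1, h2⟩ | h
  · exfalso
    have : K - ((N + 1 : ℕ) : ℝ) * (K / N) = - (K / N) := by
      push_cast
      field_simp
      ring
    rw [this] at h1
    have : 0 < K / N := by positivity
    linarith
  · exact h

end facts

end Fluid

open Fluid in
theorem fluid {V : Type} [Fintype V] [DecidableEq V] (G : SimpleGraph V) [DecidableRel G.Adj]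
    (N : ℕ) (hN : 0 < N) (K M ε' : ℝ) (hK : 1 ≤ K) (hM : 0 < M) (hε : 0 < ε') (hε1 : ε' ≤ 1)
    (hdens : ∀ S : Finset V, (((S ×ˢ S).filter (fun p => G.Adj p.1 p.2)).card : ℝ) ≤
      (1 - ε') * M * S.card) :
    ∃ (τ : V → ℕ) (F S : V → ℕ → ℝ), (∀ v T, 1 ≤ F v T) ∧ (∀ v T, F v T ≤ K) ∧
      (∀ v T, 0 ≤ S v T) ∧
      (∀ v T, F v T < K → AA G N M τ v T < 1 ∧ F v T * (1 - AA G N M τ v T) = 1 + S v T) ∧
      (∀ v T, 1 / (N * M) * ∑ u ∈ univ.filter (fun u => G.Adj u v),
        ∑ T' ∈ (Ico (τ u) (τ u + N)).filter (fun T' => T' < T), F u T' ≤ S v T) ∧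
      (∀ v, ∑ T ∈ Ico (τ v) (τ v + N), F v T ≤ ((1 + 3 * K / N) / ε' + K / N) * N) := by
  obtain ⟨c, τ, hc0, hc, hval⟩ := exists_valid G N K M ε' hN hK hM hε hdens
  refine ⟨τ, fun v T => FF G N K M c τ T v, fun v T => SS G N K M c τ v T, ?_, ?_, ?_, ?_, ?_, ?_⟩
  · intro v T
    exact FF_one_le G N K M hK hM c hc0 τ T v
  · intro v T
    exact FF_le G N K M c τ T v
  · intro v T
    exact SS_nonneg G N K M hK hM c hc0 τ v T
  · intro v T h
    beta_reduce at h ⊢
    rw [FF_eq] at h ⊢
    split_ifs at h ⊢ with hA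
    · refine ⟨hA, ?_⟩
      have h1 : (1 + SS G N K M c τ v T) / (1 - AA G N M τ v T) < K := by
        rcases min_lt_iff.1 h with h | h
        · exact absurd h (lt_irrefl _)
        · exact h
      rw [min_eq_right h1.le]
      exact div_mul_cancel₀ _ (by linarith)
    · exact absurd h (lt_irrefl _)
  · intro v T
    apply mul_le_mul_of_nonneg_left _ (by positivity)
    apply Finset.sum_le_sum
    intro u _
    change PS G N K M c τ u T ≤ gg G N K M c τ u T
    have h1 : PS G N K M c τ u T ≤ c * N := by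
      refine le_trans ?_ (hval u)
      unfold PS WS
      apply Finset.sum_le_sum_of_subset_of_nonneg (Finset.filter_subset _ _)
      intro x _ _
      have := FF_one_le G N K M hK hM c hc0 τ x u
      linarith
    unfold gg
    split_ifs
    · exact h1
    · exact le_min h1 (le_refl _)
  · intro v
    exact (hval v).trans (mul_le_mul_of_nonneg_right hc (Nat.cast_nonneg _))

end Pool.Agent.Helper34.AE
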