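import Mathlib

/-!
# Exponential moments of the Gibbs measure of a doubly stochastic matrix
-/

set_option autoImplicit false

namespace Pool.Agent.Helper34.AE

open Finset

/-- `gibbs_mgf` from the two permanent bounds (`per_lower` and `per_upper`), given as hypotheses. -/
theorem gibbs_mgf_of
    (hlow : ∀ {m : ℕ} (P : Fin m → Fin m → ℝ), (∀ i j, 0 ≤ P i j) →
      (∀ i, ∑ j, P i j = 1) → (∀ j, ∑ i, P i j = 1) →
      Real.exp (-(m : ℝ)) ≤ ∑ π : Equiv.Perm (Fin m), ∏ i, P i (π i))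
    (hupp : ∀ (C c' : ℝ), 0 < C → 0 < c' → ∃ m₀ : ℕ, 0 < m₀ ∧ ∀ m : ℕ, m₀ ≤ m →
      ∀ (A : Fin m → Fin m → ℝ) (r : Fin m → ℝ), (∀ i j, 0 ≤ A i j) → (∀ i, 0 < r i) →
        (∀ i, ∑ j, A i j ≤ r i) → (∀ i j, A i j ≤ C / m * r i) →
        ∑ π : Equiv.Perm (Fin m), ∏ i, A i (π i) ≤ Real.exp (-(m : ℝ) + c' * m) * ∏ i, r i)
    (C c' : ℝ) (hC : 0 < C) (hc' : 0 < c') : ∃ m₀ : ℕ, 0 < m₀ ∧ ∀ m : ℕ, m₀ ≤ m →
    ∀ (P : Fin m → Fin m → ℝ), (∀ i j, 0 ≤ P i j) → (∀ i j, P i j ≤ C / m) →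
      (∀ i, ∑ j, P i j = 1) → (∀ j, ∑ i, P i j = 1) →
      ∀ (I J : Finset (Fin m)) (θ : ℝ), 0 ≤ θ → θ ≤ 1 →
        ∑ π : Equiv.Perm (Fin m), (∏ i, P i (π i)) *
            Real.exp (θ * (((I.filter (fun i => π i ∈ J)).card : ℝ) - ∑ i ∈ I, ∑ j ∈ J, P i j))
          ≤ Real.exp (θ ^ 2 * m + c' * m) * ∑ π : Equiv.Perm (Fin m), ∏ i, P i (π i) := by
  classical
  obtain ⟨m₀, hm₀, hup⟩ := hupp (3 * C) c' (by positivity) hc'
  refine ⟨m₀, hm₀, ?_⟩
  intro m hm P hP0 hPC hr hc I J θ hθ0 hθ1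
  have hmpos : (0 : ℝ) < m := by
    have : 0 < m := lt_of_lt_of_le hm₀ hm
    exact_mod_cast this
  -- the total mass of the rectangle
  obtain ⟨B, hB⟩ : ∃ B : ℝ, B = ∑ i ∈ I, ∑ j ∈ J, P i j := ⟨_, rfl⟩
  have hB0 : 0 ≤ B := by
    rw [hB]
    exact Finset.sum_nonneg fun i _ => Finset.sum_nonneg fun j _ => hP0 i j
  have hBm : B ≤ m := by
    calc B ≤ ∑ i : Fin m, ∑ j : Fin m, P i j := by
          rw [hB]
          refine (Finset.sum_le_sum fun i _ =>
            Finset.sum_le_sum_of_subset_of_nonneg (Finset.subset_univ J)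
              fun j _ _ => hP0 i j).trans ?_
          exact Finset.sum_le_sum_of_subset_of_nonneg (Finset.subset_univ I)
            fun i _ _ => Finset.sum_nonneg fun j _ => hP0 i j
      _ = m := by simp [hr]
  -- the exponential
  have he0 : 1 ≤ Real.exp θ := Real.one_le_exp hθ0
  have he3 : Real.exp θ ≤ 3 := by
    have h1 : Real.exp θ ≤ Real.exp 1 := Real.exp_le_exp.2 hθ1
    have h2 := Real.exp_one_lt_d9
    linarith
  have he2 : Real.exp θ - 1 - θ ≤ θ ^ 2 := by
    have := Real.abs_exp_sub_one_sub_id_le (x := θ) (by rw [abs_of_nonneg hθ0]; exact hθ1)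
    exact (abs_le.1 this).2
  -- the tilted matrix
  let A : Fin m → Fin m → ℝ := fun i j => P i j * (if i ∈ I ∧ j ∈ J then Real.exp θ else 1)
  let r : Fin m → ℝ := fun i => 1 + (Real.exp θ - 1) * (if i ∈ I then ∑ j ∈ J, P i j else 0)
  have hA0 : ∀ i j, 0 ≤ A i j := by
    intro i j
    refine mul_nonneg (hP0 i j) ?_
    split_ifs
    · exact (Real.exp_pos θ).le
    · exact zero_le_one
  have hr1 : ∀ i, 1 ≤ r i := by
    intro i
    have : 0 ≤ (Real.exp θ - 1) * (if i ∈ I then ∑ j ∈ J, P i j else 0) := by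
      refine mul_nonneg (by linarith) ?_
      split_ifs
      · exact Finset.sum_nonneg fun j _ => hP0 i j
      · exact le_rfl
    simp only [r]
    linarith
  have hAr : ∀ i, ∑ j, A i j = r i := by
    intro i
    have h1 : ∀ j, A i j = P i j + (Real.exp θ - 1) * (if i ∈ I ∧ j ∈ J then P i j else 0) := by
      intro j
      simp only [A]
      split_ifs
      · ring
      · ring
    simp only [h1, Finset.sum_add_distrib, hr i, ← Finset.mul_sum, r]
    congr 2
    by_cases hi : i ∈ I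
    · simp only [hi, true_and, if_true]
      rw [Finset.sum_ite_mem]
      simp
    · simp [hi]
  have hAC : ∀ i j, A i j ≤ 3 * C / m * r i := by
    intro i j
    have h1 : A i j ≤ C / m * 3 := by
      simp only [A]
      refine mul_le_mul (hPC i j) ?_ ?_ (by positivity)
      · split_ifs
        · exact he3
        · norm_num
      · split_ifs
        · exact (Real.exp_pos θ).le
        · exact zero_le_one
    calc A i j ≤ C / m * 3 := h1
      _ = 3 * C / m * 1 := by ring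
      _ ≤ 3 * C / m * r i := mul_le_mul_of_nonneg_left (hr1 i) (by positivity)
  have hupA := hup m hm A r hA0 (fun i => lt_of_lt_of_le one_pos (hr1 i))
    (fun i => (hAr i).le) hAC
  -- the product of the row sums
  have hprod : ∏ i, r i ≤ Real.exp ((Real.exp θ - 1) * B) := by
    calc ∏ i, r i ≤ ∏ i, Real.exp ((Real.exp θ - 1) * (if i ∈ I then ∑ j ∈ J, P i j else 0)) := by
          refine Finset.prod_le_prod (fun i _ => zero_le_one.trans (hr1 i)) fun i _ => ?_
          have := Real.add_one_le_exp ((Real.exp θ - 1) * (if i ∈ I then ∑ j ∈ J, P i j else 0))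
          simp only [r]
          linarith
      _ = Real.exp ((Real.exp θ - 1) * B) := by
          rw [← Real.exp_sum, ← Finset.mul_sum, Finset.sum_ite_mem, Finset.univ_inter, hB]
  -- the product along a permutation
  have hpi : ∀ π : Equiv.Perm (Fin m), ∏ i, A i (π i) =
      (∏ i, P i (π i)) * Real.exp (θ * ((I.filter (fun i => π i ∈ J)).card : ℝ)) := by
    intro π
    simp only [A]
    rw [Finset.prod_mul_distrib]
    congr 1
    rw [Finset.prod_ite]
    simp only [Finset.prod_const, one_pow, mul_one]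
    rw [← Real.exp_nat_mul]
    have : (univ.filter (fun i => i ∈ I ∧ π i ∈ J)) = I.filter (fun i => π i ∈ J) := by
      ext i
      simp
    rw [this]
    congr 1
    ring
  have hsum : ∑ π : Equiv.Perm (Fin m), (∏ i, P i (π i)) *
      Real.exp (θ * (((I.filter (fun i => π i ∈ J)).card : ℝ) - ∑ i ∈ I, ∑ j ∈ J, P i j)) =
      Real.exp (-(θ * B)) * ∑ π : Equiv.Perm (Fin m), ∏ i, A i (π i) := by
    rw [Finset.mul_sum]
    refine Finset.sum_congr rfl fun π _ => ?_
    rw [hpi π, ← hB]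
    have : Real.exp (θ * (((I.filter (fun i => π i ∈ J)).card : ℝ) - B)) =
        Real.exp (-(θ * B)) * Real.exp (θ * ((I.filter (fun i => π i ∈ J)).card : ℝ)) := by
      rw [← Real.exp_add]
      congr 1
      ring
    rw [this]
    ring
  rw [hsum]
  have hexp1 : Real.exp (-(θ * B)) * (Real.exp (-(m : ℝ) + c' * m) * Real.exp ((Real.exp θ - 1) * B))
      ≤ Real.exp (θ ^ 2 * m + c' * m) * Real.exp (-(m : ℝ)) := by
    rw [← Real.exp_add, ← Real.exp_add, ← Real.exp_add]
    refine Real.exp_le_exp.2 ?_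
    have h1 : (Real.exp θ - 1 - θ) * B ≤ θ ^ 2 * m :=
      mul_le_mul he2 hBm hB0 (by positivity)
    nlinarith
  calc Real.exp (-(θ * B)) * ∑ π : Equiv.Perm (Fin m), ∏ i, A i (π i)
      ≤ Real.exp (-(θ * B)) * (Real.exp (-(m : ℝ) + c' * m) * Real.exp ((Real.exp θ - 1) * B)) := by
        refine mul_le_mul_of_nonneg_left (hupA.trans ?_) (Real.exp_pos _).le
        exact mul_le_mul_of_nonneg_left hprod (Real.exp_pos _).le
    _ ≤ Real.exp (θ ^ 2 * m + c' * m) * Real.exp (-(m : ℝ)) := hexp1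
    _ ≤ Real.exp (θ ^ 2 * m + c' * m) * ∑ π : Equiv.Perm (Fin m), ∏ i, P i (π i) :=
        mul_le_mul_of_nonneg_left (hlow P hP0 hr hc) (Real.exp_pos _).le

end Pool.Agent.Helper34.AE
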