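import Pool.Agent.Helper34.AE.Defs

set_option autoImplicit false

namespace Pool.Agent.Helper34.AE

open Finset

variable {m : ℕ}

theorem isStep_of_maps {A B : Type*} [Fintype A] [Fintype B] (N : ℕ) (ρ : Fin m → A)
    (χ : Fin m → B) (hA : Fintype.card A ≤ N) (hB : Fintype.card B ≤ N)
    (S : Finset (Fin m × Fin m))
    (h : ∀ i j i' j', ρ i = ρ i' → χ j = χ j' → ((i, j) ∈ S ↔ (i', j') ∈ S)) : IsStep N S := by
  classical
  refine ⟨fun i => (Fintype.equivFin A (ρ i) : ℕ), fun j => (Fintype.equivFin B (χ j) : ℕ),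
    fun i => ((Fintype.equivFin A (ρ i)).isLt).trans_le hA,
    fun j => ((Fintype.equivFin B (χ j)).isLt).trans_le hB, ?_⟩
  intro i j i' j' h1 h2
  refine h i j i' j' ?_ ?_
  · exact (Fintype.equivFin A).injective (Fin.ext h1)
  · exact (Fintype.equivFin B).injective (Fin.ext h2)

theorem layer_nat (w : ℕ) (T : ℤ) (h0 : 0 ≤ T) (h1 : T ≤ w) :
    (T : ℝ) = ∑ x ∈ range w, if (x : ℤ) < T then (1 : ℝ) else 0 := by
  have h2 : (range w).filter (fun x => ((x : ℕ) : ℤ) < T) = range T.toNat := by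
    ext x
    simp only [mem_filter, mem_range]
    omega
  rw [← sum_filter, h2]
  simp only [sum_const, card_range, nsmul_eq_mul, mul_one]
  have : ((T.toNat : ℤ)) = T := Int.toNat_of_nonneg h0
  exact_mod_cast this.symm

/-- A bounded integer step function tested against `q`. -/
theorem step_sum_le {A B : Type*} [Fintype A] [Fintype B] (N : ℕ) (ρ : Fin m → A)
    (χ : Fin m → B) (hA : Fintype.card A ≤ N) (hB : Fintype.card B ≤ N)
    (q : Fin m → Fin m → ℝ) (Bd : ℝ)
    (hq : ∀ S : Finset (Fin m × Fin m), IsStep N S → ∑ p ∈ S, q p.1 p.2 ≤ Bd)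
    (w : ℕ) (T : Fin m → Fin m → ℤ) (h0 : ∀ i j, 0 ≤ T i j) (h1 : ∀ i j, T i j ≤ w)
    (hT : ∀ i j i' j', ρ i = ρ i' → χ j = χ j' → T i j = T i' j') :
    ∑ i, ∑ j, q i j * (T i j : ℝ) ≤ w * Bd := by
  classical
  have e1 : ∑ i, ∑ j, q i j * (T i j : ℝ) =
      ∑ x ∈ range w, ∑ p ∈ univ.filter (fun p : Fin m × Fin m => (x : ℤ) < T p.1 p.2),
        q p.1 p.2 := by
    have e2 : ∀ i j, q i j * (T i j : ℝ) =
        ∑ x ∈ range w, if (x : ℤ) < T i j then q i j else 0 := by
      intro i j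
      rw [layer_nat w (T i j) (h0 i j) (h1 i j), mul_sum]
      refine sum_congr rfl (fun x _ => ?_)
      split_ifs <;> simp
    simp only [e2]
    rw [← Fintype.sum_prod_type']
    simp only [sum_filter]
    rw [sum_comm]
  rw [e1]
  calc ∑ x ∈ range w, ∑ p ∈ univ.filter (fun p : Fin m × Fin m => (x : ℤ) < T p.1 p.2),
        q p.1 p.2 ≤ ∑ x ∈ range w, Bd := by
        refine sum_le_sum (fun x _ => hq _ ?_)
        refine isStep_of_maps N ρ χ hA hB _ ?_
        intro i j i' j' h2 h3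
        simp only [mem_filter, mem_univ, true_and]
        rw [hT i j i' j' h2 h3]
    _ = w * Bd := by rw [sum_const, card_range, nsmul_eq_mul]

/-- Sum over the cells of a partition. -/
theorem sum_cells {A B : Type*} [Fintype A] [DecidableEq A] [Fintype B] [DecidableEq B]
    (ρ : Fin m → A) (χ : Fin m → B) (f : Fin m → Fin m → ℝ) :
    ∑ i, ∑ j, f i j = ∑ a, ∑ b, ∑ i ∈ univ.filter (fun i => ρ i = a),
      ∑ j ∈ univ.filter (fun j => χ j = b), f i j := by
  have h1 : ∀ g : Fin m → ℝ, ∑ i, g i = ∑ a, ∑ i ∈ univ.filter (fun i => ρ i = a), g i := by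
    intro g
    exact (sum_fiberwise univ ρ g).symm
  have h2 : ∀ g : Fin m → ℝ, ∑ j, g j = ∑ b, ∑ j ∈ univ.filter (fun j => χ j = b), g j := by
    intro g
    exact (sum_fiberwise univ χ g).symm
  rw [h1]
  refine sum_congr rfl (fun a _ => ?_)
  rw [sum_congr rfl (fun i _ => h2 (fun j => f i j)), sum_comm]

/-- The available table dominates `1 - Q` on step functions. -/
theorem step_H {A B : Type*} [Fintype A] [Fintype B] (N : ℕ)
    (ρ : Fin m → A) (χ : Fin m → B) (hA : Fintype.card A ≤ N) (hB : Fintype.card B ≤ N)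
    (H : Fin m → Fin m → Prop) [∀ i j, Decidable (H i j)] (Q : Fin m → Fin m → ℝ) (lam : ℝ)
    (hl : 0 ≤ lam)
    (HB : ∀ I J : Finset (Fin m), (I.card : ℝ) * J.card - ∑ i ∈ I, ∑ j ∈ J, Q i j - lam ≤
      (((I ×ˢ J).filter (fun p => H p.1 p.2)).card : ℝ))
    (W : ℕ) (X : Fin m → Fin m → ℤ) (h0 : ∀ i j, 0 ≤ X i j) (h1 : ∀ i j, X i j ≤ W)
    (hX : ∀ i j i' j', ρ i = ρ i' → χ j = χ j' → X i j = X i' j') :
    ∑ i, ∑ j, (1 - Q i j) * (X i j : ℝ) - (N : ℝ) ^ 2 * lam * W ≤
      ∑ i, ∑ j, (if H i j then (X i j : ℝ) else 0) := by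
  classical
  have key : ∑ i, ∑ j, ((1 - Q i j) * (X i j : ℝ) - (if H i j then (X i j : ℝ) else 0)) ≤
      (N : ℝ) ^ 2 * lam * W := by
    rw [sum_cells ρ χ]
    have hcell : ∀ a b, ∑ i ∈ univ.filter (fun i => ρ i = a),
        ∑ j ∈ univ.filter (fun j => χ j = b),
          ((1 - Q i j) * (X i j : ℝ) - (if H i j then (X i j : ℝ) else 0)) ≤ lam * W := by
      intro a b
      set I := univ.filter (fun i => ρ i = a) with hI
      set J := univ.filter (fun j => χ j = b) with hJ
      by_cases hne : I.Nonempty ∧ J.Nonempty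
      · obtain ⟨⟨i0, hi0⟩, ⟨j0, hj0⟩⟩ := hne
        have e1 : ∀ i ∈ I, ∀ j ∈ J, (1 - Q i j) * (X i j : ℝ) - (if H i j then (X i j : ℝ) else 0)
            = (X i0 j0 : ℝ) * ((1 - Q i j) - (if H i j then 1 else 0)) := by
          intro i hi j hj
          rw [hI, mem_filter] at hi hi0
          rw [hJ, mem_filter] at hj hj0
          rw [hX i j i0 j0 (hi.2.trans hi0.2.symm) (hj.2.trans hj0.2.symm)]
          split_ifs <;> ring
        rw [sum_congr rfl (fun i hi => sum_congr rfl (fun j hj => e1 i hi j hj))]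
        simp only [← mul_sum]
        have e2 : ∑ i ∈ I, ∑ j ∈ J, ((1 - Q i j) - (if H i j then (1 : ℝ) else 0)) =
            (I.card : ℝ) * J.card - ∑ i ∈ I, ∑ j ∈ J, Q i j -
              (((I ×ˢ J).filter (fun p => H p.1 p.2)).card : ℝ) := by
          simp only [sum_sub_distrib, sum_const, nsmul_eq_mul, mul_one]
          have e3 : (((I ×ˢ J).filter (fun p => H p.1 p.2)).card : ℝ) =
              ∑ i ∈ I, ∑ j ∈ J, (if H i j then (1 : ℝ) else 0) := by
            rw [card_filter]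
            push_cast
            rw [sum_product]
          rw [e3]
        rw [e2]
        have h3 := HB I J
        have h4 : (0 : ℝ) ≤ X i0 j0 := by exact_mod_cast h0 i0 j0
        have h5 : (X i0 j0 : ℝ) ≤ W := by exact_mod_cast h1 i0 j0
        calc (X i0 j0 : ℝ) * ((I.card : ℝ) * J.card - ∑ i ∈ I, ∑ j ∈ J, Q i j -
              (((I ×ˢ J).filter (fun p => H p.1 p.2)).card : ℝ)) ≤ (X i0 j0 : ℝ) * lam :=
              mul_le_mul_of_nonneg_left (by linarith) h4
          _ ≤ W * lam := mul_le_mul_of_nonneg_right h5 hl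
          _ = lam * W := mul_comm _ _
      · rw [not_and_or, not_nonempty_iff_eq_empty, not_nonempty_iff_eq_empty] at hne
        have h6 : (0 : ℝ) ≤ lam * W := by positivity
        rcases hne with h | h
        · rw [h, sum_empty]; exact h6
        · rw [h]; simp only [sum_empty, sum_const_zero]; exact h6
    have hN2 : ((Fintype.card A : ℝ) * Fintype.card B) ≤ (N : ℝ) ^ 2 := by
      rw [sq]
      exact mul_le_mul (by exact_mod_cast hA) (by exact_mod_cast hB) (Nat.cast_nonneg _)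
        (Nat.cast_nonneg _)
    calc _ ≤ ∑ a : A, ∑ b : B, lam * W :=
          sum_le_sum (fun a _ => sum_le_sum (fun b _ => hcell a b))
      _ = ((Fintype.card A : ℝ) * Fintype.card B) * (lam * W) := by
          simp only [sum_const, card_univ, nsmul_eq_mul]
          ring
      _ ≤ (N : ℝ) ^ 2 * (lam * W) := mul_le_mul_of_nonneg_right hN2 (by positivity)
      _ = _ := by ring
  have e : ∑ i, ∑ j, ((1 - Q i j) * (X i j : ℝ) - (if H i j then (X i j : ℝ) else 0)) =
      ∑ i, ∑ j, (1 - Q i j) * (X i j : ℝ) - ∑ i, ∑ j, (if H i j then (X i j : ℝ) else 0) := by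
    simp only [sum_sub_distrib]
  rw [e] at key
  linarith

end Pool.Agent.Helper34.AE
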