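import Pool.Agent.Helper34.AE.Int1

set_option autoImplicit false

namespace Pool.Agent.Helper34.AE

open Finset

/-- Hypotheses of the response step. -/
structure Resp (m : ℕ) (H : Fin m → Fin m → Prop) [∀ i j, Decidable (H i j)]
    (Q : Fin m → Fin m → ℝ) (κ δ lam : ℝ) : Prop where
  mpos : 0 < m
  δ0 : 0 < δ
  δ1 : δ ≤ 1
  κδ : δ ≤ κ
  κ1 : κ ≤ 1
  lam0 : 0 < lam
  lam1 : lam ≤ δ ^ 3 / 8
  Q0 : ∀ i j, 0 ≤ Q i j
  Qr : ∀ i, ∑ j, Q i j = (1 - κ) * m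
  Qc : ∀ j, ∑ i, Q i j = (1 - κ) * m
  Hr : ∀ i, δ * m ≤ ((univ.filter (fun j => H i j)).card : ℝ)
  Hc : ∀ j, δ * m ≤ ((univ.filter (fun i => H i j)).card : ℝ)
  HB : ∀ I J : Finset (Fin m), (I.card : ℝ) * J.card - ∑ i ∈ I, ∑ j ∈ J, Q i j - lam * m ^ 2 ≤
    (((I ×ˢ J).filter (fun p => H p.1 p.2)).card : ℝ)
  QB : ∀ I J : Finset (Fin m), ∑ i ∈ I, ∑ j ∈ J, (Q i j - (1 - κ)) ≤ δ ^ 3 / 8 * m ^ 2

/-! ### per-cell decomposition into levels -/

/-- The level `g` part of the test function at one cell. -/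
def Tg (w : ℕ → ℕ) (W fc Z : ℤ) (φ : ℕ → ℤ) (g : ℕ) : ℤ :=
  (max 0 (fc - ∑ h ∈ range (g + 1), φ h - (W - ∑ h ∈ range (g + 1), (w h : ℤ))) -
    max 0 (fc - ∑ h ∈ range g, φ h - (W - ∑ h ∈ range g, (w h : ℤ)))) +
  (min Z (∑ h ∈ range (g + 1), (w h : ℤ)) - min Z (∑ h ∈ range g, (w h : ℤ)))

theorem Tg_bounds (w : ℕ → ℕ) (W fc Z : ℤ) (φ : ℕ → ℤ) (g : ℕ)
    (hφ0 : ∀ h ≤ g, 0 ≤ φ h) (hφ1 : φ g ≤ w g) (hZ : 0 ≤ Z) (hZ1 : Z ≤ W - fc) :
    0 ≤ Tg w W fc Z φ g ∧ Tg w W fc Z φ g ≤ w g := by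
  unfold Tg
  rw [sum_range_succ, sum_range_succ]
  have h1 : 0 ≤ ∑ h ∈ range g, φ h :=
    sum_nonneg (fun h hh => hφ0 h (mem_range.1 hh).le)
  have h2 : (0 : ℤ) ≤ ∑ h ∈ range g, (w h : ℤ) := sum_nonneg (fun h _ => by positivity)
  have h3 := hφ0 g le_rfl
  generalize ∑ h ∈ range g, φ h = P at *
  generalize ∑ h ∈ range g, (w h : ℤ) = c at *
  generalize φ g = f at *
  have h4 : (0 : ℤ) ≤ w g := by positivity
  generalize (w g : ℤ) = x at *
  constructor <;> omega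

theorem Tg_sum (w : ℕ → ℕ) (W fc Z : ℤ) (φ : ℕ → ℤ) (G : ℕ)
    (hW : W = ∑ h ∈ range G, (w h : ℤ)) (hfc : fc ≤ W) (hZ : 0 ≤ Z) (hZ1 : Z ≤ W) :
    ∑ g ∈ range G, Tg w W fc Z φ g = max 0 (fc - ∑ h ∈ range G, φ h) + Z := by
  unfold Tg
  rw [sum_add_distrib]
  rw [sum_range_sub (fun g => max 0 (fc - ∑ h ∈ range g, φ h - (W - ∑ h ∈ range g, (w h : ℤ)))),
    sum_range_sub (fun g => min Z (∑ h ∈ range g, (w h : ℤ)))]
  rw [← hW]
  simp only [range_zero, sum_empty]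
  omega

theorem Tg_congr (w : ℕ → ℕ) (W fc Z : ℤ) (φ φ' : ℕ → ℤ) (g : ℕ) (h : ∀ x ≤ g, φ x = φ' x) :
    Tg w W fc Z φ g = Tg w W fc Z φ' g := by
  unfold Tg
  rw [sum_congr rfl (fun x hx => h x (Nat.lt_succ_iff.1 (mem_range.1 hx))),
    sum_congr rfl (fun x hx => h x (mem_range.1 hx).le)]

/-! ### slices -/

theorem slice_card (lo hi x y : ℤ) (h1 : lo ≤ x) (h2 : y ≤ hi) :
    ∑ t ∈ Ico lo hi, (if x ≤ t ∧ t < y then (1 : ℝ) else 0) = ((max 0 (y - x) : ℤ) : ℝ) := by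
  rw [← sum_filter]
  have h3 : (Ico lo hi).filter (fun t => x ≤ t ∧ t < y) = Ico x y := by
    ext t
    simp only [mem_filter, mem_Ico]
    omega
  rw [h3]
  simp only [sum_const, nsmul_eq_mul, mul_one, Int.card_Ico]
  have : (((y - x).toNat : ℤ)) = max 0 (y - x) := by omega
  rw [← this]
  push_cast
  rfl

variable {m : ℕ}

/-- weighted sum of `(α + β - W)^+` through slices -/
theorem slices_pos (α β : Fin m → ℤ) (W : ℤ) (lo hi : ℤ) (h1 : ∀ j, lo ≤ W - β j)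
    (h2 : ∀ i, α i ≤ hi) (h : Fin m → Fin m → ℝ) :
    ∑ i, ∑ j, h i j * ((max 0 (α i + β j - W) : ℤ) : ℝ) =
      ∑ t ∈ Ico lo hi, ∑ i ∈ univ.filter (fun i => t < α i),
        ∑ j ∈ univ.filter (fun j => W - t ≤ β j), h i j := by
  have e1 : ∀ i j, h i j * ((max 0 (α i + β j - W) : ℤ) : ℝ) =
      ∑ t ∈ Ico lo hi, (if t < α i then (if W - t ≤ β j then h i j else 0) else 0) := by
    intro i j
    have := slice_card lo hi (W - β j) (α i) (h1 j) (h2 i)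
    have e2 : α i - (W - β j) = α i + β j - W := by ring
    rw [e2] at this
    rw [← this, mul_sum]
    refine sum_congr rfl (fun t _ => ?_)
    by_cases ha : t < α i
    · by_cases hb : W - t ≤ β j
      · rw [if_pos ⟨by omega, ha⟩, if_pos ha, if_pos hb, mul_one]
      · rw [if_neg (by omega), if_pos ha, if_neg hb, mul_zero]
    · rw [if_neg (fun hc => ha hc.2), if_neg ha, mul_zero]
  simp only [e1]
  rw [sum_congr rfl (fun i _ => sum_comm), sum_comm]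
  refine sum_congr rfl (fun t _ => ?_)
  rw [sum_filter]
  refine sum_congr rfl (fun i _ => ?_)
  by_cases ha : t < α i
  · simp only [if_pos ha]
    rw [sum_filter]
  · simp only [if_neg ha, sum_const_zero]

/-- exact marginals: a rectangle and its complementary rectangle carry the same mass -/
theorem compl_sum (q : Fin m → Fin m → ℝ) (hr : ∀ i, ∑ j, q i j = 0) (hc : ∀ j, ∑ i, q i j = 0)
    (I J : Finset (Fin m)) : ∑ i ∈ I, ∑ j ∈ J, q i j = ∑ i ∈ Iᶜ, ∑ j ∈ Jᶜ, q i j := by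
  have h1 : ∀ i, ∑ j ∈ J, q i j = - ∑ j ∈ Jᶜ, q i j := by
    intro i
    have := sum_add_sum_compl J (fun j => q i j)
    rw [hr i] at this
    linarith
  have h2 : ∀ j, ∑ i ∈ I, q i j = - ∑ i ∈ Iᶜ, q i j := by
    intro j
    have := sum_add_sum_compl I (fun i => q i j)
    rw [hc j] at this
    linarith
  rw [sum_congr rfl (fun i _ => h1 i), sum_neg_distrib, sum_comm,
    sum_congr rfl (fun j _ => h2 j), sum_neg_distrib, neg_neg, sum_comm]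

section
variable {H : Fin m → Fin m → Prop} [∀ i j, Decidable (H i j)] {Q : Fin m → Fin m → ℝ}
  {κ δ lam : ℝ}

theorem Resp.m0 (hr : Resp m H Q κ δ lam) : (0 : ℝ) < m := by exact_mod_cast hr.mpos

theorem Resp.κ0 (hr : Resp m H Q κ δ lam) : 0 < κ := lt_of_lt_of_le hr.δ0 hr.κδ

theorem Resp.row0 (hr : Resp m H Q κ δ lam) (i : Fin m) : ∑ j, (Q i j - (1 - κ)) = 0 := by
  rw [sum_sub_distrib, hr.Qr i]
  simp
  ring

theorem Resp.col0 (hr : Resp m H Q κ δ lam) (j : Fin m) : ∑ i, (Q i j - (1 - κ)) = 0 := by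
  rw [sum_sub_distrib, hr.Qc j]
  simp
  ring

theorem row_kill (hr : Resp m H Q κ δ lam) (I J : Finset (Fin m))
    (hJ : ((Jᶜ).card : ℝ) ≤ δ * m / 2) :
    ∑ i ∈ I, ∑ j ∈ J, (1 - 2 / δ * (if H i j then (1 : ℝ) else 0)) ≤ 0 := by
  have hδ := hr.δ0
  refine sum_nonpos (fun i _ => ?_)
  rw [sum_sub_distrib, ← mul_sum]
  simp only [sum_const, nsmul_eq_mul, mul_one]
  have h1 : ((univ.filter (fun j => H i j)).card : ℝ) =
      ∑ j, (if H i j then (1 : ℝ) else 0) := by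
    rw [card_filter]; push_cast; rfl
  have h2 := sum_add_sum_compl J (fun j => if H i j then (1 : ℝ) else 0)
  have h3 : ∑ j ∈ Jᶜ, (if H i j then (1 : ℝ) else 0) ≤ ((Jᶜ).card : ℝ) := by
    calc ∑ j ∈ Jᶜ, (if H i j then (1 : ℝ) else 0) ≤ ∑ j ∈ Jᶜ, (1 : ℝ) :=
          sum_le_sum (fun j _ => by split_ifs <;> norm_num)
      _ = _ := by simp
  have h4 := hr.Hr i
  rw [h1] at h4
  have h5 : δ * m / 2 ≤ ∑ j ∈ J, (if H i j then (1 : ℝ) else 0) := by linarith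
  have h6 : (J.card : ℝ) ≤ m := by
    have := card_le_univ J
    rw [Fintype.card_fin] at this
    exact_mod_cast this
  have h7 : (m : ℝ) = 2 / δ * (δ * m / 2) := by field_simp
  have h8 : 2 / δ * (δ * m / 2) ≤ 2 / δ * ∑ j ∈ J, (if H i j then (1 : ℝ) else 0) :=
    mul_le_mul_of_nonneg_left h5 (by positivity)
  linarith

theorem col_kill (hr : Resp m H Q κ δ lam) (I J : Finset (Fin m))
    (hI : ((Iᶜ).card : ℝ) ≤ δ * m / 2) :
    ∑ i ∈ I, ∑ j ∈ J, (1 - 2 / δ * (if H i j then (1 : ℝ) else 0)) ≤ 0 := by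
  have hδ := hr.δ0
  rw [sum_comm]
  refine sum_nonpos (fun j _ => ?_)
  rw [sum_sub_distrib, ← mul_sum]
  simp only [sum_const, nsmul_eq_mul, mul_one]
  have h1 : ((univ.filter (fun i => H i j)).card : ℝ) =
      ∑ i, (if H i j then (1 : ℝ) else 0) := by
    rw [card_filter]; push_cast; rfl
  have h2 := sum_add_sum_compl I (fun i => if H i j then (1 : ℝ) else 0)
  have h3 : ∑ i ∈ Iᶜ, (if H i j then (1 : ℝ) else 0) ≤ ((Iᶜ).card : ℝ) := by
    calc ∑ i ∈ Iᶜ, (if H i j then (1 : ℝ) else 0) ≤ ∑ i ∈ Iᶜ, (1 : ℝ) :=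
          sum_le_sum (fun j _ => by split_ifs <;> norm_num)
      _ = _ := by simp
  have h4 := hr.Hc j
  rw [h1] at h4
  have h5 : δ * m / 2 ≤ ∑ i ∈ I, (if H i j then (1 : ℝ) else 0) := by linarith
  have h6 : (I.card : ℝ) ≤ m := by
    have := card_le_univ I
    rw [Fintype.card_fin] at this
    exact_mod_cast this
  have h7 : (m : ℝ) = 2 / δ * (δ * m / 2) := by field_simp
  have h8 : 2 / δ * (δ * m / 2) ≤ 2 / δ * ∑ i ∈ I, (if H i j then (1 : ℝ) else 0) :=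
    mul_le_mul_of_nonneg_left h5 (by positivity)
  linarith

theorem net_le (hr : Resp m H Q κ δ lam) (I J : Finset (Fin m)) :
    ∑ i ∈ I, ∑ j ∈ J, (1 - 2 / δ * (if H i j then (1 : ℝ) else 0)) ≤
      (∑ i ∈ I, ∑ j ∈ J, (Q i j - (1 - κ)) + lam * m ^ 2) / κ := by
  have hδ := hr.δ0
  have hκ := hr.κ0
  have e1 : ∑ i ∈ I, ∑ j ∈ J, (1 - 2 / δ * (if H i j then (1 : ℝ) else 0)) =
      (I.card : ℝ) * J.card - 2 / δ * (((I ×ˢ J).filter (fun p => H p.1 p.2)).card : ℝ) := by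
    have e3 : (((I ×ˢ J).filter (fun p => H p.1 p.2)).card : ℝ) =
        ∑ i ∈ I, ∑ j ∈ J, (if H i j then (1 : ℝ) else 0) := by
      rw [card_filter]
      push_cast
      rw [sum_product]
    rw [e3]
    simp only [sum_sub_distrib, sum_const, nsmul_eq_mul, mul_one, ← mul_sum]
  have e2 : ∑ i ∈ I, ∑ j ∈ J, (Q i j - (1 - κ)) =
      ∑ i ∈ I, ∑ j ∈ J, Q i j - (1 - κ) * ((I.card : ℝ) * J.card) := by
    simp only [sum_sub_distrib, sum_const, nsmul_eq_mul]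
    ring
  rw [e1, e2, le_div_iff₀ hκ]
  have h1 := hr.HB I J
  set h := (((I ×ˢ J).filter (fun p => H p.1 p.2)).card : ℝ) with hh
  have hh0 : 0 ≤ h := by rw [hh]; positivity
  have h2 : h ≤ 2 / δ * h * κ := by
    have h3 : 1 ≤ 2 / δ * κ := by
      rw [div_mul_eq_mul_div, le_div_iff₀ hδ]
      linarith [hr.κδ]
    calc h = 1 * h := (one_mul _).symm
      _ ≤ (2 / δ * κ) * h := mul_le_mul_of_nonneg_right h3 hh0
      _ = _ := by ring
  nlinarith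

end

end Pool.Agent.Helper34.AE
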