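import Pool.Agent.Helper34.AE.Int2

set_option autoImplicit false

namespace Pool.Agent.Helper34.AE

open Finset

variable {m : ℕ} {H : Fin m → Fin m → Prop} [∀ i j, Decidable (H i j)] {Q : Fin m → Fin m → ℝ}
  {κ δ lam : ℝ}

/-- The critical slices. -/
noncomputable def T0 (δ : ℝ) (α β : Fin m → ℤ) (W lo hi : ℤ) : Finset ℤ :=
  (Ico lo hi).filter (fun t => δ * m / 2 < ((univ.filter (fun i => α i ≤ t)).card : ℝ) ∧
    δ * m / 2 < ((univ.filter (fun j => β j < W - t)).card : ℝ))

noncomputable def T1 (δ : ℝ) (α β : Fin m → ℤ) (W lo hi : ℤ) : Finset ℤ :=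
  (T0 δ α β W lo hi).filter (fun t => ((univ.filter (fun i => α i ≤ t - W)).card : ℝ) ≤ δ * m / 2)

theorem T1_card (α β : Fin m → ℤ) (W : ℕ) (lo hi : ℤ) :
    (T1 δ α β W lo hi).card ≤ W := by
  rcases (T1 δ α β W lo hi).eq_empty_or_nonempty with h | h
  · rw [h]; simp
  · obtain ⟨t0, ht0, hmin⟩ := exists_min_image (T1 δ α β W lo hi) id h
    have hsub : T1 δ α β W lo hi ⊆ Ico t0 (t0 + W) := by
      intro t ht
      rw [mem_Ico]
      refine ⟨hmin t ht, ?_⟩
      by_contra hc
      push Not at hc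
      unfold T1 T0 at ht ht0
      rw [mem_filter, mem_filter] at ht ht0
      have h1 := ht.2
      have h2 := ht0.1.2.1
      have h3 : (univ.filter (fun i => α i ≤ t0)).card ≤
          (univ.filter (fun i => α i ≤ t - W)).card := by
        refine card_le_card ?_
        intro i hi'
        rw [mem_filter] at hi' ⊢
        exact ⟨mem_univ _, by omega⟩
      have h4 : ((univ.filter (fun i => α i ≤ t0)).card : ℝ) ≤
          ((univ.filter (fun i => α i ≤ t - W)).card : ℝ) := by exact_mod_cast h3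
      linarith
    have := card_le_card hsub
    rw [Int.card_Ico] at this
    omega

/-- complementary slices as a function of the two values -/
noncomputable def Zf (T : Finset ℤ) (W a b : ℤ) : ℤ :=
  ((T.filter (fun t => a ≤ t ∧ t < W - b)).card : ℤ)

theorem Zf_nonneg (T : Finset ℤ) (W a b : ℤ) : 0 ≤ Zf T W a b := by unfold Zf; positivity

theorem Zf_anti (T : Finset ℤ) (W : ℤ) {a a' b b' : ℤ} (h1 : a ≤ a') (h2 : b ≤ b') :
    Zf T W a' b' ≤ Zf T W a b := by
  unfold Zf
  have : (T.filter (fun t => a' ≤ t ∧ t < W - b')).card ≤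
      (T.filter (fun t => a ≤ t ∧ t < W - b)).card := by
    refine card_le_card ?_
    intro t ht
    rw [mem_filter] at ht ⊢
    exact ⟨ht.1, by omega, by omega⟩
  exact_mod_cast this

theorem Zf_le (T : Finset ℤ) (W : ℕ) (hT : T.card ≤ W) (a b : ℤ) :
    Zf T W a b ≤ W - max 0 (min (a + b) W) := by
  unfold Zf
  have h1 : (T.filter (fun t => a ≤ t ∧ t < W - b)).card ≤ T.card := card_filter_le _ _
  have h2 : (T.filter (fun t => a ≤ t ∧ t < (W : ℤ) - b)).card ≤ (Ico a ((W : ℤ) - b)).card := by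
    refine card_le_card ?_
    intro t ht
    rw [mem_filter] at ht
    rw [mem_Ico]
    exact ht.2
  rw [Int.card_Ico] at h2
  omega

theorem Zf_sum (T : Finset ℤ) (α β : Fin m → ℤ) (W : ℤ) (q : Fin m → Fin m → ℝ) :
    ∑ t ∈ T, ∑ i ∈ univ.filter (fun i => α i ≤ t), ∑ j ∈ univ.filter (fun j => β j < W - t), q i j
      = ∑ i, ∑ j, q i j * (Zf T W (α i) (β j) : ℝ) := by
  have e1 : ∀ i j, q i j * (Zf T W (α i) (β j) : ℝ) =
      ∑ t ∈ T, (if α i ≤ t then (if β j < W - t then q i j else 0) else 0) := by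
    intro i j
    unfold Zf
    rw [card_filter]
    push_cast
    rw [mul_sum]
    refine sum_congr rfl (fun t _ => ?_)
    by_cases ha : α i ≤ t
    · by_cases hb : β j < W - t
      · rw [if_pos ⟨ha, by omega⟩, if_pos ha, if_pos hb, mul_one]
      · rw [if_neg (by omega), if_pos ha, if_neg hb, mul_zero]
    · rw [if_neg (fun hc => ha hc.1), if_neg ha, mul_zero]
  simp only [e1]
  symm
  rw [sum_congr rfl (fun i _ => sum_comm), sum_comm]
  refine sum_congr rfl (fun t _ => ?_)
  rw [sum_filter]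
  refine sum_congr rfl (fun i _ => ?_)
  by_cases ha : α i ≤ t
  · simp only [if_pos ha]
    rw [sum_filter]
  · simp only [if_neg ha, sum_const_zero]

/-- the part of the dual functional above level `W` -/
theorem partY (hr : Resp m H Q κ δ lam) (α β : Fin m → ℤ) (W : ℕ) (L : ℤ)
    (hα : ∀ i, |α i| ≤ L) (hβ : ∀ j, |β j| ≤ L) :
    ∑ i, ∑ j, (1 - 2 / δ * (if H i j then (1 : ℝ) else 0)) *
        ((max 0 (α i + β j - W) : ℤ) : ℝ) -
      ∑ i, ∑ j, ((max 0 (-(α i + β j)) : ℤ) : ℝ) ≤
    (∑ i, ∑ j, (Q i j - (1 - κ)) * (Zf (T1 δ α β W (-L) (W + L)) W (α i) (β j) : ℝ) +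
      W * (lam * m ^ 2)) / κ := by
  have hδ := hr.δ0
  have hκ := hr.κ0
  have hm := hr.m0
  have hlo : ∀ j, -L ≤ (W : ℤ) - β j := by
    intro j
    have := abs_le.1 (hβ j)
    omega
  have hhi : ∀ i, α i ≤ (W : ℤ) + L := by
    intro i
    have := abs_le.1 (hα i)
    omega
  rw [slices_pos α β W (-L) (W + L) hlo hhi]
  -- complements
  have hIc : ∀ t : ℤ, (univ.filter (fun i => t < α i))ᶜ = univ.filter (fun i => α i ≤ t) := by
    intro t
    ext i
    simp
  have hJc : ∀ t : ℤ, (univ.filter (fun j => (W : ℤ) - t ≤ β j))ᶜ =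
      univ.filter (fun j => β j < (W : ℤ) - t) := by
    intro t
    ext j
    rw [mem_compl, mem_filter, mem_filter]
    simp only [mem_univ, true_and, not_le]
  set net : ℤ → ℝ := fun t => ∑ i ∈ univ.filter (fun i => t < α i),
    ∑ j ∈ univ.filter (fun j => (W : ℤ) - t ≤ β j),
      (1 - 2 / δ * (if H i j then (1 : ℝ) else 0)) with hnet
  set TT := T0 δ α β W (-L) (W + L) with hTT
  set TA := T1 δ α β W (-L) (W + L) with hTA
  have s1 : ∑ t ∈ Ico (-L) ((W : ℤ) + L), net t ≤ ∑ t ∈ TT, net t := by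
    rw [hTT]
    unfold T0
    rw [sum_filter]
    refine sum_le_sum (fun t _ => ?_)
    split_ifs with h
    · exact le_rfl
    · rw [not_and_or, not_lt, not_lt] at h
      rcases h with h | h
      · exact col_kill hr _ _ (by rw [hIc]; exact h)
      · exact row_kill hr _ _ (by rw [hJc]; exact h)
  have s2 : ∑ t ∈ TT, net t = ∑ t ∈ TA, net t + ∑ t ∈ TT.filter
      (fun t => ¬ ((univ.filter (fun i => α i ≤ t - W)).card : ℝ) ≤ δ * m / 2), net t := by
    rw [hTA]
    unfold T1
    rw [← hTT, sum_filter_add_sum_filter_not]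
  -- the slices of `T1`
  have hnl : ∀ t, net t ≤ (∑ i ∈ univ.filter (fun i => α i ≤ t),
      ∑ j ∈ univ.filter (fun j => β j < (W : ℤ) - t), (Q i j - (1 - κ)) + lam * m ^ 2) / κ := by
    intro t
    have h1 := net_le hr (univ.filter (fun i => t < α i))
      (univ.filter (fun j => (W : ℤ) - t ≤ β j))
    rw [compl_sum _ hr.row0 hr.col0, hIc, hJc] at h1
    exact h1
  have s3 : ∑ t ∈ TA, net t ≤
      (∑ i, ∑ j, (Q i j - (1 - κ)) * (Zf TA W (α i) (β j) : ℝ) + W * (lam * m ^ 2)) / κ := by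
    calc ∑ t ∈ TA, net t ≤ ∑ t ∈ TA, (∑ i ∈ univ.filter (fun i => α i ≤ t),
          ∑ j ∈ univ.filter (fun j => β j < (W : ℤ) - t), (Q i j - (1 - κ)) + lam * m ^ 2) / κ :=
          sum_le_sum (fun t _ => hnl t)
      _ = (∑ i, ∑ j, (Q i j - (1 - κ)) * (Zf TA W (α i) (β j) : ℝ) +
            TA.card * (lam * m ^ 2)) / κ := by
          rw [← sum_div, sum_add_distrib, Zf_sum]
          simp
      _ ≤ _ := by
          have h2 : (TA.card : ℝ) ≤ W := by
            have := T1_card (δ := δ) α β W (-L) (W + L)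
            exact_mod_cast this
          have h3 : (0 : ℝ) ≤ lam * m ^ 2 := by
            have := hr.lam0
            positivity
          exact div_le_div_of_nonneg_right
            (add_le_add le_rfl (mul_le_mul_of_nonneg_right h2 h3)) hκ.le
  -- the slices of `T2`
  have s4 : ∑ t ∈ TT.filter
      (fun t => ¬ ((univ.filter (fun i => α i ≤ t - W)).card : ℝ) ≤ δ * m / 2), net t ≤
      ∑ i, ∑ j, ((max 0 (-(α i + β j)) : ℤ) : ℝ) := by
    have h5 : ∀ t ∈ TT.filter
      (fun t => ¬ ((univ.filter (fun i => α i ≤ t - W)).card : ℝ) ≤ δ * m / 2), net t ≤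
        ((univ.filter (fun i => α i ≤ t - W)).card : ℝ) *
          ((univ.filter (fun j => β j < (W : ℤ) - t)).card : ℝ) := by
      intro t ht
      rw [mem_filter, hTT] at ht
      unfold T0 at ht
      rw [mem_filter, not_le] at ht
      have h6 := ht.1.2.2
      have h7 := ht.2
      have h8 := net_le hr (univ.filter (fun i => t < α i))
        (univ.filter (fun j => (W : ℤ) - t ≤ β j))
      have h9 := hr.QB (univ.filter (fun i => t < α i)) (univ.filter (fun j => (W : ℤ) - t ≤ β j))
      have h10 : net t ≤ (δ ^ 3 / 8 * m ^ 2 + δ ^ 3 / 8 * m ^ 2) / κ := by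
        refine h8.trans (div_le_div_of_nonneg_right ?_ hκ.le)
        have : lam * (m : ℝ) ^ 2 ≤ δ ^ 3 / 8 * m ^ 2 :=
          mul_le_mul_of_nonneg_right hr.lam1 (by positivity)
        linarith
      have h11 : (δ ^ 3 / 8 * (m : ℝ) ^ 2 + δ ^ 3 / 8 * m ^ 2) / κ ≤ (δ * m / 2) * (δ * m / 2) := by
        rw [div_le_iff₀ hκ]
        have h12 : (0 : ℝ) ≤ (δ * m / 2) * (δ * m / 2) := by positivity
        have h13 := mul_le_mul_of_nonneg_left hr.κδ h12
        nlinarith
      have h14 : (δ * m / 2) * (δ * m / 2) ≤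
          ((univ.filter (fun i => α i ≤ t - W)).card : ℝ) *
          ((univ.filter (fun j => β j < (W : ℤ) - t)).card : ℝ) :=
        mul_le_mul h7.le h6.le (by positivity) (Nat.cast_nonneg _)
      linarith
    refine (sum_le_sum h5).trans ?_
    have h15 : ∀ t ∈ Ico (-L) ((W : ℤ) + L), (0 : ℝ) ≤
        ((univ.filter (fun i => α i ≤ t - W)).card : ℝ) *
          ((univ.filter (fun j => β j < (W : ℤ) - t)).card : ℝ) := fun t _ => by positivity
    have h16 : TT.filter
      (fun t => ¬ ((univ.filter (fun i => α i ≤ t - W)).card : ℝ) ≤ δ * m / 2) ⊆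
        Ico (-L) ((W : ℤ) + L) := by
      rw [hTT]
      unfold T0
      exact (filter_subset _ _).trans (filter_subset _ _)
    refine (sum_le_sum_of_subset_of_nonneg h16 (fun t ht _ => h15 t ht)).trans ?_
    have h17 : ∀ t : ℤ, ((univ.filter (fun i => α i ≤ t - W)).card : ℝ) *
          ((univ.filter (fun j => β j < (W : ℤ) - t)).card : ℝ) =
        ∑ i, ∑ j, (if α i + W ≤ t ∧ t < W - β j then (1 : ℝ) else 0) := by
      intro t
      rw [card_filter, card_filter]
      push_cast
      rw [sum_mul_sum]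
      refine sum_congr rfl (fun i _ => sum_congr rfl (fun j _ => ?_))
      by_cases ha : α i ≤ t - W
      · by_cases hb : β j < (W : ℤ) - t
        · have hc : α i + W ≤ t ∧ t < W - β j := ⟨by omega, by omega⟩
          rw [if_pos ha, if_pos hb, if_pos hc, mul_one]
        · have hc : ¬ (α i + W ≤ t ∧ t < W - β j) := fun hc => hb (by omega)
          rw [if_neg hb, if_neg hc, mul_zero]
      · have hc : ¬ (α i + W ≤ t ∧ t < W - β j) := fun hc => ha (by omega)
        rw [if_neg ha, if_neg hc, zero_mul]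
    rw [sum_congr rfl (fun t _ => h17 t), sum_comm]
    refine sum_le_sum (fun i _ => ?_)
    rw [sum_comm]
    refine sum_le_sum (fun j _ => ?_)
    rw [slice_card]
    · have : (W : ℤ) - β j - (α i + W) = -(α i + β j) := by ring
      rw [this]
    · have := abs_le.1 (hα i)
      omega
    · have := abs_le.1 (hβ j)
      omega
  linarith

end Pool.Agent.Helper34.AE
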