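import Pool.Agent.Helper34.AE.Int3

set_option autoImplicit false

namespace Pool.Agent.Helper34.AE

open Finset

/-- the combined integer test function -/
def Phi {m : ℕ} (G K : ℕ) (ω : ℕ → ℕ) (S : ℕ → ℕ → Finset (Fin m × Fin m)) (i j : Fin m) : ℤ :=
  ∑ g ∈ range G, (ω g : ℤ) * ∑ x ∈ range K, if (i, j) ∈ S g x then 1 else 0

variable {m : ℕ}

/-- one level of the test function -/
def phi (K : ℕ) (ω : ℕ → ℕ) (S : ℕ → ℕ → Finset (Fin m × Fin m)) (i j : Fin m) (g : ℕ) : ℤ :=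
  (ω g : ℤ) * ∑ x ∈ range K, if (i, j) ∈ S g x then 1 else 0

theorem phi_nonneg (K : ℕ) (ω : ℕ → ℕ) (S : ℕ → ℕ → Finset (Fin m × Fin m)) (i j : Fin m)
    (g : ℕ) : 0 ≤ phi K ω S i j g := by
  unfold phi
  exact mul_nonneg (by positivity) (sum_nonneg (fun x _ => by split_ifs <;> norm_num))

theorem phi_le (K : ℕ) (ω : ℕ → ℕ) (S : ℕ → ℕ → Finset (Fin m × Fin m)) (i j : Fin m)
    (g : ℕ) : phi K ω S i j g ≤ ((K * ω g : ℕ) : ℤ) := by
  unfold phi
  have h1 : ∑ x ∈ range K, (if (i, j) ∈ S g x then (1 : ℤ) else 0) ≤ K := by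
    calc ∑ x ∈ range K, (if (i, j) ∈ S g x then (1 : ℤ) else 0) ≤ ∑ x ∈ range K, (1 : ℤ) :=
          sum_le_sum (fun x _ => by split_ifs <;> norm_num)
      _ = K := by simp
  push_cast
  rw [mul_comm]
  exact mul_le_mul_of_nonneg_right h1 (by positivity)

/-- Labels carrying the cells of all sets of levels `≤ g`. -/
theorem labels (G K k : ℕ) (R : ℕ → ℕ) (hR1 : ∀ g, R g ≤ R (g + 1))
    (S : ℕ → ℕ → Finset (Fin m × Fin m)) (hS : ∀ g < G, ∀ x < K, IsStep (R g) (S g x))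
    (ρ χ : Fin m → Fin k) (g : ℕ) (hg : g < G) :
    ∃ ρ' χ' : Fin m → Fin k × (Fin ((g + 1) * K) → Fin (R g)),
      (∀ i i', ρ' i = ρ' i' → ρ i = ρ i') ∧ (∀ j j', χ' j = χ' j' → χ j = χ j') ∧
      (∀ i j i' j', ρ' i = ρ' i' → χ' j = χ' j' → ∀ h ≤ g, ∀ x < K,
        ((i, j) ∈ S h x ↔ (i', j') ∈ S h x)) := by
  classical
  have hmono : Monotone R := monotone_nat_of_le_succ hR1
  have hS' : ∀ (h x : ℕ), ∃ ρ χ : Fin m → ℕ, h < G → x < K → ((∀ i, ρ i < R h) ∧ (∀ j, χ j < R h) ∧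
    ∀ i j i' j', ρ i = ρ i' → χ j = χ j' → ((i, j) ∈ S h x ↔ (i', j') ∈ S h x)) := by
    intro h x
    by_cases h1 : h < G
    · by_cases h2 : x < K
      · obtain ⟨a, b, hab⟩ := hS h h1 x h2
        exact ⟨a, b, fun _ _ => hab⟩
      · exact ⟨fun _ => 0, fun _ => 0, fun _ h3 => absurd h3 h2⟩
    · exact ⟨fun _ => 0, fun _ => 0, fun h3 => absurd h3 h1⟩
  choose a b hab using hS'
  have key : ∀ y : Fin ((g + 1) * K), (y : ℕ) / K ≤ g ∧ (y : ℕ) % K < K := by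
    intro y
    have hy := y.isLt
    have hK : 0 < K := by
      rcases Nat.eq_zero_or_pos K with h | h
      · simp [h] at hy
      · exact h
    refine ⟨?_, Nat.mod_lt _ hK⟩
    have : (y : ℕ) / K < g + 1 := by
      rw [Nat.div_lt_iff_lt_mul hK]
      exact hy
    omega
  refine ⟨fun i => (ρ i, fun y => ⟨a (y / K) (y % K) i, ?_⟩),
    fun j => (χ j, fun y => ⟨b (y / K) (y % K) j, ?_⟩), ?_, ?_, ?_⟩
  · obtain ⟨h1, h2⟩ := key y
    exact ((hab _ _ (by omega) h2).1 i).trans_le (hmono h1)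
  · obtain ⟨h1, h2⟩ := key y
    exact ((hab _ _ (by omega) h2).2.1 j).trans_le (hmono h1)
  · intro i i' h
    exact (Prod.mk.inj h).1
  · intro i i' h
    exact (Prod.mk.inj h).1
  · intro i j i' j' h1 h2 h hh x hx
    have hK : 0 < K := by omega
    have hy : h * K + x < (g + 1) * K := by
      calc h * K + x < h * K + K := by omega
        _ = (h + 1) * K := by ring
        _ ≤ (g + 1) * K := Nat.mul_le_mul_right _ (by omega)
    have e1 := congrFun (Prod.mk.inj h1).2 ⟨h * K + x, hy⟩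
    have e2 := congrFun (Prod.mk.inj h2).2 ⟨h * K + x, hy⟩
    have d1 : (h * K + x) / K = h := by
      rw [mul_comm, Nat.mul_add_div hK, Nat.div_eq_of_lt hx, add_zero]
    have d2 : (h * K + x) % K = x := by
      rw [mul_comm, Nat.mul_add_mod, Nat.mod_eq_of_lt hx]
    simp only [d1, d2, Fin.mk.injEq] at e1 e2
    exact (hab h x (by omega) hx).2.2 i j i' j' e1 e2

theorem card_labels (g K k : ℕ) (R : ℕ → ℕ) (hR : ∀ g, k * R g ^ ((g + 1) * K) ≤ R (g + 1)) :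
    Fintype.card (Fin k × (Fin ((g + 1) * K) → Fin (R g))) ≤ R (g + 1) := by
  rw [Fintype.card_prod, Fintype.card_fun, Fintype.card_fin, Fintype.card_fin, Fintype.card_fin]
  exact hR g

section
variable {H : Fin m → Fin m → Prop} [∀ i j, Decidable (H i j)] {Q : Fin m → Fin m → ℝ}
  {κ δ lam : ℝ}

theorem int_core (hr : Resp m H Q κ δ lam) (G K k : ℕ) (hk : 0 < k)
    (R : ℕ → ℕ) (hR : ∀ g, k * R g ^ ((g + 1) * K) ≤ R (g + 1))
    (hR0 : 0 < R 0) (hR1 : ∀ g, R g ≤ R (g + 1)) (b : ℕ → ℝ)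
    (hb : ∀ g < G, ∀ S : Finset (Fin m × Fin m), IsStep (R (g + 1)) S →
      ∑ p ∈ S, (Q p.1 p.2 - (1 - κ)) ≤ b (g + 1) * m ^ 2)
    (α β : Fin m → ℤ) (ω : ℕ → ℕ) (S : ℕ → ℕ → Finset (Fin m × Fin m))
    (hS : ∀ g < G, ∀ x < K, IsStep (R g) (S g x))
    (ρ χ : Fin m → Fin k) (α' β' : Fin m → ℤ)
    (hρ : ∀ i i', ρ i = ρ i' → α' i = α' i') (hχ : ∀ j j', χ j = χ j' → β' j = β' j')
    (hα : ∀ i, α' i ≤ α i) (hβ : ∀ j, β' j ≤ β j)
    (hφ : ∀ (φ : ℤ → ℤ → ℝ) (W : ℝ), (∀ a a' b b', a ≤ a' → b ≤ b' → φ a b ≤ φ a' b') →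
        (∀ a b, 0 ≤ φ a b) → (∀ a b, φ a b ≤ W) →
        ∑ i, ∑ j, (φ (α i) (β j) - φ (α' i) (β' j)) ≤ 8 * W * m ^ 2 / k) :
    ∑ i, ∑ j, ((α i + β j - Phi G K ω S i j : ℤ) : ℝ) -
      2 / δ * ∑ i, ∑ j, (if H i j then ((max 0 (α i + β j - Phi G K ω S i j) : ℤ) : ℝ) else 0) ≤
    m ^ 2 * ∑ g ∈ range G, (K * ω g : ℝ) *
      (b (g + 1) / κ + (32 / (δ ^ 2 * k) + 2 * (R G : ℝ) ^ 2 * lam / δ)) := by
  classical
  have hδ := hr.δ0
  have hκ := hr.κ0
  have hm := hr.m0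
  have hlam := hr.lam0
  have hk0 : (0 : ℝ) < k := by exact_mod_cast hk
  obtain ⟨w, hw⟩ : ∃ w : ℕ → ℕ, w = fun g => K * ω g := ⟨_, rfl⟩
  obtain ⟨W, hW⟩ : ∃ W : ℕ, W = ∑ g ∈ range G, w g := ⟨_, rfl⟩
  have hWz : (W : ℤ) = ∑ g ∈ range G, (w g : ℤ) := by rw [hW]; push_cast; rfl
  have hPhi : ∀ i j, Phi G K ω S i j = ∑ g ∈ range G, phi K ω S i j g := fun i j => rfl
  have hP0 : ∀ i j, 0 ≤ Phi G K ω S i j := by
    intro i j
    rw [hPhi]
    exact sum_nonneg (fun g _ => phi_nonneg K ω S i j g)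
  have hPW : ∀ i j, Phi G K ω S i j ≤ W := by
    intro i j
    rw [hPhi, hWz]
    refine sum_le_sum (fun g _ => ?_)
    rw [hw]
    exact phi_le K ω S i j g
  -- a bound for the potentials
  obtain ⟨L, hLα, hLβ⟩ : ∃ L : ℤ, (∀ i, |α i| ≤ L) ∧ (∀ j, |β j| ≤ L) := by
    refine ⟨∑ i, |α i| + ∑ j, |β j|, ?_, ?_⟩
    · intro i
      have h1 := single_le_sum (f := fun i => |α i|) (fun i _ => abs_nonneg _) (mem_univ i)
      have h2 : 0 ≤ ∑ j, |β j| := sum_nonneg (fun j _ => abs_nonneg _)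
      linarith
    · intro j
      have h1 := single_le_sum (f := fun j => |β j|) (fun j _ => abs_nonneg _) (mem_univ j)
      have h2 : 0 ≤ ∑ i, |α i| := sum_nonneg (fun j _ => abs_nonneg _)
      linarith
  set TA := T1 (m := m) δ α β W (-L) (W + L) with hTA
  have hTAc : TA.card ≤ W := T1_card α β W (-L) (W + L)
  -- clipped functions
  set fc : ℤ → ℤ → ℤ := fun a b => max 0 (min (a + b) W) with hfc
  set X : Fin m → Fin m → ℤ := fun i j => max 0 (fc (α i) (β j) - Phi G K ω S i j) with hX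
  set X' : Fin m → Fin m → ℤ := fun i j => max 0 (fc (α' i) (β' j) - Phi G K ω S i j) with hX'
  set Z : Fin m → Fin m → ℤ := fun i j => Zf TA W (α i) (β j) with hZ
  set Z' : Fin m → Fin m → ℤ := fun i j => Zf TA W (α' i) (β' j) with hZ'
  have hYpart := partY hr α β W L hLα hLβ
  rw [← hTA] at hYpart
  -- the noise of the clipped function
  have hXX' : ∀ i j, X' i j ≤ X i j := by
    intro i j
    have h1 := hα i
    have h2 := hβ j
    simp only [hX, hX', hfc]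
    omega
  have hn1 : ∑ i, ∑ j, ((X i j : ℝ) - X' i j) ≤ 8 * W * m ^ 2 / k := by
    have h1 := hφ (fun a b => ((fc a b : ℤ) : ℝ)) W (by
      intro a a' b b' h1 h2
      have : fc a b ≤ fc a' b' := by simp only [hfc]; omega
      exact_mod_cast this) (by
      intro a b
      have : 0 ≤ fc a b := by simp only [hfc]; omega
      exact_mod_cast this) (by
      intro a b
      have : fc a b ≤ W := by simp only [hfc]; omega
      exact_mod_cast this)
    refine (sum_le_sum (fun i _ => sum_le_sum (fun j _ => ?_))).trans h1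
    have h2 : X i j - X' i j ≤ fc (α i) (β j) - fc (α' i) (β' j) := by
      have h3 := hα i
      have h4 := hβ j
      have h5 := hP0 i j
      simp only [hX, hX', hfc]
      omega
    exact_mod_cast h2
  have hn2 : ∑ i, ∑ j, ((Z' i j : ℝ) - Z i j) ≤ 8 * W * m ^ 2 / k := by
    have h1 := hφ (fun a b => (W : ℝ) - ((Zf TA W a b : ℤ) : ℝ)) W (by
      intro a a' b b' h1 h2
      have : Zf TA W a' b' ≤ Zf TA W a b := Zf_anti TA W h1 h2
      have h3 : ((Zf TA W a' b' : ℤ) : ℝ) ≤ ((Zf TA W a b : ℤ) : ℝ) := by exact_mod_cast this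
      linarith) (by
      intro a b
      have : Zf TA W a b ≤ W := by
        have := Zf_le TA W hTAc a b
        omega
      have h3 : ((Zf TA W a b : ℤ) : ℝ) ≤ W := by exact_mod_cast this
      linarith) (by
      intro a b
      have : 0 ≤ Zf TA W a b := Zf_nonneg TA W a b
      have h3 : (0 : ℝ) ≤ ((Zf TA W a b : ℤ) : ℝ) := by exact_mod_cast this
      linarith)
    refine le_trans (le_of_eq ?_) h1
    refine sum_congr rfl (fun i _ => sum_congr rfl (fun j _ => ?_))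
    simp only [hZ, hZ']
    ring
  have hZZ' : ∀ i j, Z i j ≤ Z' i j := fun i j => Zf_anti TA W (hα i) (hβ j)
  -- part X
  have hHX : ∑ i, ∑ j, (1 - Q i j) * (X' i j : ℝ) - (R G : ℝ) ^ 2 * (lam * m ^ 2) * W ≤
      ∑ i, ∑ j, (if H i j then (X' i j : ℝ) else 0) := by
    rcases Nat.eq_zero_or_pos G with hG | hG
    · have hW0 : W = 0 := by rw [hW, hG]; simp
      have hX0 : ∀ i j, X' i j = 0 := by
        intro i j
        have := hP0 i j
        simp only [hX', hfc, hW0]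
        omega
      simp only [hX0, hW0]
      simp
    · obtain ⟨ρ', χ', h1, h2, h3⟩ := labels G K k R hR1 S hS ρ χ (G - 1) (by omega)
      have hc := card_labels (G - 1) K k R hR
      have hG1 : G - 1 + 1 = G := by omega
      rw [hG1] at hc
      refine step_H (R G) ρ' χ' (by rw [hG1]; exact hc) (by rw [hG1]; exact hc) H Q
        (lam * m ^ 2) (by positivity) hr.HB W X' ?_ ?_ ?_
      · intro i j
        simp only [hX']
        omega
      · intro i j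
        have := hP0 i j
        simp only [hX', hfc]
        omega
      · intro i j i' j' h4 h5
        have e1 : α' i = α' i' := hρ i i' (h1 i i' h4)
        have e2 : β' j = β' j' := hχ j j' (h2 j j' h5)
        have e3 : Phi G K ω S i j = Phi G K ω S i' j' := by
          unfold Phi
          refine sum_congr rfl (fun g hg => ?_)
          congr 1
          refine sum_congr rfl (fun x hx => ?_)
          have := h3 i j i' j' h4 h5 g (by rw [mem_range] at hg; omega) x (mem_range.1 hx)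
          simp only [this]
        simp only [hX', e1, e2, e3]
  -- level decomposition
  have hTT : ∑ i, ∑ j, (Q i j - (1 - κ)) * ((X' i j : ℝ) + Z' i j) ≤
      ∑ g ∈ range G, (w g : ℝ) * (b (g + 1) * m ^ 2) := by
    set Tgf : ℕ → Fin m → Fin m → ℤ := fun g i j =>
      Tg w W (fc (α' i) (β' j)) (Z' i j) (phi K ω S i j) g with hTgf
    have hfc0 : ∀ a b, 0 ≤ fc a b := by intro a b; simp only [hfc]; omega
    have hfcW : ∀ a b, fc a b ≤ W := by intro a b; simp only [hfc]; omega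
    have hZ'0 : ∀ i j, 0 ≤ Z' i j := fun i j => Zf_nonneg TA W _ _
    have hZ'1 : ∀ i j, Z' i j ≤ W - fc (α' i) (β' j) := fun i j => Zf_le TA W hTAc _ _
    have e1 : ∀ i j, X' i j + Z' i j = ∑ g ∈ range G, Tgf g i j := by
      intro i j
      rw [hTgf]
      simp only
      rw [Tg_sum w W (fc (α' i) (β' j)) (Z' i j) (phi K ω S i j) G hWz (hfcW _ _) (hZ'0 i j)
        (by have := hZ'1 i j; have := hfc0 (α' i) (β' j); omega)]
      rw [← hPhi]
    have e2 : ∑ i, ∑ j, (Q i j - (1 - κ)) * ((X' i j : ℝ) + Z' i j) =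
        ∑ g ∈ range G, ∑ i, ∑ j, (Q i j - (1 - κ)) * (Tgf g i j : ℝ) := by
      have e3 : ∀ i j, (Q i j - (1 - κ)) * ((X' i j : ℝ) + Z' i j) =
          ∑ g ∈ range G, (Q i j - (1 - κ)) * (Tgf g i j : ℝ) := by
        intro i j
        rw [← mul_sum]
        congr 1
        have := e1 i j
        exact_mod_cast this
      simp only [e3]
      rw [sum_congr rfl (fun i _ => sum_comm), sum_comm]
    rw [e2]
    refine sum_le_sum (fun g hg => ?_)
    rw [mem_range] at hg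
    obtain ⟨ρ', χ', h1, h2, h3⟩ := labels G K k R hR1 S hS ρ χ g hg
    have hc := card_labels g K k R hR
    refine step_sum_le (R (g + 1)) ρ' χ' hc hc (fun i j => Q i j - (1 - κ)) _
      (hb g hg) (w g) (Tgf g) ?_ ?_ ?_
    · intro i j
      exact (Tg_bounds w W _ _ _ g (fun h _ => phi_nonneg K ω S i j h)
        (by rw [hw]; exact phi_le K ω S i j g) (hZ'0 i j) (hZ'1 i j)).1
    · intro i j
      exact (Tg_bounds w W _ _ _ g (fun h _ => phi_nonneg K ω S i j h)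
        (by rw [hw]; exact phi_le K ω S i j g) (hZ'0 i j) (hZ'1 i j)).2
    · intro i j i' j' h4 h5
      have e1 : α' i = α' i' := hρ i i' (h1 i i' h4)
      have e2 : β' j = β' j' := hχ j j' (h2 j j' h5)
      have e3 : ∀ x ≤ g, phi K ω S i j x = phi K ω S i' j' x := by
        intro y hy
        unfold phi
        congr 1
        refine sum_congr rfl (fun x hx => ?_)
        have := h3 i j i' j' h4 h5 y hy x (mem_range.1 hx)
        simp only [this]
      simp only [hTgf, hZ', e1, e2]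
      exact Tg_congr w W _ _ _ _ g e3
  -- the noise of `Z`
  have hZn : ∑ i, ∑ j, (Q i j - (1 - κ)) * (Z i j : ℝ) ≤
      ∑ i, ∑ j, (Q i j - (1 - κ)) * (Z' i j : ℝ) + 8 * W * m ^ 2 / k := by
    have h1 : ∑ i, ∑ j, ((Q i j - (1 - κ)) * (Z i j : ℝ) - (Q i j - (1 - κ)) * (Z' i j : ℝ)) ≤
        ∑ i, ∑ j, ((Z' i j : ℝ) - Z i j) := by
      refine sum_le_sum (fun i _ => sum_le_sum (fun j _ => ?_))
      have h2 := hr.Q0 i j
      have h3 : (Z i j : ℝ) ≤ Z' i j := by exact_mod_cast hZZ' i j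
      have h4 := hr.κ0
      nlinarith
    have e1 : ∑ i, ∑ j, ((Q i j - (1 - κ)) * (Z i j : ℝ) - (Q i j - (1 - κ)) * (Z' i j : ℝ)) =
        ∑ i, ∑ j, (Q i j - (1 - κ)) * (Z i j : ℝ) -
          ∑ i, ∑ j, (Q i j - (1 - κ)) * (Z' i j : ℝ) := by
      simp only [sum_sub_distrib]
    rw [e1] at h1
    linarith
  -- assemble
  have hcell : ∀ i j, ((α i + β j - Phi G K ω S i j : ℤ) : ℝ) ≤
      (X i j : ℝ) + ((max 0 (α i + β j - W) : ℤ) : ℝ) - ((max 0 (-(α i + β j)) : ℤ) : ℝ) := by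
    intro i j
    have h1 := hP0 i j
    have h2 := hPW i j
    have : α i + β j - Phi G K ω S i j ≤ X i j + max 0 (α i + β j - W) - max 0 (-(α i + β j)) := by
      simp only [hX, hfc]
      omega
    exact_mod_cast this
  have hcell2 : ∀ i j, max 0 (α i + β j - Phi G K ω S i j) = X i j + max 0 (α i + β j - W) := by
    intro i j
    have h1 := hP0 i j
    have h2 := hPW i j
    simp only [hX, hfc]
    omega
  have hmain : ∑ i, ∑ j, ((α i + β j - Phi G K ω S i j : ℤ) : ℝ) -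
      2 / δ * ∑ i, ∑ j, (if H i j then ((max 0 (α i + β j - Phi G K ω S i j) : ℤ) : ℝ) else 0) ≤
      (∑ i, ∑ j, (X i j : ℝ) - 2 / δ * ∑ i, ∑ j, (if H i j then (X i j : ℝ) else 0)) +
      (∑ i, ∑ j, (1 - 2 / δ * (if H i j then (1 : ℝ) else 0)) *
        ((max 0 (α i + β j - W) : ℤ) : ℝ) - ∑ i, ∑ j, ((max 0 (-(α i + β j)) : ℤ) : ℝ)) := by
    simp only [mul_sum, ← sum_sub_distrib, ← sum_add_distrib]
    refine sum_le_sum (fun i _ => sum_le_sum (fun j _ => ?_))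
    rw [hcell2 i j]
    have h1 := hcell i j
    push_cast at h1 ⊢
    split_ifs <;> linarith
  have hXb : ∑ i, ∑ j, (X i j : ℝ) - 2 / δ * ∑ i, ∑ j, (if H i j then (X i j : ℝ) else 0) ≤
      (∑ i, ∑ j, (Q i j - (1 - κ)) * (X' i j : ℝ) + (R G : ℝ) ^ 2 * (lam * m ^ 2) * W) / κ +
        8 * W * m ^ 2 / k := by
    have h1 : ∑ i, ∑ j, (if H i j then (X' i j : ℝ) else 0) ≤
        ∑ i, ∑ j, (if H i j then (X i j : ℝ) else 0) := by
      refine sum_le_sum (fun i _ => sum_le_sum (fun j _ => ?_))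
      split_ifs
      · exact_mod_cast hXX' i j
      · exact le_rfl
    have h2 : 0 ≤ ∑ i, ∑ j, (if H i j then (X' i j : ℝ) else 0) := by
      refine sum_nonneg (fun i _ => sum_nonneg (fun j _ => ?_))
      split_ifs
      · have : 0 ≤ X' i j := by simp only [hX']; omega
        exact_mod_cast this
      · exact le_rfl
    set s := ∑ i, ∑ j, (if H i j then (X' i j : ℝ) else 0) with hs
    have h3 : s / κ ≤ 2 / δ * s := by
      rw [div_le_iff₀ hκ]
      have h4 : 1 ≤ 2 / δ * κ := by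
        rw [div_mul_eq_mul_div, le_div_iff₀ hδ]
        linarith [hr.κδ]
      calc s = 1 * s := (one_mul _).symm
        _ ≤ (2 / δ * κ) * s := mul_le_mul_of_nonneg_right h4 h2
        _ = _ := by ring
    have h5 : 2 / δ * s ≤ 2 / δ * ∑ i, ∑ j, (if H i j then (X i j : ℝ) else 0) :=
      mul_le_mul_of_nonneg_left h1 (by positivity)
    have e1 : ∑ i, ∑ j, ((X i j : ℝ) - X' i j) = ∑ i, ∑ j, (X i j : ℝ) - ∑ i, ∑ j, (X' i j : ℝ) := by
      simp only [sum_sub_distrib]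
    have e2 : ∑ i, ∑ j, (Q i j - (1 - κ)) * (X' i j : ℝ) = κ * ∑ i, ∑ j, (X' i j : ℝ) -
        ∑ i, ∑ j, (1 - Q i j) * (X' i j : ℝ) := by
      simp only [mul_sum, ← sum_sub_distrib]
      refine sum_congr rfl (fun i _ => sum_congr rfl (fun j _ => ?_))
      ring
    rw [e1] at hn1
    have h6 : (∑ i, ∑ j, (1 - Q i j) * (X' i j : ℝ) - (R G : ℝ) ^ 2 * (lam * m ^ 2) * W) / κ ≤
        s / κ := div_le_div_of_nonneg_right hHX hκ.le
    have e3 : (∑ i, ∑ j, (Q i j - (1 - κ)) * (X' i j : ℝ) + (R G : ℝ) ^ 2 * (lam * m ^ 2) * W) / κ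
        = ∑ i, ∑ j, (X' i j : ℝ) -
        (∑ i, ∑ j, (1 - Q i j) * (X' i j : ℝ) - (R G : ℝ) ^ 2 * (lam * m ^ 2) * W) / κ := by
      rw [e2]
      field_simp
      ring
    rw [e3]
    linarith
  have hfin : ∑ i, ∑ j, ((α i + β j - Phi G K ω S i j : ℤ) : ℝ) -
      2 / δ * ∑ i, ∑ j, (if H i j then ((max 0 (α i + β j - Phi G K ω S i j) : ℤ) : ℝ) else 0) ≤
      (∑ g ∈ range G, (w g : ℝ) * (b (g + 1) * m ^ 2)) / κ +
      ((R G : ℝ) ^ 2 * (lam * m ^ 2) * W / κ + 8 * W * m ^ 2 / k + 8 * W * m ^ 2 / k / κ +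
        W * (lam * m ^ 2) / κ) := by
    refine hmain.trans ((add_le_add hXb hYpart).trans ?_)
    have e4 : ∑ i, ∑ j, (Q i j - (1 - κ)) * ((X' i j : ℝ) + Z' i j) =
        ∑ i, ∑ j, (Q i j - (1 - κ)) * (X' i j : ℝ) + ∑ i, ∑ j, (Q i j - (1 - κ)) * (Z' i j : ℝ) := by
      simp only [mul_add, sum_add_distrib]
    rw [e4] at hTT
    have h7 : (∑ i, ∑ j, (Q i j - (1 - κ)) * (X' i j : ℝ) + (R G : ℝ) ^ 2 * (lam * m ^ 2) * W) / κ +
        8 * W * m ^ 2 / k +
        (∑ i, ∑ j, (Q i j - (1 - κ)) * (Z i j : ℝ) + W * (lam * m ^ 2)) / κ ≤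
        (∑ g ∈ range G, (w g : ℝ) * (b (g + 1) * m ^ 2) + (R G : ℝ) ^ 2 * (lam * m ^ 2) * W +
          8 * W * m ^ 2 / k + W * (lam * m ^ 2)) / κ + 8 * W * m ^ 2 / k := by
      have h8 : (∑ i, ∑ j, (Q i j - (1 - κ)) * (X' i j : ℝ) +
          (R G : ℝ) ^ 2 * (lam * m ^ 2) * W) / κ +
          (∑ i, ∑ j, (Q i j - (1 - κ)) * (Z i j : ℝ) + W * (lam * m ^ 2)) / κ ≤
          (∑ g ∈ range G, (w g : ℝ) * (b (g + 1) * m ^ 2) + (R G : ℝ) ^ 2 * (lam * m ^ 2) * W +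
          8 * W * m ^ 2 / k + W * (lam * m ^ 2)) / κ := by
        rw [← add_div]
        refine div_le_div_of_nonneg_right ?_ hκ.le
        linarith
      linarith
    refine h7.trans (le_of_eq ?_)
    ring
  refine hfin.trans ?_
  have hWr : (W : ℝ) = ∑ g ∈ range G, (K * ω g : ℝ) := by
    rw [hW, hw]; push_cast; rfl
  have e5 : (m : ℝ) ^ 2 * ∑ g ∈ range G, (K * ω g : ℝ) *
      (b (g + 1) / κ + (32 / (δ ^ 2 * k) + 2 * (R G : ℝ) ^ 2 * lam / δ)) =
      (∑ g ∈ range G, (w g : ℝ) * (b (g + 1) * m ^ 2)) / κ +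
        m ^ 2 * (W * (32 / (δ ^ 2 * k) + 2 * (R G : ℝ) ^ 2 * lam / δ)) := by
    have e6 : ∀ g ∈ range G, (K * ω g : ℝ) *
        (b (g + 1) / κ + (32 / (δ ^ 2 * k) + 2 * (R G : ℝ) ^ 2 * lam / δ)) =
        (K * ω g : ℝ) * b (g + 1) / κ +
          (K * ω g : ℝ) * (32 / (δ ^ 2 * k) + 2 * (R G : ℝ) ^ 2 * lam / δ) := by
      intro g _
      ring
    rw [sum_congr rfl e6, sum_add_distrib, ← sum_mul, ← hWr, mul_add, sum_div, mul_sum]
    congr 1
    refine sum_congr rfl (fun g _ => ?_)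
    rw [hw]
    push_cast
    ring
  rw [e5]
  refine add_le_add le_rfl ?_
  have hRG : (1 : ℝ) ≤ (R G : ℝ) := by
    have hmono : Monotone R := monotone_nat_of_le_succ hR1
    have : 1 ≤ R G := le_trans hR0 (hmono (Nat.zero_le G))
    exact_mod_cast this
  have hW0 : (0 : ℝ) ≤ W := Nat.cast_nonneg _
  have hMW : (0 : ℝ) ≤ (m : ℝ) ^ 2 * W := by positivity
  have hδ1 := hr.δ1
  have hκδ := hr.κδ
  have b1 : (R G : ℝ) ^ 2 * (lam * m ^ 2) * W / κ ≤ (m : ℝ) ^ 2 * W * ((R G : ℝ) ^ 2 * lam / δ) := by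
    have : (R G : ℝ) ^ 2 * (lam * m ^ 2) * W / κ = (m : ℝ) ^ 2 * W * ((R G : ℝ) ^ 2 * lam / κ) := by
      ring
    rw [this]
    refine mul_le_mul_of_nonneg_left ?_ hMW
    exact div_le_div_of_nonneg_left (by positivity) hδ hκδ
  have b2 : (W : ℝ) * (lam * m ^ 2) / κ ≤ (m : ℝ) ^ 2 * W * ((R G : ℝ) ^ 2 * lam / δ) := by
    have : (W : ℝ) * (lam * m ^ 2) / κ = (m : ℝ) ^ 2 * W * (lam / κ) := by ring
    rw [this]
    refine mul_le_mul_of_nonneg_left ?_ hMW
    calc lam / κ ≤ lam / δ := div_le_div_of_nonneg_left hlam.le hδ hκδ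
      _ ≤ (R G : ℝ) ^ 2 * lam / δ := by
        refine div_le_div_of_nonneg_right ?_ hδ.le
        nlinarith [one_le_pow₀ hRG (n := 2)]
  have b3 : 8 * (W : ℝ) * m ^ 2 / k ≤ (m : ℝ) ^ 2 * W * (8 / (δ ^ 2 * k)) := by
    have : 8 * (W : ℝ) * m ^ 2 / k = (m : ℝ) ^ 2 * W * (8 / k) := by ring
    rw [this]
    refine mul_le_mul_of_nonneg_left ?_ hMW
    refine div_le_div_of_nonneg_left (by norm_num) (by positivity) ?_
    have : δ ^ 2 ≤ 1 := pow_le_one₀ hδ.le hδ1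
    nlinarith
  have b4 : 8 * (W : ℝ) * m ^ 2 / k / κ ≤ (m : ℝ) ^ 2 * W * (8 / (δ ^ 2 * k)) := by
    have : 8 * (W : ℝ) * m ^ 2 / k / κ = (m : ℝ) ^ 2 * W * (8 / (κ * k)) := by
      field_simp
    rw [this]
    refine mul_le_mul_of_nonneg_left ?_ hMW
    refine div_le_div_of_nonneg_left (by norm_num) (by positivity) ?_
    refine mul_le_mul_of_nonneg_right ?_ hk0.le
    nlinarith
  have e6 : (m : ℝ) ^ 2 * (W * (32 / (δ ^ 2 * k) + 2 * (R G : ℝ) ^ 2 * lam / δ)) =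
      (m : ℝ) ^ 2 * W * ((R G : ℝ) ^ 2 * lam / δ) + (m : ℝ) ^ 2 * W * ((R G : ℝ) ^ 2 * lam / δ) +
      (m : ℝ) ^ 2 * W * (8 / (δ ^ 2 * k)) + (m : ℝ) ^ 2 * W * (8 / (δ ^ 2 * k)) +
      (m : ℝ) ^ 2 * W * (16 / (δ ^ 2 * k)) := by
    field_simp
    ring
  rw [e6]
  have b5 : 0 ≤ (m : ℝ) ^ 2 * W * (16 / (δ ^ 2 * k)) := by positivity
  linarith

end

end Pool.Agent.Helper34.AE
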