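import Mathlib

set_option autoImplicit false

namespace Pool.Agent.Helper34.AE

open Finset

theorem maurey {κ ι : Type} [Fintype κ] [Fintype ι] (w : ι → ℝ) (hw : ∀ t, 0 ≤ w t)
    (hW : 0 < ∑ t, w t) (A : ι → κ → ℝ) (hA0 : ∀ t x, 0 ≤ A t x) (hA1 : ∀ t x, A t x ≤ 1)
    (K : ℕ) (hK : 0 < K) :
    ∃ s : ℕ → ι, ∑ x, |∑ t, w t * A t x - (∑ t, w t) / K * ∑ k ∈ range K, A (s k) x| ≤
      (∑ t, w t) * Fintype.card κ / Real.sqrt K := by
  classical
  obtain ⟨W, hWd⟩ : ∃ W : ℝ, W = ∑ t, w t := ⟨_, rfl⟩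
  rw [← hWd] at hW ⊢
  obtain ⟨p, hp⟩ : ∃ p : κ → ℝ, p = fun x => (∑ t, w t * A t x) / W := ⟨_, rfl⟩
  have hp0 : ∀ x, 0 ≤ p x := fun x => by
    rw [hp]
    exact div_nonneg (sum_nonneg (fun t _ => mul_nonneg (hw t) (hA0 t x))) hW.le
  have hp1 : ∀ x, p x ≤ 1 := fun x => by
    rw [hp]
    simp only
    rw [div_le_one hW, hWd]
    exact sum_le_sum (fun t _ => by
      have := mul_le_mul_of_nonneg_left (hA1 t x) (hw t)
      linarith)
  have hpW : ∀ x, ∑ t, w t * A t x = W * p x := fun x => by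
    rw [hp]
    field_simp
  -- choice
  have hch : ∀ E : κ → ℝ, ∃ t, ∑ x, E x * (A t x - p x) ≤ 0 := by
    intro E
    by_contra hcon
    push Not at hcon
    have hz : ∑ t, w t * ∑ x, E x * (A t x - p x) = 0 := by
      calc ∑ t, w t * ∑ x, E x * (A t x - p x)
          = ∑ t, ∑ x, E x * (w t * A t x - w t * p x) := by
            refine sum_congr rfl (fun t _ => ?_)
            rw [mul_sum]
            refine sum_congr rfl (fun x _ => ?_)
            ring
        _ = ∑ x, ∑ t, E x * (w t * A t x - w t * p x) := sum_comm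
        _ = ∑ x, E x * (∑ t, w t * A t x - (∑ t, w t) * p x) := by
            refine sum_congr rfl (fun x _ => ?_)
            rw [← mul_sum, sum_sub_distrib, sum_mul]
        _ = 0 := by
            apply sum_eq_zero
            intro x _
            rw [hpW x, ← hWd, sub_self, mul_zero]
    have hnn : ∀ t ∈ (univ : Finset ι), 0 ≤ w t * ∑ x, E x * (A t x - p x) :=
      fun t _ => mul_nonneg (hw t) (hcon t).le
    have hz' := (sum_eq_zero_iff_of_nonneg hnn).1 hz
    have hw0 : ∀ t, w t = 0 := by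
      intro t
      rcases mul_eq_zero.1 (hz' t (mem_univ t)) with h | h
      · exact h
      · exact absurd h (hcon t).ne'
    rw [hWd] at hW
    simp [hw0] at hW
  obtain ⟨t0, _⟩ := hch (fun _ => 0)
  have hind : ∀ n : ℕ, ∃ s : ℕ → ι,
      ∑ x, (∑ k ∈ range n, (A (s k) x - p x)) ^ 2 ≤ n * Fintype.card κ := by
    intro n
    induction n with
    | zero => exact ⟨fun _ => t0, by simp⟩
    | succ n ih =>
      obtain ⟨s, hs⟩ := ih
      obtain ⟨t, ht⟩ := hch (fun x => ∑ k ∈ range n, (A (s k) x - p x))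
      refine ⟨Function.update s n t, ?_⟩
      have he : ∀ x, ∑ k ∈ range (n + 1), (A (Function.update s n t k) x - p x) =
          ∑ k ∈ range n, (A (s k) x - p x) + (A t x - p x) := by
        intro x
        rw [sum_range_succ, Function.update_self]
        congr 1
        refine sum_congr rfl (fun k hk => ?_)
        rw [Function.update_of_ne (mem_range.1 hk).ne]
      have hD : ∑ x, (A t x - p x) ^ 2 ≤ (Fintype.card κ : ℝ) := by
        calc ∑ x, (A t x - p x) ^ 2 ≤ ∑ _x : κ, (1 : ℝ) := by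
              refine sum_le_sum (fun x _ => ?_)
              have h1 := hA0 t x
              have h2 := hA1 t x
              have h3 := hp0 x
              have h4 := hp1 x
              nlinarith
          _ = Fintype.card κ := by simp
      calc ∑ x, (∑ k ∈ range (n + 1), (A (Function.update s n t k) x - p x)) ^ 2
          = ∑ x, (∑ k ∈ range n, (A (s k) x - p x)) ^ 2 +
              2 * ∑ x, (∑ k ∈ range n, (A (s k) x - p x)) * (A t x - p x) +
              ∑ x, (A t x - p x) ^ 2 := by
            rw [mul_sum, ← sum_add_distrib, ← sum_add_distrib]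
            refine sum_congr rfl (fun x _ => ?_)
            rw [he x]
            ring
        _ ≤ ((n + 1 : ℕ) : ℝ) * Fintype.card κ := by
            push_cast
            linarith
  obtain ⟨s, hs⟩ := hind K
  refine ⟨s, ?_⟩
  have hK' : (0 : ℝ) < K := by exact_mod_cast hK
  have hE : ∀ x, ∑ t, w t * A t x - W / K * ∑ k ∈ range K, A (s k) x =
      -(W / K) * ∑ k ∈ range K, (A (s k) x - p x) := by
    intro x
    rw [hpW x, sum_sub_distrib, sum_const, card_range, nsmul_eq_mul]
    field_simp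
    ring
  have hEs : ∑ x, |∑ t, w t * A t x - W / K * ∑ k ∈ range K, A (s k) x| =
      W / K * ∑ x, |∑ k ∈ range K, (A (s k) x - p x)| := by
    rw [mul_sum]
    refine sum_congr rfl (fun x _ => ?_)
    rw [hE x, abs_mul, abs_neg, abs_of_pos (div_pos hW hK')]
  rw [hEs]
  have hCS : (∑ x, |∑ k ∈ range K, (A (s k) x - p x)|) ^ 2 ≤
      (Fintype.card κ : ℝ) ^ 2 * K := by
    calc (∑ x, |∑ k ∈ range K, (A (s k) x - p x)|) ^ 2
        ≤ (Fintype.card κ : ℝ) * ∑ x, |∑ k ∈ range K, (A (s k) x - p x)| ^ 2 := by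
          have := sq_sum_le_card_mul_sum_sq (s := (univ : Finset κ))
            (f := fun x => |∑ k ∈ range K, (A (s k) x - p x)|)
          simpa using this
      _ = (Fintype.card κ : ℝ) * ∑ x, (∑ k ∈ range K, (A (s k) x - p x)) ^ 2 := by
          simp only [sq_abs]
      _ ≤ (Fintype.card κ : ℝ) * (K * Fintype.card κ) :=
          mul_le_mul_of_nonneg_left hs (Nat.cast_nonneg _)
      _ = (Fintype.card κ : ℝ) ^ 2 * K := by ring
  have hle : ∑ x, |∑ k ∈ range K, (A (s k) x - p x)| ≤ Fintype.card κ * Real.sqrt K := by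
    apply le_of_sq_le_sq _ (by positivity)
    rw [mul_pow, Real.sq_sqrt hK'.le]
    exact hCS
  calc W / K * ∑ x, |∑ k ∈ range K, (A (s k) x - p x)|
      ≤ W / K * (Fintype.card κ * Real.sqrt K) :=
        mul_le_mul_of_nonneg_left hle (div_pos hW hK').le
    _ = W * Fintype.card κ / Real.sqrt K := by
        have h1 : Real.sqrt K ≠ 0 := (Real.sqrt_pos.2 hK').ne'
        have h2 : (K : ℝ) = Real.sqrt K * Real.sqrt K := (Real.mul_self_sqrt hK'.le).symm
        rw [div_mul_eq_mul_div, div_eq_div_iff hK'.ne' h1]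
        conv_rhs => rw [h2]
        ring

end Pool.Agent.Helper34.AE
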