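import Mathlib

set_option autoImplicit false
set_option linter.unusedSectionVars false

namespace Pool.Agent.Helper34.AE

open Finset

namespace PL

variable {ι κ : Type} [DecidableEq ι] [DecidableEq κ] [Fintype κ]

/-- indicator monomial -/
noncomputable def ind (J : Finset κ) : κ →₀ ℕ := Finsupp.indicator J (fun _ _ => 1)

lemma ind_apply (J : Finset κ) (j : κ) : ind J j = if j ∈ J then 1 else 0 := by
  simp [ind, Finsupp.indicator_apply]

/-- row linear form -/
noncomputable def L (w : ι → κ → ℝ) (z : ι → ℝ) (i : ι) : MvPolynomial κ ℝ :=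
  MvPolynomial.C (z i) + ∑ j, MvPolynomial.C (w i j) * MvPolynomial.X j

noncomputable def F (w : ι → κ → ℝ) (z : ι → ℝ) (I : Finset ι) (J : Finset κ) : ℝ :=
  MvPolynomial.coeff (ind J) (∏ i ∈ I, L w z i)

lemma F_empty (w : ι → κ → ℝ) (z : ι → ℝ) (J : Finset κ) :
    F w z ∅ J = if J = ∅ then 1 else 0 := by
  unfold F
  rw [prod_empty, MvPolynomial.coeff_one]
  congr 1
  apply propext
  constructor
  · intro h
    ext j
    have := DFunLike.congr_fun h j
    rw [ind_apply] at this
    simp at this
    simp [this]
  · rintro rfl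
    ext j
    simp [ind_apply]

lemma R1 (w : ι → κ → ℝ) (z : ι → ℝ) (I : Finset ι) (J : Finset κ) (i : ι) (hi : i ∈ I) :
    F w z I J = z i * F w z (I.erase i) J + ∑ j ∈ J, w i j * F w z (I.erase i) (J.erase j) := by
  unfold F
  rw [← mul_prod_erase I _ hi]
  conv_lhs => rw [L]
  rw [add_mul, MvPolynomial.coeff_add, MvPolynomial.coeff_C_mul, sum_mul, MvPolynomial.coeff_sum]
  congr 1
  have : ∀ j : κ, MvPolynomial.coeff (ind J)
      (MvPolynomial.C (w i j) * MvPolynomial.X j * ∏ x ∈ I.erase i, L w z x) =
      if j ∈ J then w i j * MvPolynomial.coeff (ind (J.erase j)) (∏ x ∈ I.erase i, L w z x) else 0 := by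
    intro j
    rw [mul_assoc, MvPolynomial.coeff_C_mul, MvPolynomial.coeff_X_mul']
    have h1 : j ∈ (ind J).support ↔ j ∈ J := by
      rw [Finsupp.mem_support_iff, ind_apply]
      split_ifs with h <;> simp [h]
    by_cases h : j ∈ J
    · rw [if_pos (h1.2 h), if_pos h]
      congr 2
      ext k
      rw [Finsupp.tsub_apply, ind_apply, ind_apply, Finsupp.single_apply]
      by_cases hk : j = k
      · subst hk; simp [h]
      · have : k ≠ j := fun h' => hk h'.symm
        simp [hk, this]
    · rw [if_neg (fun h' => h (h1.1 h')), if_neg h, mul_zero]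
  rw [sum_congr rfl (fun j _ => this j), ← sum_filter]
  congr 1
  ext j; simp

lemma R2 (w : ι → κ → ℝ) (z : ι → ℝ) (I : Finset ι) : ∀ (J : Finset κ) (j : κ) (_ : j ∈ J),
    F w z I J = ∑ i ∈ I, w i j * F w z (I.erase i) (J.erase j) := by
  induction I using Finset.induction_on with
  | empty =>
    intro J j hj
    rw [F_empty, sum_empty, if_neg]
    rintro rfl
    simp at hj
  | insert i I hi ih =>
    intro J j hj
    have hii : (insert i I).erase i = I := erase_insert hi
    rw [R1 w z _ J i (mem_insert_self i I), hii, sum_insert hi, hii, ih J j hj,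
      ← add_sum_erase J _ hj]
    have h2 : ∑ x ∈ J.erase j, w i x * F w z I (J.erase x) =
        ∑ x ∈ J.erase j, w i x * ∑ i' ∈ I, w i' j * F w z (I.erase i') ((J.erase x).erase j) := by
      apply sum_congr rfl
      intro x hx
      rw [ih (J.erase x) j (mem_erase.2 ⟨(ne_of_mem_erase hx).symm, hj⟩)]
    rw [h2]
    have h3 : ∀ i' ∈ I, w i' j * F w z ((insert i I).erase i') (J.erase j) =
        z i * (w i' j * F w z (I.erase i') (J.erase j)) +
        ∑ x ∈ J.erase j, w i x * (w i' j * F w z (I.erase i') ((J.erase x).erase j)) := by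
      intro i' hi'
      have hne : i ≠ i' := by rintro rfl; exact hi hi'
      have h4 : ((insert i I).erase i').erase i = I.erase i' := by
        rw [erase_right_comm, hii]
      rw [R1 w z _ (J.erase j) i (mem_erase.2 ⟨hne, mem_insert_self i I⟩), h4, mul_add, mul_sum]
      congr 1
      · ring
      · apply sum_congr rfl
        intro x _
        rw [erase_right_comm (a := j)]
        ring
    rw [sum_congr rfl h3, sum_add_distrib, ← mul_sum, sum_comm]
    simp only [mul_sum]
    ring

lemma F_nonneg (w : ι → κ → ℝ) (z : ι → ℝ) (hw : ∀ i j, 0 ≤ w i j) (hz : ∀ i, 0 ≤ z i)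
    (I : Finset ι) : ∀ J : Finset κ, 0 ≤ F w z I J := by
  induction I using Finset.induction_on with
  | empty => intro J; rw [F_empty]; split_ifs <;> norm_num
  | insert i I hi ih =>
    intro J
    rw [R1 w z _ J i (mem_insert_self i I), erase_insert hi]
    exact add_nonneg (mul_nonneg (hz i) (ih J))
      (sum_nonneg fun j _ => mul_nonneg (hw i j) (ih _))

lemma F_zero (w : ι → κ → ℝ) (z : ι → ℝ) (I : Finset ι) : ∀ J : Finset κ, I.card < J.card →
    F w z I J = 0 := by
  induction I using Finset.induction_on with
  | empty =>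
    intro J hJ
    rw [F_empty, if_neg]
    rintro rfl
    simp at hJ
  | insert i I hi ih =>
    intro J hJ
    rw [card_insert_of_notMem hi] at hJ
    rw [R1 w z _ J i (mem_insert_self i I), erase_insert hi, ih J (by omega), mul_zero, zero_add]
    apply sum_eq_zero
    intro j hj
    rw [ih (J.erase j) (by rw [card_erase_of_mem hj]; omega), mul_zero]

lemma F_indep (w : ι → κ → ℝ) (z z' : ι → ℝ) (I : Finset ι) : ∀ J : Finset κ, I.card = J.card →
    F w z I J = F w z' I J := by
  induction I using Finset.induction_on with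
  | empty => intro J _; rw [F_empty, F_empty]
  | insert i I hi ih =>
    intro J hJ
    rw [card_insert_of_notMem hi] at hJ
    rw [R1 w z _ J i (mem_insert_self i I), R1 w z' _ J i (mem_insert_self i I),
      erase_insert hi, F_zero w z I J (by omega), F_zero w z' I J (by omega)]
    congr 1
    · simp
    · apply sum_congr rfl
      intro j hj
      rw [ih (J.erase j) (by rw [card_erase_of_mem hj]; omega)]

lemma F_congr (w : ι → κ → ℝ) (z z' : ι → ℝ) (I : Finset ι) (J : Finset κ)
    (h : ∀ i ∈ I, z i = z' i) : F w z I J = F w z' I J := by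
  unfold F
  rw [prod_congr rfl (fun i hi => (by unfold L; rw [h i hi] : L w z i = L w z' i))]

/-- Rayleigh inequalities -/
lemma rayleigh (w : ι → κ → ℝ) (z : ι → ℝ) (hw : ∀ i j, 0 ≤ w i j) (hz : ∀ i, 0 ≤ z i) :
    ∀ (n : ℕ) (I : Finset ι), I.card = n →
    (∀ (J : Finset κ) (i i' : ι), i ∈ I → i' ∈ I → i ≠ i' →
      F w z I J * F w z ((I.erase i).erase i') J ≤ F w z (I.erase i) J * F w z (I.erase i') J) ∧
    (∀ (J : Finset κ) (j j' : κ), j ∈ J → j' ∈ J → j ≠ j' →
      F w z I J * F w z I ((J.erase j).erase j') ≤ F w z I (J.erase j) * F w z I (J.erase j')) := by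
  intro n
  induction n using Nat.strong_induction_on with
  | _ n ih =>
    intro I hI
    have hA : ∀ (J : Finset κ) (i i' : ι), i ∈ I → i' ∈ I → i ≠ i' →
        F w z I J * F w z ((I.erase i).erase i') J ≤
          F w z (I.erase i) J * F w z (I.erase i') J := by
      intro J i i' hi hi' hne
      set K := (I.erase i).erase i' with hK
      have hi'1 : i' ∈ I.erase i := mem_erase.2 ⟨hne.symm, hi'⟩
      have hi1 : i ∈ I.erase i' := mem_erase.2 ⟨hne, hi⟩
      have hK2 : (I.erase i').erase i = K := by rw [hK, erase_right_comm]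
      have hKc : K.card < n := by
        rw [hK, card_erase_of_mem hi'1, card_erase_of_mem hi, hI]
        have : 0 < n := by rw [← hI]; exact card_pos.2 ⟨i, hi⟩
        omega
      have hB := (ih K.card hKc K rfl).2 J
      rw [R1 w z I J i hi, R1 w z (I.erase i) J i' hi'1, R1 w z (I.erase i') J i hi1, hK2, ← hK]
      have e1 : ∀ j ∈ J, w i j * F w z (I.erase i) (J.erase j) =
          w i j * (z i' * F w z K (J.erase j) +
            ∑ j' ∈ J.erase j, w i' j' * F w z K ((J.erase j).erase j')) := by
        intro j _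
        rw [R1 w z (I.erase i) (J.erase j) i' hi'1, ← hK]
      rw [sum_congr rfl e1]
      have key : ∑ j ∈ J, ∑ j' ∈ J.erase j, w i j * w i' j' *
            (F w z K J * F w z K ((J.erase j).erase j')) ≤
          ∑ j ∈ J, ∑ j' ∈ J, w i j * w i' j' * (F w z K (J.erase j) * F w z K (J.erase j')) := by
        apply sum_le_sum
        intro j hj
        calc ∑ j' ∈ J.erase j, w i j * w i' j' *
            (F w z K J * F w z K ((J.erase j).erase j')) ≤
            ∑ j' ∈ J.erase j, w i j * w i' j' * (F w z K (J.erase j) * F w z K (J.erase j')) := by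
              apply sum_le_sum
              intro j' hj'
              apply mul_le_mul_of_nonneg_left _ (mul_nonneg (hw _ _) (hw _ _))
              exact hB j j' hj (mem_of_mem_erase hj') (ne_of_mem_erase hj').symm
          _ ≤ _ := by
              apply sum_le_sum_of_subset_of_nonneg (erase_subset _ _)
              intro j' _ _
              exact mul_nonneg (mul_nonneg (hw _ _) (hw _ _))
                (mul_nonneg (F_nonneg w z hw hz _ _) (F_nonneg w z hw hz _ _))
      have e2 : ∑ j ∈ J, ∑ j' ∈ J, w i j * w i' j' *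
          (F w z K (J.erase j) * F w z K (J.erase j')) =
          (∑ j ∈ J, w i j * F w z K (J.erase j)) * (∑ j' ∈ J, w i' j' * F w z K (J.erase j')) := by
        rw [sum_mul_sum]
        apply sum_congr rfl; intro j _
        apply sum_congr rfl; intro j' _
        ring
      have e3 : ∑ j ∈ J, ∑ j' ∈ J.erase j, w i j * w i' j' *
            (F w z K J * F w z K ((J.erase j).erase j')) =
          F w z K J * ∑ j ∈ J, w i j * ∑ j' ∈ J.erase j, w i' j' *
            F w z K ((J.erase j).erase j') := by
        rw [mul_sum]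
        apply sum_congr rfl; intro j _
        rw [mul_sum, mul_sum]
        apply sum_congr rfl; intro j' _
        ring
      rw [e2, e3] at key
      have e4 : ∑ j ∈ J, w i j * (z i' * F w z K (J.erase j) +
            ∑ j' ∈ J.erase j, w i' j' * F w z K ((J.erase j).erase j')) =
          z i' * ∑ j ∈ J, w i j * F w z K (J.erase j) +
          ∑ j ∈ J, w i j * ∑ j' ∈ J.erase j, w i' j' * F w z K ((J.erase j).erase j') := by
        rw [mul_sum, ← sum_add_distrib]
        apply sum_congr rfl; intro j _
        ring
      rw [e4]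
      nlinarith [key]
    refine ⟨hA, ?_⟩
    intro J j j' hj hj' hne
    have hj'1 : j' ∈ J.erase j := mem_erase.2 ⟨hne.symm, hj'⟩
    have hj1 : j ∈ J.erase j' := mem_erase.2 ⟨hne, hj⟩
    set J0 := (J.erase j).erase j' with hJ0
    have hJ2 : (J.erase j').erase j = J0 := by rw [hJ0, erase_right_comm]
    rw [R2 w z I J j hj, R2 w z I (J.erase j) j' hj'1, R2 w z I (J.erase j') j hj1, hJ2, ← hJ0]
    have e1 : ∀ i ∈ I, w i j * F w z (I.erase i) (J.erase j) =
        w i j * ∑ i' ∈ I.erase i, w i' j' * F w z ((I.erase i).erase i') J0 := by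
      intro i _
      rw [R2 w z (I.erase i) (J.erase j) j' hj'1, ← hJ0]
    rw [sum_congr rfl e1, mul_comm (∑ i ∈ I, w i j' * F w z (I.erase i) J0), sum_mul_sum, sum_mul]
    apply sum_le_sum
    intro i hi
    rw [mul_sum, sum_mul]
    calc ∑ i' ∈ I.erase i, w i j * (w i' j' * F w z ((I.erase i).erase i') J0) * F w z I J0 ≤
        ∑ i' ∈ I.erase i, w i j * F w z (I.erase i) J0 * (w i' j' * F w z (I.erase i') J0) := by
          apply sum_le_sum
          intro i' hi'
          have := hA J0 i i' hi (mem_of_mem_erase hi') (ne_of_mem_erase hi').symm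
          have h2 := mul_le_mul_of_nonneg_left this (mul_nonneg (hw i j) (hw i' j'))
          nlinarith [h2]
      _ ≤ _ := by
          apply sum_le_sum_of_subset_of_nonneg (erase_subset _ _)
          intro i' _ _
          exact mul_nonneg (mul_nonneg (hw _ _) (F_nonneg w z hw hz _ _))
            (mul_nonneg (hw _ _) (F_nonneg w z hw hz _ _))

/-- the effect of changing one variable -/
lemma F_update (w : ι → κ → ℝ) (z z' : ι → ℝ) (I : Finset ι) (J : Finset κ) (k : ι) (hk : k ∈ I)
    (h : ∀ i ∈ I, i ≠ k → z' i = z i) :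
    F w z' I J = F w z I J + (z' k - z k) * F w z (I.erase k) J := by
  have h2 : ∀ J : Finset κ, F w z' (I.erase k) J = F w z (I.erase k) J := fun J =>
    F_congr w _ _ _ _ (fun i hi => h i (mem_of_mem_erase hi) (ne_of_mem_erase hi))
  rw [R1 w z' I J k hk, R1 w z I J k hk, h2]
  simp only [h2]
  ring

lemma bound (w : ι → κ → ℝ) (z a : ι → ℝ) (hw : ∀ i j, 0 ≤ w i j) (hz : ∀ i, 0 < z i)
    (ha : ∀ i, 0 ≤ a i) (I : Finset ι) (J : Finset κ) (T : Finset ι) (hT : T ⊆ I) :
    F w (fun i => z i + if i ∈ T then a i else 0) I J ≤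
      F w z I J * Real.exp (∑ i ∈ T, a i * (F w z (I.erase i) J / F w z I J)) ∧
    ∀ i ∈ I, i ∉ T →
      F w (fun i => z i + if i ∈ T then a i else 0) (I.erase i) J * F w z I J ≤
      F w z (I.erase i) J * F w (fun i => z i + if i ∈ T then a i else 0) I J := by
  have hz0 : ∀ T : Finset ι, ∀ i, 0 ≤ z i + if i ∈ T then a i else 0 := by
    intro T i
    have := (hz i).le
    have := ha i
    split_ifs <;> linarith
  have hn := F_nonneg w z hw (fun i => (hz i).le)
  induction T using Finset.induction_on with
  | empty =>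
    constructor
    · simp
    · intro i _ _
      simp
  | insert k T hk ih =>
    have hkI : k ∈ I := hT (mem_insert_self _ _)
    obtain ⟨ih1, ih2⟩ := ih (fun x hx => hT (mem_insert_of_mem hx))
    set z1 : ι → ℝ := fun i => z i + if i ∈ T then a i else 0 with hz1
    set z2 : ι → ℝ := fun i => z i + if i ∈ insert k T then a i else 0 with hz2
    have hz1n : ∀ i, 0 ≤ z1 i := hz0 T
    have hz12 : ∀ i, i ≠ k → z2 i = z1 i := by
      intro i hi
      simp [hz1, hz2, hi]
    have hzk : z2 k - z1 k = a k := by simp [hz1, hz2, hk]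
    have hn1 := F_nonneg w z1 hw hz1n
    have u1 : F w z2 I J = F w z1 I J + a k * F w z1 (I.erase k) J := by
      rw [F_update w z1 z2 I J k hkI (fun i _ h => hz12 i h), hzk]
    constructor
    · rw [u1, sum_insert hk, add_comm (a k * _), Real.exp_add, ← mul_assoc]
      rcases (hn I J).eq_or_lt with h0 | h0
      · -- degenerate case
        rw [← h0] at ih1 ⊢
        have h1 : F w z1 I J = 0 := le_antisymm (by simpa using ih1) (hn1 I J)
        have h2 : F w z1 (I.erase k) J = 0 := by
          have h3 := R1 w z1 I J k hkI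
          rw [h1] at h3
          have h4 : 0 ≤ ∑ j ∈ J, w k j * F w z1 (I.erase k) (J.erase j) :=
            sum_nonneg fun j _ => mul_nonneg (hw k j) (hn1 _ _)
          have h5 : z1 k * F w z1 (I.erase k) J = 0 := by
            have : 0 ≤ z1 k * F w z1 (I.erase k) J := mul_nonneg (hz1n k) (hn1 _ _)
            linarith
          have h6 : z1 k ≠ 0 := by
            simp only [hz1, if_neg hk, add_zero]
            exact (hz k).ne'
          exact (mul_eq_zero.1 h5).resolve_left h6
        rw [h1, h2]
        simp
      · have h3 := ih2 k hkI hk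
        have h4 : F w z1 (I.erase k) J ≤ F w z (I.erase k) J / F w z I J * F w z1 I J := by
          rw [div_mul_eq_mul_div, le_div_iff₀ h0]
          exact h3
        set r := F w z (I.erase k) J / F w z I J with hr
        have hr0 : 0 ≤ r := div_nonneg (hn _ _) (hn _ _)
        calc F w z1 I J + a k * F w z1 (I.erase k) J ≤ F w z1 I J + a k * (r * F w z1 I J) := by
              have := mul_le_mul_of_nonneg_left h4 (ha k)
              linarith
          _ = F w z1 I J * (a k * r + 1) := by ring
          _ ≤ F w z1 I J * Real.exp (a k * r) := by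
              apply mul_le_mul_of_nonneg_left (Real.add_one_le_exp _) (hn1 _ _)
          _ ≤ _ := mul_le_mul_of_nonneg_right ih1 (Real.exp_pos _).le
    · intro i hi hiT
      have hik : i ≠ k := by rintro rfl; exact hiT (mem_insert_self _ _)
      have hiT' : i ∉ T := fun h => hiT (mem_insert_of_mem h)
      have hki : k ∈ I.erase i := mem_erase.2 ⟨hik.symm, hkI⟩
      have u2 : F w z2 (I.erase i) J =
          F w z1 (I.erase i) J + a k * F w z1 ((I.erase i).erase k) J := by
        rw [F_update w z1 z2 (I.erase i) J k hki (fun i _ h => hz12 i h), hzk]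
      have hR := (rayleigh w z1 hw hz1n I.card I rfl).1 J i k hi hkI hik
      have h3 := ih2 i hi hiT'
      rw [u1, u2]
      -- ratio: F z2 (I\i) / F z2 I ≤ F z1 (I\i)/F z1 I ≤ ...
      rcases (hn1 I J).eq_or_lt with h0 | h0
      · -- F w z1 I J = 0
        have hz1k : z1 i ≠ 0 := by
          simp only [hz1, if_neg hiT', add_zero]
          exact (hz i).ne'
        have h2 : F w z1 (I.erase i) J = 0 := by
          have h3 := R1 w z1 I J i hi
          rw [← h0] at h3
          have h4 : 0 ≤ ∑ j ∈ J, w i j * F w z1 (I.erase i) (J.erase j) :=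
            sum_nonneg fun j _ => mul_nonneg (hw i j) (hn1 _ _)
          have h5 : z1 i * F w z1 (I.erase i) J = 0 := by
            have : 0 ≤ z1 i * F w z1 (I.erase i) J := mul_nonneg (hz1n i) (hn1 _ _)
            linarith
          exact (mul_eq_zero.1 h5).resolve_left hz1k
        have h6 : F w z1 ((I.erase i).erase k) J = 0 := by
          have h3 := R1 w z1 (I.erase i) J k hki
          rw [h2] at h3
          have h4 : 0 ≤ ∑ j ∈ J, w k j * F w z1 ((I.erase i).erase k) (J.erase j) :=
            sum_nonneg fun j _ => mul_nonneg (hw k j) (hn1 _ _)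
          have h5 : z1 k * F w z1 ((I.erase i).erase k) J = 0 := by
            have : 0 ≤ z1 k * F w z1 ((I.erase i).erase k) J := mul_nonneg (hz1n k) (hn1 _ _)
            linarith
          have hz1k' : z1 k ≠ 0 := by
            simp only [hz1, if_neg hk, add_zero]
            exact (hz k).ne'
          exact (mul_eq_zero.1 h5).resolve_left hz1k'
        rw [h2, h6, ← h0]
        have := mul_nonneg (hn (I.erase i) J) (mul_nonneg (ha k) (hn1 (I.erase k) J))
        linarith
      · have h7 : F w z1 ((I.erase i).erase k) J ≤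
            F w z1 (I.erase i) J * F w z1 (I.erase k) J / F w z1 I J := by
          rw [le_div_iff₀ h0]
          linarith
        have h8 : (F w z1 (I.erase i) J + a k * F w z1 ((I.erase i).erase k) J) * F w z1 I J ≤
            F w z1 (I.erase i) J * (F w z1 I J + a k * F w z1 (I.erase k) J) := by
          nlinarith [mul_le_mul_of_nonneg_left hR (ha k)]
        have hA : 0 ≤ F w z1 I J + a k * F w z1 (I.erase k) J :=
          add_nonneg (hn1 _ _) (mul_nonneg (ha k) (hn1 _ _))
        have h9 := mul_le_mul_of_nonneg_right h3 hA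
        have h10 := mul_le_mul_of_nonneg_right h8 (hn I J)
        have h11 : (F w z1 (I.erase i) J + a k * F w z1 ((I.erase i).erase k) J) * F w z I J *
            F w z1 I J ≤ F w z (I.erase i) J * (F w z1 I J + a k * F w z1 (I.erase k) J) *
            F w z1 I J := by nlinarith [h9, h10]
        exact le_of_mul_le_mul_right h11 h0

lemma F_noJ (w : ι → κ → ℝ) (z : ι → ℝ) (I : Finset ι) : F w z I ∅ = ∏ i ∈ I, z i := by
  induction I using Finset.induction_on with
  | empty => rw [F_empty]; simp
  | insert i I hi ih =>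
    rw [R1 w z _ ∅ i (mem_insert_self i I), erase_insert hi, prod_insert hi, ih]
    simp

lemma real_step (c R0 R1 : ℝ) (hc : 0 < c) (h0 : 0 ≤ R0) (h1 : 0 ≤ R1)
    (h : ∀ t : ℝ, 0 < t → c * t ≤ R0 * Real.exp (t * R1 / R0)) : c * Real.exp (-1) ≤ R1 := by
  rcases h0.eq_or_lt with h0' | h0'
  · have := h 1 one_pos
    rw [← h0'] at this
    linarith
  · rcases h1.eq_or_lt with h1' | h1'
    · have := h (2 * R0 / c) (by positivity)
      rw [← h1'] at this
      simp only [mul_zero, zero_div, Real.exp_zero, mul_one] at this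
      rw [mul_div_cancel₀ _ hc.ne'] at this
      linarith
    · have := h (R0 / R1) (by positivity)
      have e1 : R0 / R1 * R1 / R0 = 1 := by field_simp
      rw [e1] at this
      rw [Real.exp_neg]
      have he := Real.exp_pos 1
      rw [← div_eq_mul_inv, div_le_iff₀ he]
      have h2 : c * (R0 / R1) * (R1 / R0) ≤ R0 * Real.exp 1 * (R1 / R0) :=
        mul_le_mul_of_nonneg_right this (by positivity)
      have e2 : c * (R0 / R1) * (R1 / R0) = c := by field_simp
      have e3 : R0 * Real.exp 1 * (R1 / R0) = R1 * Real.exp 1 := by field_simp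
      rw [e2, e3] at h2
      exact h2

lemma cap {m : ℕ} (P : Fin m → Fin m → ℝ) (h0 : ∀ i j, 0 ≤ P i j)
    (hr : ∀ i, ∑ j, P i j = 1) (hc : ∀ j, ∑ i, P i j = 1) (ε : ℝ) (hε : 0 < ε)
    (T : Finset (Fin m)) : ∀ (x : Fin m → ℝ), (∀ j, 0 < x j) →
    Real.exp (-(T.card : ℝ)) * ∏ j ∈ Tᶜ, x j ≤
      F P (fun i => ε + ∑ j ∈ Tᶜ, P i j * x j) univ T := by
  induction T using Finset.induction_on with
  | empty =>
    intro x hx
    rw [F_noJ]
    simp only [card_empty, Nat.cast_zero, neg_zero, Real.exp_zero, one_mul, compl_empty]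
    have h1 : ∀ i, ∏ j, x j ^ P i j ≤ ε + ∑ j, P i j * x j := by
      intro i
      have h2 := Real.geom_mean_le_arith_mean_weighted univ (fun j => P i j) x
        (fun j _ => h0 i j) (hr i) (fun j _ => (hx j).le)
      linarith
    calc ∏ j, x j = ∏ j, x j ^ (∑ i, P i j) := by simp [hc]
      _ = ∏ j, ∏ i, x j ^ P i j := by
          apply prod_congr rfl
          intro j _
          rw [Real.rpow_sum_of_pos (hx j)]
      _ = ∏ i, ∏ j, x j ^ P i j := prod_comm
      _ ≤ _ := prod_le_prod (fun i _ => prod_nonneg fun j _ => Real.rpow_nonneg (hx j).le _)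
          (fun i _ => h1 i)
  | insert k T hk ih =>
    intro x hx
    have hkc : k ∉ (insert k T)ᶜ := by simp
    have hTc : Tᶜ = insert k (insert k T)ᶜ := by
      ext j
      by_cases hj : j = k
      · subst hj; simp [hk]
      · simp [hj]
    set S := (insert k T)ᶜ with hS
    set z0 : Fin m → ℝ := fun i => ε + ∑ j ∈ S, P i j * x j with hz0
    have hz0p : ∀ i, 0 < z0 i := fun i =>
      add_pos_of_pos_of_nonneg hε (sum_nonneg fun j _ => mul_nonneg (h0 i j) (hx j).le)
    have hn := F_nonneg P z0 h0 (fun i => (hz0p i).le)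
    have hR2 := R2 P z0 univ (insert k T) k (mem_insert_self k T)
    rw [erase_insert hk] at hR2
    have hprod : 0 < ∏ j ∈ S, x j := prod_pos fun j _ => hx j
    have step := real_step (Real.exp (-(T.card : ℝ)) * ∏ j ∈ S, x j) (F P z0 univ T)
      (F P z0 univ (insert k T)) (mul_pos (Real.exp_pos _) hprod) (hn _ _) (hn _ _) ?_
    · rw [card_insert_of_notMem hk]
      push_cast
      rw [neg_add, Real.exp_add]
      calc _ = Real.exp (-(T.card : ℝ)) * (∏ j ∈ S, x j) * Real.exp (-1) := by ring
        _ ≤ _ := step
    · intro t ht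
      have hx' : ∀ j, 0 < Function.update x k t j := by
        intro j
        by_cases hj : j = k
        · subst hj; simpa using ht
        · rw [Function.update_of_ne hj]; exact hx j
      have h1 := ih (Function.update x k t) hx'
      have hne : ∀ j ∈ S, j ≠ k := fun j hj h => hkc (h ▸ hj)
      rw [hTc, prod_insert hkc, Function.update_self] at h1
      rw [prod_congr rfl (fun j hj => Function.update_of_ne (hne j hj) t x)] at h1
      have hz : (fun i => ε + ∑ j ∈ insert k S, P i j * Function.update x k t j) =
          fun i => z0 i + if i ∈ (univ : Finset (Fin m)) then P i k * t else 0 := by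
        funext i
        rw [sum_insert hkc, Function.update_self, if_pos (mem_univ i),
          sum_congr rfl (fun j hj => by rw [Function.update_of_ne (hne j hj) t x]), hz0]
        ring
      rw [hz] at h1
      have h2 := (bound P z0 (fun i => P i k * t) h0 hz0p
        (fun i => mul_nonneg (h0 i k) ht.le) univ T univ (subset_refl _)).1
      have e1 : ∑ i, P i k * t * (F P z0 (univ.erase i) T / F P z0 univ T) =
          t * F P z0 univ (insert k T) / F P z0 univ T := by
        rw [hR2, mul_sum, sum_div]
        apply sum_congr rfl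
        intro i _
        ring
      rw [e1] at h2
      calc _ = Real.exp (-(T.card : ℝ)) * (t * ∏ j ∈ S, x j) := by ring
        _ ≤ _ := h1.trans h2

lemma F_per {m : ℕ} (P : Fin m → Fin m → ℝ) (z : Fin m → ℝ) :
    F P z univ univ = ∑ π : Equiv.Perm (Fin m), ∏ i, P i (π i) := by
  rw [F_indep P z (fun _ => 0) univ univ rfl]
  unfold F L
  simp only [map_zero, zero_add]
  rw [prod_univ_sum, MvPolynomial.coeff_sum]
  have h1 : ∀ g : Fin m → Fin m, MvPolynomial.coeff (ind univ)
      (∏ i, (MvPolynomial.C (P i (g i)) * MvPolynomial.X (g i) : MvPolynomial (Fin m) ℝ)) =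
      if Function.Bijective g then ∏ i, P i (g i) else 0 := by
    intro g
    rw [prod_mul_distrib, ← map_prod, MvPolynomial.coeff_C_mul]
    have h2 : (∏ i, MvPolynomial.X (g i) : MvPolynomial (Fin m) ℝ) =
        MvPolynomial.monomial (∑ i, Finsupp.single (g i) 1) 1 := by
      rw [MvPolynomial.monomial_sum_one]
      rfl
    rw [h2, MvPolynomial.coeff_monomial]
    have h3 : (∑ i, Finsupp.single (g i) 1 = ind (univ : Finset (Fin m))) ↔
        Function.Bijective g := by
      constructor
      · intro h
        apply (Finite.surjective_iff_bijective).1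
        intro j
        by_contra hj
        push Not at hj
        have := DFunLike.congr_fun h j
        rw [ind_apply, if_pos (mem_univ j), Finsupp.finsetSum_apply] at this
        rw [sum_eq_zero] at this
        · norm_num at this
        · intro i _
          rw [Finsupp.single_apply, if_neg (hj i)]
      · intro h
        ext j
        obtain ⟨i, hi⟩ := h.2 j
        rw [ind_apply, if_pos (mem_univ j), Finsupp.finsetSum_apply, sum_eq_single i]
        · rw [Finsupp.single_apply, if_pos hi]
        · intro i' _ hi'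
          rw [Finsupp.single_apply, if_neg]
          intro h'
          exact hi' (h.1 (h'.trans hi.symm))
        · simp
    by_cases hg : Function.Bijective g
    · rw [if_pos (h3.2 hg), if_pos hg, mul_one]
    · rw [if_neg (fun h => hg (h3.1 h)), if_neg hg, mul_zero]
  rw [sum_congr rfl (fun g _ => h1 g), ← sum_filter]
  symm
  apply sum_bij (fun (π : Equiv.Perm (Fin m)) _ => (π : Fin m → Fin m))
  · intro π _
    exact mem_filter.2 ⟨by rw [Fintype.mem_piFinset]; exact fun _ => mem_univ _, π.bijective⟩
  · intro π _ π' _ h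
    exact DFunLike.coe_injective h
  · intro g hg
    exact ⟨Equiv.ofBijective g (mem_filter.1 hg).2, mem_univ _, rfl⟩
  · intro π _
    rfl

end PL

theorem per_lower {m : ℕ} (P : Fin m → Fin m → ℝ) (h0 : ∀ i j, 0 ≤ P i j)
    (hr : ∀ i, ∑ j, P i j = 1) (hc : ∀ j, ∑ i, P i j = 1) :
    Real.exp (-(m : ℝ)) ≤ ∑ π : Equiv.Perm (Fin m), ∏ i, P i (π i) := by
  have h := PL.cap P h0 hr hc 1 one_pos univ (fun _ => 1) (fun _ => one_pos)
  rw [PL.F_per] at h
  simpa using h

end Pool.Agent.Helper34.AE
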