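import Mathlib

set_option autoImplicit false

/-!
# Upper bound for permanents of matrices with small entries
-/

namespace Pool.Agent.Helper34.AE

open Finset

namespace PU

variable {m : ℕ}

/-- remaining weight in row `i` -/
noncomputable def NN (B : Fin m → Fin m → ℝ) (t : Fin m → Fin m) (S : Finset (Fin m))
    (π : Equiv.Perm (Fin m)) (i : Fin m) : ℝ :=
  ∑ i' ∈ S.filter (fun i' => t i ≤ t i'), B i (π i')

lemma NN_nonneg {B : Fin m → Fin m → ℝ} (hB : ∀ i j, 0 ≤ B i j) (t : Fin m → Fin m)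
    (S : Finset (Fin m)) (π : Equiv.Perm (Fin m)) (i : Fin m) : 0 ≤ NN B t S π i :=
  Finset.sum_nonneg fun _ _ => hB _ _

lemma le_NN {B : Fin m → Fin m → ℝ} (hB : ∀ i j, 0 ≤ B i j) (t : Fin m → Fin m)
    {S : Finset (Fin m)} (π : Equiv.Perm (Fin m)) {i : Fin m} (hi : i ∈ S) :
    B i (π i) ≤ NN B t S π i :=
  Finset.single_le_sum (f := fun i' => B i (π i')) (fun _ _ => hB _ _)
    (Finset.mem_filter.2 ⟨hi, le_rfl⟩)

lemma NN_mono {B : Fin m → Fin m → ℝ} (hB : ∀ i j, 0 ≤ B i j) (t : Fin m → Fin m)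
    {S S' : Finset (Fin m)} (h : S ⊆ S') (π : Equiv.Perm (Fin m)) (i : Fin m) :
    NN B t S π i ≤ NN B t S' π i :=
  Finset.sum_le_sum_of_subset_of_nonneg (Finset.filter_subset_filter _ h) fun _ _ _ => hB _ _

lemma div_NN_le {B : Fin m → Fin m → ℝ} (hB : ∀ i j, 0 ≤ B i j) (t : Fin m → Fin m)
    {S S' : Finset (Fin m)} (h : S ⊆ S') (π : Equiv.Perm (Fin m)) {i : Fin m} (hi : i ∈ S) :
    B i (π i) / NN B t S' π i ≤ B i (π i) / NN B t S π i := by
  rcases (hB i (π i)).eq_or_lt with h0 | h0
  · rw [← h0]; simp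
  · exact div_le_div_of_nonneg_left h0.le (h0.trans_le (le_NN hB t π hi)) (NN_mono hB t h π i)

lemma step1 {B : Fin m → Fin m → ℝ} (hB : ∀ i j, 0 ≤ B i j) (t : Fin m → Fin m) :
    ∀ (n : ℕ) (S : Finset (Fin m)), S.card = n → ∀ π0 : Equiv.Perm (Fin m),
      ∑ π ∈ univ.filter (fun π : Equiv.Perm (Fin m) => ∀ i, i ∉ S → π i = π0 i),
        ∏ i ∈ S, B i (π i) / NN B t S π i ≤ 1 := by
  intro n
  induction n with
  | zero =>
    intro S hS π0
    rw [Finset.card_eq_zero] at hS
    subst hS
    have : (univ.filter (fun π : Equiv.Perm (Fin m) => ∀ i, i ∉ (∅ : Finset (Fin m)) →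
        π i = π0 i)) = {π0} := by
      ext π
      simp only [Finset.mem_filter, Finset.mem_univ, true_and, Finset.mem_singleton,
        Finset.notMem_empty, not_false_eq_true, true_imp_iff]
      exact ⟨fun h => Equiv.ext h, fun h i => by rw [h]⟩
    rw [this]
    simp
  | succ n ih =>
    intro S hS π0
    have hne : S.Nonempty := by
      rw [← Finset.card_pos, hS]; omega
    obtain ⟨i0, hi0, hmin⟩ := S.exists_min_image t hne
    set P := univ.filter (fun π : Equiv.Perm (Fin m) => ∀ i, i ∉ S → π i = π0 i) with hP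
    have hmem : ∀ π ∈ P, ∀ i ∈ S, π0.symm (π i) ∈ S := by
      intro π hπ i hi
      by_contra hcon
      have h1 := (Finset.mem_filter.1 hπ).2 _ hcon
      rw [Equiv.apply_symm_apply] at h1
      rw [π.injective h1] at hcon
      exact hcon hi
    have hmem' : ∀ π ∈ P, ∀ i ∈ S, π.symm (π0 i) ∈ S := by
      intro π hπ i hi
      by_contra hcon
      have h1 := (Finset.mem_filter.1 hπ).2 _ hcon
      rw [Equiv.apply_symm_apply] at h1
      have h2 := π0.injective h1
      rw [← h2] at hcon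
      exact hcon hi
    rw [← Finset.sum_fiberwise_of_maps_to (fun π hπ => hmem π hπ i0 hi0)]
    set D := ∑ i' ∈ S, B i0 (π0 i') with hD
    have hN0 : ∀ π ∈ P, NN B t S π i0 = D := by
      intro π hπ
      unfold NN
      rw [Finset.filter_true_of_mem (fun i' hi' => hmin i' hi'), hD]
      refine Finset.sum_nbij' (fun i' => π0.symm (π i')) (fun i' => π.symm (π0 i')) ?_ ?_ ?_ ?_ ?_
      · exact fun i hi => hmem π hπ i hi
      · exact fun i hi => hmem' π hπ i hi
      · intro i _; simp
      · intro i _; simp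
      · intro i _; simp
    have hinner : ∀ i1 ∈ S, ∑ π ∈ P with π0.symm (π i0) = i1,
        ∏ i ∈ S, B i (π i) / NN B t S π i ≤ B i0 (π0 i1) / D := by
      intro i1 hi1
      have h1 : ∀ π ∈ P.filter (fun π => π0.symm (π i0) = i1),
          ∏ i ∈ S, B i (π i) / NN B t S π i ≤ B i0 (π0 i1) / D *
            ∏ i ∈ S.erase i0, B i (π i) / NN B t (S.erase i0) π i := by
        intro π hπ
        rw [Finset.mem_filter] at hπ
        rw [← Finset.mul_prod_erase S _ hi0, hN0 π hπ.1]
        have h2 : π i0 = π0 i1 := by rw [← hπ.2, Equiv.apply_symm_apply]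
        rw [h2]
        refine mul_le_mul_of_nonneg_left ?_ (div_nonneg (hB _ _)
          (Finset.sum_nonneg fun _ _ => hB _ _))
        refine Finset.prod_le_prod (fun i _ => div_nonneg (hB _ _) (NN_nonneg hB t S π i)) ?_
        intro i hi
        exact div_NN_le hB t (Finset.erase_subset _ _) π hi
      refine (Finset.sum_le_sum h1).trans ?_
      have h3 : P.filter (fun π => π0.symm (π i0) = i1) ⊆
          univ.filter (fun π : Equiv.Perm (Fin m) => ∀ i, i ∉ S.erase i0 →
            π i = (π0 * Equiv.swap i0 i1) i) := by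
        intro π hπ
        rw [Finset.mem_filter] at hπ
        rw [Finset.mem_filter]
        refine ⟨Finset.mem_univ _, ?_⟩
        intro i hi
        rw [Equiv.Perm.mul_apply]
        by_cases hii : i = i0
        · rw [hii, Equiv.swap_apply_left, ← hπ.2, Equiv.apply_symm_apply]
        · have hiS : i ∉ S := fun h => hi (Finset.mem_erase.2 ⟨hii, h⟩)
          have hi1' : i ≠ i1 := fun h => hiS (h ▸ hi1)
          rw [Equiv.swap_apply_of_ne_of_ne hii hi1']
          exact (Finset.mem_filter.1 hπ.1).2 i hiS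
      rw [← Finset.mul_sum]
      have h4 : ∑ π ∈ P.filter (fun π => π0.symm (π i0) = i1),
          ∏ i ∈ S.erase i0, B i (π i) / NN B t (S.erase i0) π i ≤ 1 := by
        refine le_trans ?_ (ih (S.erase i0) (by rw [Finset.card_erase_of_mem hi0, hS]; rfl)
          (π0 * Equiv.swap i0 i1))
        refine Finset.sum_le_sum_of_subset_of_nonneg h3 ?_
        intro π _ _
        exact Finset.prod_nonneg fun i _ => div_nonneg (hB _ _) (NN_nonneg hB t _ π i)
      calc _ ≤ B i0 (π0 i1) / D * 1 := mul_le_mul_of_nonneg_left h4 (div_nonneg (hB _ _)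
          (Finset.sum_nonneg fun _ _ => hB _ _))
        _ = _ := mul_one _
    refine (Finset.sum_le_sum hinner).trans ?_
    rw [← Finset.sum_div]
    exact div_self_le_one _

lemma step1' {B : Fin m → Fin m → ℝ} (hB : ∀ i j, 0 ≤ B i j) (t : Fin m → Fin m) :
    ∑ π : Equiv.Perm (Fin m), ∏ i, B i (π i) / NN B t univ π i ≤ 1 := by
  have := step1 hB t _ univ rfl 1
  simpa using this

/-- resampling one coordinate -/
lemma resample {ι X : Type} [Fintype ι] [DecidableEq ι] [Fintype X] (i : ι)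
    (g : (ι → X) → ℝ) :
    ∑ f : ι → X, ∑ y : X, g (Function.update f i y) = Fintype.card X * ∑ f : ι → X, g f := by
  have h1 : ∑ f : ι → X, ∑ y : X, g (Function.update f i y) =
      ∑ p : (ι → X) × X, g (Function.update p.1 i p.2) := by rw [Fintype.sum_prod_type]
  have h2 : Fintype.card X * ∑ f : ι → X, g f = ∑ p : (ι → X) × X, g p.1 := by
    rw [Fintype.sum_prod_type]
    simp [Finset.mul_sum]
  rw [h1, h2]
  let e : (ι → X) × X ≃ (ι → X) × X :=
    { toFun := fun p => (Function.update p.1 i p.2, p.1 i)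
      invFun := fun p => (Function.update p.1 i p.2, p.1 i)
      left_inv := fun p => by simp
      right_inv := fun p => by simp }
  exact Equiv.sum_comp e fun p => g p.1

/-- marginal of one coordinate -/
lemma marg1 {ι X : Type} [Fintype ι] [DecidableEq ι] [Fintype X] (i : ι) (g : X → ℝ) :
    Fintype.card X * ∑ f : ι → X, g (f i) = Fintype.card (ι → X) * ∑ x, g x := by
  rw [← resample i fun f => g (f i)]
  simp

/-- marginal of two coordinates -/
lemma marg2 {ι X : Type} [Fintype ι] [DecidableEq ι] [Fintype X] {i j : ι} (hij : i ≠ j)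
    (g : X → X → ℝ) :
    Fintype.card X * (Fintype.card X * ∑ f : ι → X, g (f i) (f j)) =
      Fintype.card (ι → X) * ∑ x, ∑ y, g x y := by
  rw [← resample i fun f => g (f i) (f j)]
  have h1 : ∀ f : ι → X, ∑ y : X, g (Function.update f i y i) (Function.update f i y j) =
      ∑ y : X, g y (f j) := by
    intro f
    refine Finset.sum_congr rfl fun y _ => ?_
    rw [Function.update_self, Function.update_of_ne hij.symm]
  simp only [h1]
  rw [marg1 j fun x => ∑ y, g y x, Finset.sum_comm]

/-- the comparison constants -/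
noncomputable def cs (C : ℝ) (m : ℕ) (s : Fin m) : ℝ := ((m : ℝ) - s + C) / m

lemma cs_pos {C : ℝ} (hC : 0 < C) (s : Fin m) : 0 < cs C m s := by
  have h1 : (s : ℕ) < m := s.2
  have h2 : ((s : ℕ) : ℝ) < m := by exact_mod_cast h1
  have h3 : (0 : ℝ) < m := by
    have : 0 < m := by omega
    exact_mod_cast this
  unfold cs
  have : (0 : ℝ) < (m : ℝ) - s + C := by linarith
  positivity

lemma card_ge (s : Fin m) : ∑ s' : Fin m, (if s ≤ s' then (1 : ℝ) else 0) = (m : ℝ) - s := by
  rw [Finset.sum_boole]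
  have h1 : (univ.filter (fun s' : Fin m => s ≤ s')) = Finset.Ici s := by
    ext x; simp
  rw [h1, Fin.card_Ici, Nat.cast_sub s.2.le]

/-- the sum of the normalised remaining weights -/
lemma sum_NN_le {C : ℝ} (hC : 0 < C) {B : Fin m → Fin m → ℝ} (hB : ∀ i j, 0 ≤ B i j)
    (hr : ∀ i, ∑ j, B i j ≤ 1) (hb : ∀ i j, B i j ≤ C / m) (π : Equiv.Perm (Fin m)) (i : Fin m) :
    ∑ t : Fin m → Fin m, NN B t univ π i / cs C m (t i) ≤ Fintype.card (Fin m → Fin m) := by
  have hm : 0 < m := by have := i.2; omega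
  have hm' : (0 : ℝ) < m := by exact_mod_cast hm
  have hcard : (Fintype.card (Fin m) : ℝ) = m := by simp
  set T : ℝ := ((Fintype.card (Fin m → Fin m) : ℕ) : ℝ) with hT
  have hT0 : 0 ≤ T := by positivity
  have hexp : ∀ t : Fin m → Fin m, NN B t univ π i / cs C m (t i) =
      ∑ i', B i (π i') * ((if t i ≤ t i' then 1 else 0) / cs C m (t i)) := by
    intro t
    unfold NN
    rw [Finset.sum_filter, Finset.sum_div]
    refine Finset.sum_congr rfl fun i' _ => ?_
    split_ifs <;> ring
  simp only [hexp]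
  rw [Finset.sum_comm]
  have h1 : ∀ i', ∑ t : Fin m → Fin m, B i (π i') * ((if t i ≤ t i' then 1 else 0) /
      cs C m (t i)) = B i (π i') * ∑ t : Fin m → Fin m, ((if t i ≤ t i' then (1 : ℝ) else 0) /
      cs C m (t i)) := fun i' => (Finset.mul_sum _ _ _).symm
  simp only [h1]
  -- the diagonal term
  have hdiag : ∑ t : Fin m → Fin m, ((if t i ≤ t i then (1 : ℝ) else 0) / cs C m (t i)) =
      T / m * ∑ s, 1 / cs C m s := by
    have := marg1 (X := Fin m) i fun s => 1 / cs C m s
    rw [hcard] at this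
    simp only [le_refl, if_true]
    rw [div_mul_eq_mul_div, eq_div_iff hm'.ne', mul_comm]
    exact this
  have hoff : ∀ i', i' ≠ i → ∑ t : Fin m → Fin m, ((if t i ≤ t i' then (1 : ℝ) else 0) /
      cs C m (t i)) = T / m * ∑ s : Fin m, ((m : ℝ) - s) / m / cs C m s := by
    intro i' hi'
    have := marg2 (X := Fin m) hi'.symm fun s s' => (if s ≤ s' then (1 : ℝ) else 0) / cs C m s
    rw [hcard] at this
    have h2 : ∀ s : Fin m, ∑ s' : Fin m, (if s ≤ s' then (1 : ℝ) else 0) / cs C m s =
        ((m : ℝ) - s) / cs C m s := by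
      intro s
      rw [← Finset.sum_div, card_ge]
    simp only [h2] at this
    have h3 : ∑ s : Fin m, ((m : ℝ) - s) / m / cs C m s =
        (∑ s : Fin m, ((m : ℝ) - s) / cs C m s) / m := by
      rw [Finset.sum_div]
      refine Finset.sum_congr rfl fun s _ => ?_
      rw [div_right_comm]
    rw [h3]
    field_simp
    linarith
  have hsum0 : ∀ s : Fin m, 0 ≤ 1 / cs C m s := fun s => (one_div_pos.2 (cs_pos hC s)).le
  have hsum1 : ∀ s : Fin m, 0 ≤ ((m : ℝ) - s) / m / cs C m s := by
    intro s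
    have h2 : ((s : ℕ) : ℝ) < m := by exact_mod_cast s.2
    have := cs_pos hC s
    have h4 : 0 ≤ (m : ℝ) - s := by linarith
    positivity
  have hS0 : 0 ≤ ∑ s : Fin m, 1 / cs C m s := Finset.sum_nonneg fun s _ => hsum0 s
  have hS1 : 0 ≤ ∑ s : Fin m, ((m : ℝ) - s) / m / cs C m s := Finset.sum_nonneg fun s _ => hsum1 s
  rw [← Finset.add_sum_erase univ _ (Finset.mem_univ i), hdiag]
  have h5 : ∑ i' ∈ univ.erase i, B i (π i') * ∑ t : Fin m → Fin m,
      ((if t i ≤ t i' then (1 : ℝ) else 0) / cs C m (t i)) =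
      (∑ i' ∈ univ.erase i, B i (π i')) * (T / m * ∑ s : Fin m, ((m : ℝ) - s) / m / cs C m s) := by
    rw [Finset.sum_mul]
    refine Finset.sum_congr rfl fun i' hi' => ?_
    rw [hoff i' (Finset.ne_of_mem_erase hi')]
  rw [h5]
  have h6 : ∑ i' ∈ univ.erase i, B i (π i') ≤ 1 := by
    refine le_trans ?_ (hr i)
    rw [← Equiv.sum_comp π (fun j => B i j)]
    exact Finset.sum_le_sum_of_subset_of_nonneg (Finset.erase_subset _ _) fun _ _ _ => hB _ _
  have hTm : 0 ≤ T / m := by positivity
  calc B i (π i) * (T / m * ∑ s : Fin m, 1 / cs C m s) +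
      (∑ i' ∈ univ.erase i, B i (π i')) * (T / m * ∑ s : Fin m, ((m : ℝ) - s) / m / cs C m s)
      ≤ C / m * (T / m * ∑ s : Fin m, 1 / cs C m s) +
        1 * (T / m * ∑ s : Fin m, ((m : ℝ) - s) / m / cs C m s) :=
        add_le_add (mul_le_mul_of_nonneg_right (hb _ _) (mul_nonneg hTm hS0))
          (mul_le_mul_of_nonneg_right h6 (mul_nonneg hTm hS1))
    _ = T / m * ∑ s : Fin m, (C / m * (1 / cs C m s) + ((m : ℝ) - s) / m / cs C m s) := by
        rw [Finset.sum_add_distrib, ← Finset.mul_sum]; ring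
    _ = T / m * ∑ _s : Fin m, 1 := by
        congr 1
        refine Finset.sum_congr rfl fun s _ => ?_
        have := cs_pos hC s
        rw [mul_one_div, ← add_div, div_eq_one_iff_eq this.ne']
        unfold cs
        ring
    _ = T := by
        simp only [Finset.sum_const, Finset.card_univ, Fintype.card_fin, nsmul_eq_mul, mul_one]
        field_simp

/-- the average of the logarithms of the remaining weights -/
lemma sum_log_le {C : ℝ} (hC : 0 < C) {B : Fin m → Fin m → ℝ} (hB : ∀ i j, 0 ≤ B i j)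
    (hr : ∀ i, ∑ j, B i j ≤ 1) (hb : ∀ i j, B i j ≤ C / m) (π : Equiv.Perm (Fin m)) (i : Fin m)
    (hpos : 0 < B i (π i)) :
    ∑ t : Fin m → Fin m, Real.log (NN B t univ π i) ≤
      Fintype.card (Fin m → Fin m) / m * ∑ s : Fin m, Real.log (cs C m s) := by
  have hm : 0 < m := by have := i.2; omega
  have hm' : (0 : ℝ) < m := by exact_mod_cast hm
  have h1 : ∀ t : Fin m → Fin m, Real.log (NN B t univ π i) ≤
      Real.log (cs C m (t i)) + (NN B t univ π i / cs C m (t i) - 1) := by
    intro t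
    have hN : 0 < NN B t univ π i := hpos.trans_le (le_NN hB t π (Finset.mem_univ i))
    have hc := cs_pos hC (t i)
    have h2 := Real.log_le_sub_one_of_pos (div_pos hN hc)
    rw [Real.log_div hN.ne' hc.ne'] at h2
    linarith
  refine (Finset.sum_le_sum fun t _ => h1 t).trans ?_
  rw [Finset.sum_add_distrib, Finset.sum_sub_distrib]
  have h2 := sum_NN_le hC hB hr hb π i
  have h3 := marg1 (X := Fin m) i fun s => Real.log (cs C m s)
  have hcard : (Fintype.card (Fin m) : ℝ) = m := by simp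
  rw [hcard] at h3
  have h4 : ∑ t : Fin m → Fin m, Real.log (cs C m (t i)) =
      Fintype.card (Fin m → Fin m) / m * ∑ s : Fin m, Real.log (cs C m s) := by
    rw [div_mul_eq_mul_div, eq_div_iff hm'.ne', mul_comm]
    exact h3
  rw [h4]
  have h5 : ∑ _t : Fin m → Fin m, (1 : ℝ) = Fintype.card (Fin m → Fin m) := by simp
  rw [h5]
  linarith

/-- the bound in terms of the comparison constants -/
lemma per_le {C : ℝ} (hC : 0 < C) {B : Fin m → Fin m → ℝ} (hB : ∀ i j, 0 ≤ B i j)
    (hr : ∀ i, ∑ j, B i j ≤ 1) (hb : ∀ i j, B i j ≤ C / m) (hm : 0 < m) :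
    ∑ π : Equiv.Perm (Fin m), ∏ i, B i (π i) ≤ Real.exp (∑ s : Fin m, Real.log (cs C m s)) := by
  have hm' : (0 : ℝ) < m := by exact_mod_cast hm
  have : Nonempty (Fin m) := ⟨⟨0, hm⟩⟩
  set T : ℝ := ((Fintype.card (Fin m → Fin m) : ℕ) : ℝ) with hT
  have hT0 : 0 < T := by
    rw [hT]; exact_mod_cast Fintype.card_pos
  set L : ℝ := ∑ s : Fin m, Real.log (cs C m s) with hL
  -- every permutation
  have key : ∀ π : Equiv.Perm (Fin m), (∏ i, B i (π i)) * Real.exp (-L) ≤
      (1 / T) * ∑ t : Fin m → Fin m, ∏ i, B i (π i) / NN B t univ π i := by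
    intro π
    by_cases h0 : ∀ i, 0 < B i (π i)
    · have hN : ∀ t i, 0 < NN B t univ π i := fun t i =>
        (h0 i).trans_le (le_NN hB t π (Finset.mem_univ i))
      have hprod : ∀ t : Fin m → Fin m, ∏ i, B i (π i) / NN B t univ π i =
          (∏ i, B i (π i)) * Real.exp (-∑ i, Real.log (NN B t univ π i)) := by
        intro t
        rw [Finset.prod_div_distrib, div_eq_mul_inv, Real.exp_neg, Real.exp_sum]
        congr 2
        exact Finset.prod_congr rfl fun i _ => (Real.exp_log (hN t i)).symm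
      simp only [hprod]
      rw [← Finset.mul_sum, mul_left_comm]
      refine mul_le_mul_of_nonneg_left ?_ (Finset.prod_nonneg fun i _ => hB _ _)
      have hj := convexOn_exp.map_sum_le (t := (univ : Finset (Fin m → Fin m)))
        (w := fun _ => 1 / T) (p := fun t => -∑ i, Real.log (NN B t univ π i))
        (fun _ _ => by positivity)
        (by
          simp only [Finset.sum_const, Finset.card_univ, nsmul_eq_mul]
          rw [← hT]
          field_simp)
        (fun _ _ => Set.mem_univ _)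
      simp only [smul_eq_mul] at hj
      rw [← Finset.mul_sum, ← Finset.mul_sum] at hj
      refine le_trans (Real.exp_le_exp.2 ?_) hj
      rw [Finset.sum_neg_distrib, mul_neg, neg_le_neg_iff, Finset.sum_comm]
      have h1 : ∑ i, ∑ t : Fin m → Fin m, Real.log (NN B t univ π i) ≤
          ∑ _i : Fin m, T / m * L :=
        Finset.sum_le_sum fun i _ => sum_log_le hC hB hr hb π i (h0 i)
      rw [Finset.sum_const, Finset.card_univ, Fintype.card_fin, nsmul_eq_mul] at h1
      have h2 : (m : ℝ) * (T / m * L) = T * L := by field_simp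
      rw [h2] at h1
      calc 1 / T * ∑ i, ∑ t : Fin m → Fin m, Real.log (NN B t univ π i)
          ≤ 1 / T * (T * L) := mul_le_mul_of_nonneg_left h1 (by positivity)
        _ = L := by field_simp
    · push Not at h0
      obtain ⟨i, hi⟩ := h0
      have hi0 : B i (π i) = 0 := le_antisymm hi (hB _ _)
      rw [Finset.prod_eq_zero (Finset.mem_univ i) hi0, zero_mul]
      refine mul_nonneg (by positivity) (Finset.sum_nonneg fun t _ =>
        Finset.prod_nonneg fun i _ => div_nonneg (hB _ _) (NN_nonneg hB t _ π i))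
  have h1 : (∑ π : Equiv.Perm (Fin m), ∏ i, B i (π i)) * Real.exp (-L) ≤ 1 := by
    rw [Finset.sum_mul]
    refine (Finset.sum_le_sum fun π _ => key π).trans ?_
    rw [← Finset.mul_sum, Finset.sum_comm]
    have h2 : ∑ t : Fin m → Fin m, ∑ π : Equiv.Perm (Fin m),
        ∏ i, B i (π i) / NN B t univ π i ≤ ∑ _t : Fin m → Fin m, (1 : ℝ) :=
      Finset.sum_le_sum fun t _ => step1' hB t
    have h3 : ∑ _t : Fin m → Fin m, (1 : ℝ) = T := by simp [hT]
    rw [h3] at h2
    calc _ ≤ 1 / T * T := mul_le_mul_of_nonneg_left h2 (by positivity)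
      _ = 1 := by field_simp
  rw [Real.exp_neg, ← div_eq_mul_inv, div_le_one (Real.exp_pos _)] at h1
  exact h1

lemma log_step {a : ℝ} (ha : 0 < a) :
    Real.log a ≤ (a + 1) * Real.log (a + 1) - a * Real.log a - 1 := by
  have h1 : 0 < a + 1 := by linarith
  have h2 := Real.one_sub_inv_le_log_of_pos (div_pos h1 ha)
  rw [Real.log_div h1.ne' ha.ne'] at h2
  have h3 : (1 : ℝ) - ((a + 1) / a)⁻¹ = 1 / (a + 1) := by
    field_simp
    ring
  rw [h3] at h2
  have h4 : 1 ≤ (a + 1) * (Real.log (a + 1) - Real.log a) := by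
    have := mul_le_mul_of_nonneg_left h2 h1.le
    rw [mul_one_div, div_self h1.ne'] at this
    exact this
  linarith

lemma sum_log_bound {C : ℝ} (hC : 0 < C) (m : ℕ) :
    ∑ k ∈ range m, Real.log (k + 1 + C) ≤
      (m + 1 + C) * Real.log (m + 1 + C) - (1 + C) * Real.log (1 + C) - m := by
  induction m with
  | zero => simp
  | succ m ih =>
    rw [Finset.sum_range_succ]
    have hm : (0 : ℝ) ≤ m := Nat.cast_nonneg m
    have h1 := log_step (a := (m : ℝ) + 1 + C) (by linarith)
    push_cast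
    have h2 : (m : ℝ) + 1 + 1 + C = (m + 1 + C) + 1 := by ring
    rw [h2]
    linarith

lemma cs_sum_le {C : ℝ} (hC : 0 < C) (m : ℕ) (hm : 0 < m) :
    ∑ s : Fin m, Real.log (cs C m s) ≤
      -(m : ℝ) + (1 + C) * (1 + Real.log (m + 1 + C)) := by
  have hm' : (0 : ℝ) < m := by exact_mod_cast hm
  have h1 : ∑ s : Fin m, Real.log (cs C m s) =
      ∑ k ∈ range m, (Real.log (k + 1 + C) - Real.log m) := by
    have h2 : ∑ s : Fin m, Real.log (cs C m s) =
        ∑ k ∈ range m, Real.log (((m : ℝ) - k + C) / m) :=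
      (Finset.sum_range fun k : ℕ => Real.log (((m : ℝ) - k + C) / m)).symm
    rw [h2, ← Finset.sum_range_reflect]
    refine Finset.sum_congr rfl fun k hk => ?_
    rw [Finset.mem_range] at hk
    have h3 : ((m - 1 - k : ℕ) : ℝ) = (m : ℝ) - 1 - k := by
      rw [Nat.cast_sub (by omega), Nat.cast_sub (by omega)]
      simp
    rw [h3]
    have hk0 : (0 : ℝ) ≤ k := Nat.cast_nonneg k
    have h4 : (m : ℝ) - ((m : ℝ) - 1 - k) + C = k + 1 + C := by ring
    rw [h4, Real.log_div (by positivity) hm'.ne']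
  rw [h1, Finset.sum_sub_distrib, Finset.sum_const, Finset.card_range, nsmul_eq_mul]
  have h2 := sum_log_bound hC m
  have h3 : 0 ≤ (1 + C) * Real.log (1 + C) := mul_nonneg (by linarith)
    (Real.log_nonneg (by linarith))
  have h4 : (0 : ℝ) < m + 1 + C := by linarith
  have h5 : (m : ℝ) * (Real.log (m + 1 + C) - Real.log m) ≤ 1 + C := by
    have := Real.log_le_sub_one_of_pos (div_pos h4 hm')
    rw [Real.log_div h4.ne' hm'.ne'] at this
    have := mul_le_mul_of_nonneg_left this hm'.le
    refine this.trans (le_of_eq ?_)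
    field_simp
    ring
  linarith

end PU

open PU in
/-- Upper bound for the permanent of a matrix with small entries. -/
theorem per_upper (C c' : ℝ) (hC : 0 < C) (hc' : 0 < c') : ∃ m₀ : ℕ, 0 < m₀ ∧ ∀ m : ℕ, m₀ ≤ m →
    ∀ (A : Fin m → Fin m → ℝ) (r : Fin m → ℝ), (∀ i j, 0 ≤ A i j) → (∀ i, 0 < r i) →
      (∀ i, ∑ j, A i j ≤ r i) → (∀ i j, A i j ≤ C / m * r i) →
      ∑ π : Equiv.Perm (Fin m), ∏ i, A i (π i) ≤ Real.exp (-(m : ℝ) + c' * m) * ∏ i, r i := by
  -- the choice of m₀
  obtain ⟨K, hK⟩ : ∃ K : ℝ, K = (1 + C) * (1 + 2 * Real.sqrt (2 + C)) := ⟨_, rfl⟩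
  have hK0 : 0 < K := by rw [hK]; positivity
  obtain ⟨m₁, hm₁⟩ := exists_nat_ge ((K / c') ^ 2)
  refine ⟨m₁ + 1, by omega, ?_⟩
  intro m hm A r hA hr hrow hent
  have hm0 : 0 < m := by omega
  have hm' : (0 : ℝ) < m := by exact_mod_cast hm0
  have hm1 : (1 : ℝ) ≤ m := by exact_mod_cast hm0
  have hlog : (1 + C) * (1 + Real.log (m + 1 + C)) ≤ c' * m := by
    have h4 : (0 : ℝ) < m + 1 + C := by linarith
    have h5 : Real.log (m + 1 + C) ≤ 2 * Real.sqrt (m + 1 + C) := by
      have h6 := Real.log_le_sub_one_of_pos (Real.sqrt_pos.2 h4)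
      rw [Real.log_sqrt h4.le] at h6
      linarith
    have h7 : Real.sqrt (m + 1 + C) ≤ Real.sqrt (2 + C) * Real.sqrt m := by
      rw [← Real.sqrt_mul (by linarith)]
      apply Real.sqrt_le_sqrt
      nlinarith
    have h8 : 1 ≤ Real.sqrt m := by
      rw [Real.one_le_sqrt]; exact hm1
    have h9 : (1 + C) * (1 + Real.log (m + 1 + C)) ≤ K * Real.sqrt m := by
      rw [hK, mul_assoc]
      refine mul_le_mul_of_nonneg_left ?_ (by linarith)
      nlinarith
    refine h9.trans ?_
    have h10 : K / c' ≤ Real.sqrt m := by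
      apply Real.le_sqrt_of_sq_le
      refine hm₁.trans ?_
      exact_mod_cast (by omega : m₁ ≤ m)
    have h11 : K ≤ c' * Real.sqrt m := by
      rw [div_le_iff₀ hc'] at h10
      linarith
    calc K * Real.sqrt m ≤ c' * Real.sqrt m * Real.sqrt m :=
          mul_le_mul_of_nonneg_right h11 (Real.sqrt_nonneg _)
      _ = c' * m := by rw [mul_assoc, Real.mul_self_sqrt hm'.le]
  -- normalise
  set B : Fin m → Fin m → ℝ := fun i j => A i j / r i with hB
  have hBA : ∀ i j, A i j = r i * B i j := by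
    intro i j
    rw [hB]
    dsimp only
    rw [mul_div_cancel₀ _ (hr i).ne']
  have h1 := per_le hC (B := B) (fun i j => div_nonneg (hA i j) (hr i).le)
    (fun i => by
      rw [hB]
      dsimp only
      rw [← Finset.sum_div, div_le_one (hr i)]
      exact hrow i)
    (fun i j => by
      rw [hB]
      dsimp only
      rw [div_le_iff₀ (hr i)]
      exact hent i j) hm0
  have h2 : ∑ π : Equiv.Perm (Fin m), ∏ i, A i (π i) =
      (∏ i, r i) * ∑ π : Equiv.Perm (Fin m), ∏ i, B i (π i) := by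
    rw [Finset.mul_sum]
    refine Finset.sum_congr rfl fun π _ => ?_
    rw [← Finset.prod_mul_distrib]
    exact Finset.prod_congr rfl fun i _ => hBA _ _
  rw [h2, mul_comm (Real.exp _)]
  refine mul_le_mul_of_nonneg_left (h1.trans (Real.exp_le_exp.2 ?_))
    (Finset.prod_nonneg fun i _ => (hr i).le)
  have h3 := cs_sum_le hC m hm0
  linarith

end Pool.Agent.Helper34.AE
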