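import Pool.Agent.Helper34.AE.Response
import Pool.Agent.Helper34.AD.Process

set_option autoImplicit false

namespace Pool.Agent.Helper34.AE

open Finset Pool.Agent.Helper34.CP Pool.Agent.Helper34.AD

variable {m : ℕ}

/-- rectangles are step sets -/
theorem isStep_rect (N : ℕ) (hN : 2 ≤ N) (I J : Finset (Fin m)) : IsStep N (I ×ˢ J) := by
  classical
  refine ⟨fun i => if i ∈ I then 1 else 0, fun j => if j ∈ J then 1 else 0, ?_, ?_, ?_⟩
  · intro i; simp only; split_ifs <;> omega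
  · intro i; simp only; split_ifs <;> omega
  · intro i j i' j' h1 h2
    simp only [mem_product]
    simp only at h1 h2
    have e1 : i ∈ I ↔ i' ∈ I := by
      by_cases ha : i ∈ I <;> by_cases hb : i' ∈ I <;> simp [ha, hb] at h1 ⊢
    have e2 : j ∈ J ↔ j' ∈ J := by
      by_cases ha : j ∈ J <;> by_cases hb : j' ∈ J <;> simp [ha, hb] at h2 ⊢
    rw [e1, e2]

/-- pull back a set of cells through a permutation of the columns -/
def pull (s : Equiv.Perm (Fin m)) (S : Finset (Fin m × Fin m)) : Finset (Fin m × Fin m) :=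
  S.map ((Equiv.refl (Fin m)).prodCongr s.symm).toEmbedding

theorem mem_pull (s : Equiv.Perm (Fin m)) (S : Finset (Fin m × Fin m)) (i c : Fin m) :
    (i, c) ∈ pull s S ↔ (i, s c) ∈ S := by
  unfold pull
  rw [mem_map]
  constructor
  · rintro ⟨⟨a, b⟩, hab, h⟩
    simp only [Equiv.coe_toEmbedding, Equiv.prodCongr_apply, Prod.map_apply, Equiv.refl_apply,
      Prod.mk.injEq] at h
    obtain ⟨rfl, rfl⟩ := h
    simpa using hab
  · intro h
    exact ⟨(i, s c), h, by simp⟩

theorem card_pull (s : Equiv.Perm (Fin m)) (S : Finset (Fin m × Fin m)) :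
    (pull s S).card = S.card := card_map _

theorem isStep_pull (s : Equiv.Perm (Fin m)) (S : Finset (Fin m × Fin m)) (N : ℕ)
    (h : IsStep N S) : IsStep N (pull s S) := by
  obtain ⟨ρ, χ, h1, h2, h3⟩ := h
  refine ⟨ρ, fun c => χ (s c), h1, fun c => h2 _, ?_⟩
  intro i j i' j' h4 h5
  rw [mem_pull, mem_pull]
  exact h3 i (s j) i' (s j') h4 h5

theorem sum_pull (s : Equiv.Perm (Fin m)) (S : Finset (Fin m × Fin m)) (P : Fin m → Fin m → ℝ) :
    ∑ p ∈ S, P p.1 (s.symm p.2) = ∑ p ∈ pull s S, P p.1 p.2 := by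
  unfold pull
  rw [sum_map]
  rfl

theorem sum_rect (f : Fin m → Fin m → ℝ) (I J : Finset (Fin m)) :
    ∑ i ∈ I, ∑ j ∈ J, f i j = ∑ p ∈ I ×ˢ J, f p.1 p.2 := by
  rw [sum_product]

section
variable {V : Type}

/-- Non-admissible cells in a rectangle are hit. -/
theorem nonadm_rect (G : SimpleGraph V) [DecidableRel G.Adj] (σ : V → V → Equiv.Perm (Fin m))
    (S : Finset V) (π : V → Equiv.Perm (Fin m)) (v : V)
    [∀ i c, Decidable (Adm G σ S π v i c)] (A B : Finset (Fin m)) :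
    A.card * B.card ≤ ((A ×ˢ B).filter (fun p => Adm G σ S π v p.1 p.2)).card +
      ∑ u ∈ S.filter (fun u => G.Adj u v), (A.filter (fun a => σ u v (π u a) ∈ B)).card := by
  classical
  rw [← card_product, ← card_filter_add_card_filter_not (s := A ×ˢ B)
    (fun p => Adm G σ S π v p.1 p.2)]
  refine Nat.add_le_add_left ?_ _
  have hsub : (A ×ˢ B).filter (fun p => ¬ Adm G σ S π v p.1 p.2) ⊆
      (S.filter (fun u => G.Adj u v)).biUnion
      (fun u => (A.filter (fun a => σ u v (π u a) ∈ B)).image (fun a => (a, σ u v (π u a)))) := by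
    rintro ⟨a, b⟩ hab
    rw [mem_filter, mem_product] at hab
    obtain ⟨⟨ha, hb'⟩, hn⟩ := hab
    unfold Adm at hn
    push Not at hn
    obtain ⟨u, hu, huv, hb⟩ := hn
    rw [mem_biUnion]
    refine ⟨u, by rw [mem_filter]; exact ⟨hu, huv⟩, ?_⟩
    rw [mem_image]
    simp only at hb hb' ha
    refine ⟨a, ?_, by rw [hb]⟩
    rw [mem_filter]
    refine ⟨ha, ?_⟩
    rw [← hb]
    exact hb'
  refine (card_le_card hsub).trans (card_biUnion_le.trans ?_)
  exact sum_le_sum (fun u _ => card_image_le)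

/-- the expected table of hits at `v` -/
noncomputable def QQ (G : SimpleGraph V) [DecidableRel G.Adj] (σ : V → V → Equiv.Perm (Fin m))
    (S : Finset V) (P : V → Fin m → Fin m → ℝ) (v : V) (i j : Fin m) : ℝ :=
  ∑ u ∈ S.filter (fun u => G.Adj u v), P u i ((σ u v).symm j)

/-- the deviation of the hits at `v` from their expected number, on a rectangle -/
noncomputable def dev (G : SimpleGraph V) [DecidableRel G.Adj] (σ : V → V → Equiv.Perm (Fin m))
    (S : Finset V) (π : V → Equiv.Perm (Fin m)) (P : V → Fin m → Fin m → ℝ) (v : V)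
    (I J : Finset (Fin m)) : ℝ :=
  ∑ u ∈ S.filter (fun u => G.Adj u v), (((I.filter (fun a => σ u v (π u a) ∈ J)).card : ℝ) -
    ∑ i ∈ I, ∑ j ∈ J, P u i ((σ u v).symm j))

/-- the properties of the tables of coloured vertices -/
structure Tab (C : ℝ) (G0 : ℕ) (R : ℕ → ℕ) (F : ℕ → ℝ) (J : ℝ) (P : Fin m → Fin m → ℝ) : Prop where
  nn : ∀ i j, 0 ≤ P i j
  ub : ∀ i j, P i j ≤ C / m
  row : ∀ i, ∑ j, P i j = 1
  col : ∀ j, ∑ i, P i j = 1
  lev : ∀ g < G0, ∀ S : Finset (Fin m × Fin m), IsStep (R g) S →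
    ∑ p ∈ S, P p.1 p.2 ≤ S.card / m + J * F g * m

/-- the bound of the top level is trivial -/
theorem Tab.lev_top {C : ℝ} {G0 : ℕ} {R : ℕ → ℕ} {F : ℕ → ℝ} {J : ℝ} {P : Fin m → Fin m → ℝ}
    (h : Tab C G0 R F J P) (hJ : 1 ≤ J) (hF : 1 ≤ F G0) :
    ∀ g ≤ G0, ∀ S : Finset (Fin m × Fin m), IsStep (R g) S →
      ∑ p ∈ S, P p.1 p.2 ≤ S.card / m + J * F g * m := by
  intro g hg S hS
  rcases hg.lt_or_eq with h1 | h1
  · exact h.lev g h1 S hS
  · have h2 : ∑ p ∈ S, P p.1 p.2 ≤ ∑ p : Fin m × Fin m, P p.1 p.2 :=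
      sum_le_sum_of_subset_of_nonneg (subset_univ _) (fun p _ _ => h.nn _ _)
    have h3 : ∑ p : Fin m × Fin m, P p.1 p.2 = m := by
      rw [Fintype.sum_prod_type]
      simp [h.row]
    rw [h3] at h2
    have h4 : (0 : ℝ) ≤ (S.card : ℝ) / m := by positivity
    have h5 : (m : ℝ) ≤ J * F g * m := by
      rw [h1]
      have : 1 ≤ J * F G0 := by nlinarith
      calc (m : ℝ) = 1 * m := (one_mul _).symm
        _ ≤ _ := mul_le_mul_of_nonneg_right this (Nat.cast_nonneg _)
    linarith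

/-- The table for the next vertex. -/
theorem next_table (δ γ η : ℝ) (hδ : 0 < δ) (hδ1 : δ ≤ 1) (hγ : 0 < γ) (hη : 0 < η) (G0 : ℕ)
    (hG0 : 0 < G0) (F : ℕ → ℝ) (hF0 : F 0 ≤ δ ^ 4 / 8) (hFpos : ∀ g, 0 < F g)
    (hFtop : 1 ≤ F G0) (hFrec : ∀ g < G0, F (g + 1) / (1 + γ) + η ≤ F g) :
    ∃ (R : ℕ → ℕ) (lam : ℝ) (m₀ : ℕ), 0 < lam ∧ lam ≤ δ ^ 3 / 8 ∧ 2 ≤ R 0 ∧ 0 < m₀ ∧
      ∀ (m : ℕ), m₀ ≤ m →
      ∀ (V : Type) [Fintype V] [DecidableEq V] (G : SimpleGraph V) [DecidableRel G.Adj]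
        (σ : V → V → Equiv.Perm (Fin m)) (S : Finset V) (π : V → Equiv.Perm (Fin m))
        (P : V → Fin m → Fin m → ℝ) (J : V → ℝ) (v : V),
        (∀ u ∈ S, 1 ≤ J u ∧ J u ≤ 1 / δ) → 1 ≤ J v → J v ≤ 1 / δ →
        (∀ u ∈ S, Tab (2 / δ) G0 R F (J u) (P u)) →
        (1 + (1 + γ) / m * ∑ u ∈ S.filter (fun u => G.Adj u v), J u ≤
          J v * (1 - ((S.filter (fun u => G.Adj u v)).card : ℝ) / m)) →
        (∀ I K : Finset (Fin m), dev G σ S π P v I K ≤ lam * m ^ 2) →
        ∃ Pv : Fin m → Fin m → ℝ, Tab (2 / δ) G0 R F (J v) Pv ∧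
          ∀ i j, ¬ Adm G σ S π v i j → Pv i j = 0 := by
  classical
  obtain ⟨R, lam, m₀, hlam, hlam1, hR0, hm₀, hresp⟩ := response δ η hδ hδ1 hη G0
  refine ⟨R, lam, m₀, hlam, hlam1, hR0, hm₀, ?_⟩
  intro m hm V _ _ G _ σ S π P J v hJS hJv1 hJvK htab hJ hdev
  have hmn : 0 < m := lt_of_lt_of_le hm₀ hm
  have hmr : (0 : ℝ) < m := by exact_mod_cast hmn
  set N := S.filter (fun u => G.Adj u v) with hN
  set κ : ℝ := 1 - (N.card : ℝ) / m with hκ
  have hNS : ∀ u ∈ N, u ∈ S := fun u hu => (mem_filter.1 hu).1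
  have hsum0 : 0 ≤ ∑ u ∈ N, J u := sum_nonneg (fun u hu => by
    have := (hJS u (hNS u hu)).1; linarith)
  have h1 : 1 ≤ J v * κ := by
    have : 0 ≤ (1 + γ) / m * ∑ u ∈ N, J u := by positivity
    linarith
  have hJv0 : 0 < J v := by linarith
  have hκ0 : 0 < κ := by
    by_contra hc
    push Not at hc
    have : J v * κ ≤ 0 := mul_nonpos_of_nonneg_of_nonpos hJv0.le hc
    linarith
  have hκδ : δ ≤ κ := by
    have h2 : J v * κ ≤ 1 / δ * κ := mul_le_mul_of_nonneg_right hJvK hκ0.le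
    have h3 : 1 ≤ 1 / δ * κ := h1.trans h2
    rw [div_mul_eq_mul_div, one_mul, le_div_iff₀ hδ] at h3
    linarith
  have hκ1 : κ ≤ 1 := by
    have : (0 : ℝ) ≤ (N.card : ℝ) / m := by positivity
    rw [hκ]; linarith
  have hNm : (N.card : ℝ) = (1 - κ) * m := by
    rw [hκ]; field_simp; ring
  -- level bounds of Q
  have hQsum : ∀ T : Finset (Fin m × Fin m), ∑ p ∈ T, (QQ G σ S P v p.1 p.2 - (1 - κ)) =
      ∑ u ∈ N, (∑ p ∈ pull (σ u v) T, P u p.1 p.2 - (T.card : ℝ) / m) := by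
    intro T
    have e1 : ∑ p ∈ T, (QQ G σ S P v p.1 p.2 - (1 - κ)) =
        ∑ p ∈ T, QQ G σ S P v p.1 p.2 - T.card * (1 - κ) := by
      rw [sum_sub_distrib, sum_const, nsmul_eq_mul]
    have e2 : ∑ u ∈ N, (∑ p ∈ pull (σ u v) T, P u p.1 p.2 - (T.card : ℝ) / m) =
        ∑ u ∈ N, ∑ p ∈ pull (σ u v) T, P u p.1 p.2 - N.card * ((T.card : ℝ) / m) := by
      rw [sum_sub_distrib, sum_const, nsmul_eq_mul]
    rw [e1, e2, hNm]
    unfold QQ
    rw [sum_comm]
    congr 1
    · exact sum_congr rfl (fun u _ => sum_pull _ _ _)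
    · generalize (1 - κ) = y
      have h0 : (m : ℝ) ≠ 0 := hmr.ne'
      calc (T.card : ℝ) * y = (m / m) * (T.card * y) := by rw [div_self h0, one_mul]
        _ = _ := by ring
  have hlev : ∀ g ≤ G0, ∀ T : Finset (Fin m × Fin m), IsStep (R g) T →
      ∑ p ∈ T, (QQ G σ S P v p.1 p.2 - (1 - κ)) ≤ (F g * ((∑ u ∈ N, J u) / m)) * m ^ 2 := by
    intro g hg T hT
    rw [hQsum]
    have h4 : ∀ u ∈ N, ∑ p ∈ pull (σ u v) T, P u p.1 p.2 - (T.card : ℝ) / m ≤ J u * F g * m := by
      intro u hu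
      have h5 := (htab u (hNS u hu)).lev_top (hJS u (hNS u hu)).1 hFtop g hg _
        (isStep_pull (σ u v) T _ hT)
      rw [card_pull] at h5
      linarith
    refine (sum_le_sum h4).trans (le_of_eq ?_)
    rw [← sum_mul, ← sum_mul]
    field_simp
  have hJsum : (∑ u ∈ N, J u) / m ≤ (J v * κ - 1) / (1 + γ) := by
    rw [le_div_iff₀ (by linarith)]
    have : (1 + γ) / m * ∑ u ∈ N, J u = (∑ u ∈ N, J u) / m * (1 + γ) := by ring
    linarith
  have hJsum2 : (∑ u ∈ N, J u) / m ≤ 1 / δ := by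
    rw [div_le_iff₀ hmr]
    calc ∑ u ∈ N, J u ≤ ∑ u ∈ N, 1 / δ := sum_le_sum (fun u hu => (hJS u (hNS u hu)).2)
      _ = (N.card : ℝ) * (1 / δ) := by rw [sum_const, nsmul_eq_mul]
      _ ≤ m * (1 / δ) := by
          refine mul_le_mul_of_nonneg_right ?_ (by positivity)
          rw [hNm]
          nlinarith
      _ = _ := by ring
  have hres : Resp m (fun i j => Adm G σ S π v i j) (QQ G σ S P v) κ δ lam := by
    refine ⟨hmn, hδ, hδ1, hκδ, hκ1, hlam, hlam1, ?_, ?_, ?_, ?_, ?_, ?_, ?_⟩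
    · intro i j
      exact sum_nonneg (fun u hu => (htab u (hNS u hu)).nn _ _)
    · intro i
      unfold QQ
      rw [sum_comm]
      have : ∀ u ∈ N, ∑ j, P u i ((σ u v).symm j) = 1 := by
        intro u hu
        rw [Equiv.sum_comp (σ u v).symm (fun j => P u i j)]
        exact (htab u (hNS u hu)).row i
      rw [sum_congr rfl this]
      simp only [sum_const, nsmul_eq_mul, mul_one]
      exact hNm
    · intro j
      unfold QQ
      rw [sum_comm]
      have : ∀ u ∈ N, ∑ i, P u i ((σ u v).symm j) = 1 := by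
        intro u hu
        exact (htab u (hNS u hu)).col _
      rw [sum_congr rfl this]
      simp only [sum_const, nsmul_eq_mul, mul_one]
      exact hNm
    · intro i
      have h6 := nonadm_row G σ S π v i
      have h7 := card_filter_add_card_filter_not (s := (univ : Finset (Fin m)))
        (fun c => Adm G σ S π v i c)
      rw [card_univ, Fintype.card_fin] at h7
      have h8 : (m : ℝ) ≤ ((univ.filter (fun j => Adm G σ S π v i j)).card : ℝ) + N.card := by
        have : m ≤ (univ.filter (fun j => Adm G σ S π v i j)).card + N.card := by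
          have : dg G S v = N.card := rfl
          omega
        exact_mod_cast this
      nlinarith
    · intro j
      have h6 := nonadm_col G σ S π v j
      have h7 := card_filter_add_card_filter_not (s := (univ : Finset (Fin m)))
        (fun i => Adm G σ S π v i j)
      rw [card_univ, Fintype.card_fin] at h7
      have h8 : (m : ℝ) ≤ ((univ.filter (fun i => Adm G σ S π v i j)).card : ℝ) + N.card := by
        have : m ≤ (univ.filter (fun i => Adm G σ S π v i j)).card + N.card := by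
          have : dg G S v = N.card := rfl
          omega
        exact_mod_cast this
      nlinarith
    · intro I K
      have h9 := nonadm_rect G σ S π v I K
      have h10 := hdev I K
      unfold dev at h10
      rw [sum_sub_distrib] at h10
      have e1 : ∑ u ∈ N, ∑ i ∈ I, ∑ j ∈ K, P u i ((σ u v).symm j) =
          ∑ i ∈ I, ∑ j ∈ K, QQ G σ S P v i j := by
        unfold QQ
        rw [sum_comm]
        refine sum_congr rfl (fun i _ => ?_)
        rw [sum_comm]
      rw [← hN, e1] at h10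
      have h11 : (I.card : ℝ) * K.card ≤
          (((I ×ˢ K).filter (fun p => Adm G σ S π v p.1 p.2)).card : ℝ) +
          ∑ u ∈ N, ((I.filter (fun a => σ u v (π u a) ∈ K)).card : ℝ) := by
        exact_mod_cast h9
      linarith
    · intro I K
      rw [sum_rect (fun i j => QQ G σ S P v i j - (1 - κ))]
      refine (hlev 0 (Nat.zero_le _) _ (isStep_rect _ hR0 I K)).trans ?_
      refine mul_le_mul_of_nonneg_right ?_ (by positivity)
      calc F 0 * ((∑ u ∈ N, J u) / m) ≤ (δ ^ 4 / 8) * (1 / δ) :=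
            mul_le_mul hF0 hJsum2 (by positivity) (by positivity)
        _ = δ ^ 3 / 8 := by field_simp
  obtain ⟨Pv, hp1, hp2, hp3, hp4, hp5, hp6⟩ := hresp m hm (fun i j => Adm G σ S π v i j)
    (QQ G σ S P v) κ (fun g => F g * ((∑ u ∈ N, J u) / m)) hres
    (fun g hg T hT => hlev (g + 1) hg T hT)
  refine ⟨Pv, ⟨hp1, hp2, hp4, hp5, ?_⟩, hp3⟩
  intro g hg T hT
  refine (hp6 g hg T hT).trans ?_
  have h12 : F (g + 1) * ((∑ u ∈ N, J u) / m) / κ + η ≤ J v * F g := by
    have hFg := hFpos (g + 1)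
    have h13 : F (g + 1) * ((∑ u ∈ N, J u) / m) / κ ≤ F (g + 1) * (J v / (1 + γ)) := by
      rw [div_le_iff₀ hκ0, mul_assoc]
      refine mul_le_mul_of_nonneg_left ?_ hFg.le
      refine hJsum.trans ?_
      rw [div_mul_eq_mul_div]
      exact div_le_div_of_nonneg_right (by linarith) (by linarith)
    have h14 := hFrec g hg
    have h15 : J v * (F (g + 1) / (1 + γ) + η) ≤ J v * F g := mul_le_mul_of_nonneg_left h14 hJv0.le
    have h16 : η ≤ J v * η := by nlinarith
    have h17 : F (g + 1) * (J v / (1 + γ)) = J v * (F (g + 1) / (1 + γ)) := by ring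
    rw [mul_add] at h15
    linarith
  have h18 := mul_le_mul_of_nonneg_right h12 hmr.le
  linarith

end

end Pool.Agent.Helper34.AE
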