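import Pool.Agent.Helper34.AE.ProcA
import Pool.Agent.Helper34.AE.GibbsMgf
import Pool.Agent.Helper34.AE.PerLower
import Pool.Agent.Helper34.AE.PerUpper

set_option autoImplicit false

namespace Pool.Agent.Helper34.AE

open Finset Pool.Agent.Helper34.CP Pool.Agent.Helper34.AD

variable {m : ℕ}

theorem gibbs_mgf (C c' : ℝ) (hC : 0 < C) (hc' : 0 < c') : ∃ m₀ : ℕ, 0 < m₀ ∧ ∀ m : ℕ, m₀ ≤ m →
    ∀ (P : Fin m → Fin m → ℝ), (∀ i j, 0 ≤ P i j) → (∀ i j, P i j ≤ C / m) →
      (∀ i, ∑ j, P i j = 1) → (∀ j, ∑ i, P i j = 1) →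
      ∀ (I J : Finset (Fin m)) (θ : ℝ), 0 ≤ θ → θ ≤ 1 →
        ∑ π : Equiv.Perm (Fin m), (∏ i, P i (π i)) *
            Real.exp (θ * (((I.filter (fun i => π i ∈ J)).card : ℝ) - ∑ i ∈ I, ∑ j ∈ J, P i j))
          ≤ Real.exp (θ ^ 2 * m + c' * m) * ∑ π : Equiv.Perm (Fin m), ∏ i, P i (π i) :=
  gibbs_mgf_of per_lower per_upper C c' hC hc'

section
variable {V : Type} [Fintype V] [DecidableEq V]

/-- the potential of a vertex -/
noncomputable def pot (G : SimpleGraph V) [DecidableRel G.Adj] (σ : V → V → Equiv.Perm (Fin m))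
    (S : Finset V) (π : V → Equiv.Perm (Fin m)) (P : V → Fin m → Fin m → ℝ) (θ : ℝ) (v : V) : ℝ :=
  ∑ B : Finset (Fin m) × Finset (Fin m), Real.exp (θ * dev G σ S π P v B.1 B.2)

/-- one more hit table -/
noncomputable def inc (s f : Equiv.Perm (Fin m)) (Pu : Fin m → Fin m → ℝ)
    (I J : Finset (Fin m)) : ℝ :=
  ((I.filter (fun a => s (f a) ∈ J)).card : ℝ) - ∑ i ∈ I, ∑ j ∈ J, Pu i (s.symm j)

theorem dev_insert (G : SimpleGraph V) [DecidableRel G.Adj] (σ : V → V → Equiv.Perm (Fin m))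
    (S : Finset V) (π : V → Equiv.Perm (Fin m)) (P : V → Fin m → Fin m → ℝ) (u v : V)
    (hu : u ∉ S) (f : Equiv.Perm (Fin m)) (Pu : Fin m → Fin m → ℝ) (I J : Finset (Fin m)) :
    dev G σ (insert u S) (Function.update π u f) (Function.update P u Pu) v I J =
      dev G σ S π P v I J + (if G.Adj u v then inc (σ u v) f Pu I J else 0) := by
  unfold dev
  rw [filter_insert]
  have hcongr : ∑ x ∈ S.filter (fun u => G.Adj u v),
      (((I.filter (fun a => σ x v (Function.update π u f x a) ∈ J)).card : ℝ) -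
        ∑ i ∈ I, ∑ j ∈ J, Function.update P u Pu x i ((σ x v).symm j)) =
      ∑ x ∈ S.filter (fun u => G.Adj u v), (((I.filter (fun a => σ x v (π x a) ∈ J)).card : ℝ) -
        ∑ i ∈ I, ∑ j ∈ J, P x i ((σ x v).symm j)) := by
    refine sum_congr rfl (fun x hx => ?_)
    have hne : x ≠ u := fun h => hu (h ▸ (mem_filter.1 hx).1)
    rw [Function.update_of_ne hne, Function.update_of_ne hne]
  by_cases h : G.Adj u v
  · rw [if_pos h, if_pos h, sum_insert (fun hc => hu (mem_filter.1 hc).1), hcongr,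
      Function.update_self, Function.update_self, add_comm]
    rfl
  · rw [if_neg h, if_neg h, hcongr, add_zero]

theorem inc_mgf (C c' : ℝ) (m : ℕ)
    (hg : ∀ (P : Fin m → Fin m → ℝ), (∀ i j, 0 ≤ P i j) → (∀ i j, P i j ≤ C / m) →
      (∀ i, ∑ j, P i j = 1) → (∀ j, ∑ i, P i j = 1) →
      ∀ (I J : Finset (Fin m)) (θ : ℝ), 0 ≤ θ → θ ≤ 1 →
        ∑ π : Equiv.Perm (Fin m), (∏ i, P i (π i)) *
            Real.exp (θ * (((I.filter (fun i => π i ∈ J)).card : ℝ) - ∑ i ∈ I, ∑ j ∈ J, P i j))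
          ≤ Real.exp (θ ^ 2 * m + c' * m) * ∑ π : Equiv.Perm (Fin m), ∏ i, P i (π i))
    (P : Fin m → Fin m → ℝ) (h1 : ∀ i j, 0 ≤ P i j) (h2 : ∀ i j, P i j ≤ C / m)
    (h3 : ∀ i, ∑ j, P i j = 1) (h4 : ∀ j, ∑ i, P i j = 1) (s : Equiv.Perm (Fin m))
    (I J : Finset (Fin m)) (θ : ℝ) (h5 : 0 ≤ θ) (h6 : θ ≤ 1) :
    ∑ π : Equiv.Perm (Fin m), (∏ i, P i (π i)) * Real.exp (θ * inc s π P I J)
      ≤ Real.exp (θ ^ 2 * m + c' * m) * ∑ π : Equiv.Perm (Fin m), ∏ i, P i (π i) := by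
  have := hg P h1 h2 h3 h4 I (J.map s.symm.toEmbedding) θ h5 h6
  refine le_trans (le_of_eq ?_) this
  refine sum_congr rfl (fun π _ => ?_)
  congr 3
  unfold inc
  congr 1
  · congr 2
    ext a
    simp only [mem_filter, mem_map, Equiv.coe_toEmbedding]
    refine and_congr_right (fun _ => ?_)
    constructor
    · intro h
      exact ⟨s (π a), h, by simp⟩
    · rintro ⟨x, hx, hxa⟩
      rw [← hxa]
      simpa using hx
  · refine sum_congr rfl (fun i _ => ?_)
    rw [sum_map]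
    rfl

/-- a good permutation exists -/
theorem choose_perm (C c' : ℝ) (m : ℕ)
    (hg : ∀ (P : Fin m → Fin m → ℝ), (∀ i j, 0 ≤ P i j) → (∀ i j, P i j ≤ C / m) →
      (∀ i, ∑ j, P i j = 1) → (∀ j, ∑ i, P i j = 1) →
      ∀ (I J : Finset (Fin m)) (θ : ℝ), 0 ≤ θ → θ ≤ 1 →
        ∑ π : Equiv.Perm (Fin m), (∏ i, P i (π i)) *
            Real.exp (θ * (((I.filter (fun i => π i ∈ J)).card : ℝ) - ∑ i ∈ I, ∑ j ∈ J, P i j))
          ≤ Real.exp (θ ^ 2 * m + c' * m) * ∑ π : Equiv.Perm (Fin m), ∏ i, P i (π i))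
    (P : Fin m → Fin m → ℝ) (h1 : ∀ i j, 0 ≤ P i j) (h2 : ∀ i j, P i j ≤ C / m)
    (h3 : ∀ i, ∑ j, P i j = 1) (h4 : ∀ j, ∑ i, P i j = 1) (θ : ℝ) (h5 : 0 ≤ θ) (h6 : θ ≤ 1)
    (s : V → Equiv.Perm (Fin m)) (D : V → Finset (Fin m) × Finset (Fin m) → ℝ)
    (X : Finset V) (Δ : ℝ) (hΔ : 1 ≤ Δ) (hX : (X.card : ℝ) ≤ Δ) :
    ∃ f : Equiv.Perm (Fin m), (∀ i, 0 < P i (f i)) ∧ ∀ x ∈ X,
      ∑ B, Real.exp (θ * (D x B + inc (s x) f P B.1 B.2)) ≤
        2 * Δ * Real.exp (θ ^ 2 * m + c' * m) * ∑ B, Real.exp (θ * D x B) := by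
  classical
  set E := Real.exp (θ ^ 2 * m + c' * m) with hE
  have hE0 : 0 < E := Real.exp_pos _
  set W := ∑ π : Equiv.Perm (Fin m), ∏ i, P i (π i) with hW
  have hW0 : 0 < W := lt_of_lt_of_le (Real.exp_pos _) (per_lower P h1 h3 h4)
  have hprod0 : ∀ f : Equiv.Perm (Fin m), 0 ≤ ∏ i, P i (f i) := fun f =>
    prod_nonneg (fun i _ => h1 _ _)
  have hold : ∀ x, 0 < ∑ B, Real.exp (θ * D x B) := fun x =>
    sum_pos (fun B _ => Real.exp_pos _) univ_nonempty
  by_contra hcon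
  push Not at hcon
  -- every permutation of positive weight is bad for some vertex
  have hbad : ∀ f : Equiv.Perm (Fin m), (∏ i, P i (f i)) ≤ (∏ i, P i (f i)) *
      ∑ x ∈ X, (∑ B, Real.exp (θ * (D x B + inc (s x) f P B.1 B.2))) /
        (2 * Δ * E * ∑ B, Real.exp (θ * D x B)) := by
    intro f
    by_cases hf : ∀ i, 0 < P i (f i)
    · obtain ⟨x, hx, hxb⟩ := hcon f hf
      have h7 : 1 ≤ (∑ B, Real.exp (θ * (D x B + inc (s x) f P B.1 B.2))) /
        (2 * Δ * E * ∑ B, Real.exp (θ * D x B)) := by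
        rw [one_le_div (by have := hold x; positivity)]
        exact hxb.le
      have h8 : (∑ B, Real.exp (θ * (D x B + inc (s x) f P B.1 B.2))) /
        (2 * Δ * E * ∑ B, Real.exp (θ * D x B)) ≤
        ∑ x ∈ X, (∑ B, Real.exp (θ * (D x B + inc (s x) f P B.1 B.2))) /
        (2 * Δ * E * ∑ B, Real.exp (θ * D x B)) :=
        single_le_sum (f := fun x => (∑ B, Real.exp (θ * (D x B + inc (s x) f P B.1 B.2))) /
        (2 * Δ * E * ∑ B, Real.exp (θ * D x B))) (fun y _ => by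
          have := hold y
          positivity) hx
      calc (∏ i, P i (f i)) = (∏ i, P i (f i)) * 1 := (mul_one _).symm
        _ ≤ _ := mul_le_mul_of_nonneg_left (h7.trans h8) (hprod0 f)
    · push Not at hf
      obtain ⟨i, hi⟩ := hf
      have h9 : P i (f i) = 0 := le_antisymm hi (h1 _ _)
      have h10 : ∏ i, P i (f i) = 0 := prod_eq_zero (mem_univ i) h9
      rw [h10, zero_mul]
  have hsum : W ≤ ∑ f : Equiv.Perm (Fin m), (∏ i, P i (f i)) *
      ∑ x ∈ X, (∑ B, Real.exp (θ * (D x B + inc (s x) f P B.1 B.2))) /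
        (2 * Δ * E * ∑ B, Real.exp (θ * D x B)) := sum_le_sum (fun f _ => hbad f)
  have hswap : ∑ f : Equiv.Perm (Fin m), (∏ i, P i (f i)) *
      ∑ x ∈ X, (∑ B, Real.exp (θ * (D x B + inc (s x) f P B.1 B.2))) /
        (2 * Δ * E * ∑ B, Real.exp (θ * D x B)) =
      ∑ x ∈ X, (∑ B, Real.exp (θ * D x B) *
        ∑ f : Equiv.Perm (Fin m), (∏ i, P i (f i)) * Real.exp (θ * inc (s x) f P B.1 B.2)) /
        (2 * Δ * E * ∑ B, Real.exp (θ * D x B)) := by
    have e1 : ∀ f : Equiv.Perm (Fin m), (∏ i, P i (f i)) *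
      ∑ x ∈ X, (∑ B, Real.exp (θ * (D x B + inc (s x) f P B.1 B.2))) /
        (2 * Δ * E * ∑ B, Real.exp (θ * D x B)) = ∑ x ∈ X, (∑ B, Real.exp (θ * D x B) *
          ((∏ i, P i (f i)) * Real.exp (θ * inc (s x) f P B.1 B.2))) /
        (2 * Δ * E * ∑ B, Real.exp (θ * D x B)) := by
      intro f
      rw [mul_sum]
      refine sum_congr rfl (fun x _ => ?_)
      rw [← mul_div_assoc, mul_sum]
      congr 1
      refine sum_congr rfl (fun B _ => ?_)
      rw [mul_add, Real.exp_add]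
      ring
    rw [sum_congr rfl (fun f _ => e1 f), sum_comm]
    refine sum_congr rfl (fun x _ => ?_)
    rw [← sum_div, sum_comm]
    congr 1
    refine sum_congr rfl (fun B _ => ?_)
    rw [mul_sum]
  rw [hswap] at hsum
  have hx : ∀ x ∈ X, (∑ B, Real.exp (θ * D x B) *
        ∑ f : Equiv.Perm (Fin m), (∏ i, P i (f i)) * Real.exp (θ * inc (s x) f P B.1 B.2)) /
        (2 * Δ * E * ∑ B, Real.exp (θ * D x B)) ≤ W / (2 * Δ) := by
    intro x _
    have h11 : ∑ B, Real.exp (θ * D x B) *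
        ∑ f : Equiv.Perm (Fin m), (∏ i, P i (f i)) * Real.exp (θ * inc (s x) f P B.1 B.2) ≤
        ∑ B, Real.exp (θ * D x B) * (E * W) :=
      sum_le_sum (fun B _ => mul_le_mul_of_nonneg_left
        (inc_mgf C c' m hg P h1 h2 h3 h4 (s x) B.1 B.2 θ h5 h6) (Real.exp_pos _).le)
    rw [← sum_mul] at h11
    have h12 := hold x
    rw [div_le_iff₀ (by positivity)]
    refine h11.trans (le_of_eq ?_)
    field_simp
  have h13 := hsum.trans (sum_le_sum hx)
  rw [sum_const, nsmul_eq_mul] at h13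
  have h14 : (X.card : ℝ) * (W / (2 * Δ)) ≤ Δ * (W / (2 * Δ)) :=
    mul_le_mul_of_nonneg_right hX (by positivity)
  have h15 : Δ * (W / (2 * Δ)) = W / 2 := by field_simp
  linarith

end

/-- concentration -/
theorem conc_real (lam θ c m d A T : ℝ) (hm : 0 < m) (hlam : 0 < lam) (hθ : θ = lam / 2)
    (hc : c = lam ^ 2 / 16) (hlogA : Real.log A ≤ 1 + c * m + (θ ^ 2 * m + c * m))
    (hd0 : 0 ≤ d) (hd : d ≤ m) (h48 : 48 / lam ^ 2 < m)
    (hT : θ * T ≤ m * Real.log 4 + d * Real.log A) : T ≤ lam * m ^ 2 := by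
  have hθ0 : 0 < θ := by rw [hθ]; positivity
  have hc0 : 0 < c := by rw [hc]; positivity
  have h5 : Real.log 4 ≤ 2 := by
    have : Real.log 4 = 2 * Real.log 2 := by
      rw [show (4 : ℝ) = 2 ^ 2 by norm_num, Real.log_pow]; norm_num
    rw [this]
    have := Real.log_two_lt_d9
    linarith
  have h61 : 0 ≤ 1 + c * m + (θ ^ 2 * m + c * m) := by positivity
  have h6 : d * Real.log A ≤ m * (1 + c * m + (θ ^ 2 * m + c * m)) :=
    (mul_le_mul_of_nonneg_left hlogA hd0).trans (mul_le_mul_of_nonneg_right hd h61)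
  have h7 : (m : ℝ) * Real.log 4 ≤ m * 2 := mul_le_mul_of_nonneg_left h5 hm.le
  have h8 : (3 : ℝ) ≤ lam ^ 2 / 16 * m := by
    rw [div_lt_iff₀ (by positivity)] at h48
    linarith
  have h9 : θ * T ≤ θ * (lam * m ^ 2) := by
    have h91 : (m : ℝ) * 3 ≤ m * (lam ^ 2 / 16 * m) := mul_le_mul_of_nonneg_left h8 hm.le
    have h92 : θ * (lam * (m : ℝ) ^ 2) = lam ^ 2 / 2 * m ^ 2 := by rw [hθ]; ring
    have h93 : (m : ℝ) * (1 + c * m + (θ ^ 2 * m + c * m)) =
        m + lam ^ 2 / 8 * m ^ 2 + lam ^ 2 / 4 * m ^ 2 := by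
      rw [hc, hθ]; ring
    rw [h92]
    rw [h93] at h6
    have h94 : 0 ≤ lam ^ 2 * (m : ℝ) ^ 2 := by positivity
    have h95 : (m : ℝ) * (lam ^ 2 / 16 * m) = lam ^ 2 * m ^ 2 / 16 := by ring
    linarith
  exact le_of_mul_le_mul_left h9 hθ0

theorem single_pot {V : Type} [Fintype V] [DecidableEq V] (G : SimpleGraph V) [DecidableRel G.Adj]
    (σ : V → V → Equiv.Perm (Fin m)) (S : Finset V) (π : V → Equiv.Perm (Fin m))
    (P : V → Fin m → Fin m → ℝ) (θ : ℝ) (v : V) (I K : Finset (Fin m)) :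
    Real.exp (θ * dev G σ S π P v I K) ≤ pot G σ S π P θ v := by
  have h := single_le_sum (f := fun B : Finset (Fin m) × Finset (Fin m) =>
    Real.exp (θ * dev G σ S π P v B.1 B.2)) (s := univ) (a := ((I, K) : Finset (Fin m) × Finset (Fin m)))
    (fun B _ => (Real.exp_pos _).le) (mem_univ _)
  exact h

/-- concentration of the hit tables -/
theorem conc {V : Type} [Fintype V] [DecidableEq V] (G : SimpleGraph V) [DecidableRel G.Adj]
    (σ : V → V → Equiv.Perm (Fin m)) (S : Finset V) (π : V → Equiv.Perm (Fin m))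
    (P : V → Fin m → Fin m → ℝ) (v : V) (lam θ c A : ℝ) (hm : 0 < m) (hlam : 0 < lam)
    (hθ : θ = lam / 2) (hc : c = lam ^ 2 / 16) (hA : 0 < A)
    (hlogA : Real.log A ≤ 1 + c * m + (θ ^ 2 * m + c * m)) (h48 : 48 / lam ^ 2 < m)
    (hd : ((S.filter (fun u => G.Adj u v)).card : ℝ) ≤ m)
    (hpot : pot G σ S π P θ v ≤ 4 ^ m * A ^ (S.filter (fun u => G.Adj u v)).card)
    (I K : Finset (Fin m)) : dev G σ S π P v I K ≤ lam * (m : ℝ) ^ 2 := by
  have h3 := (single_pot G σ S π P θ v I K).trans hpot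
  have h4 := Real.log_le_log (Real.exp_pos _) h3
  rw [Real.log_exp, Real.log_mul (by positivity) (by positivity), Real.log_pow,
    Real.log_pow] at h4
  exact conc_real lam θ c m _ A _ (by exact_mod_cast hm) hlam hθ hc hlogA (Nat.cast_nonneg _)
    hd h48 h4

/-- the back degree is smaller than the number of colours -/
theorem back_le (γ : ℝ) (hγ : 0 < γ) (mr d Jv B : ℝ) (hm : 0 < mr) (hJ1 : 1 ≤ Jv) (hB : 0 ≤ B)
    (h : 1 + (1 + γ) / mr * B ≤ Jv * (1 - d / mr)) : d ≤ mr := by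
  have h2 : 0 ≤ (1 + γ) / mr * B := by positivity
  have h3 : 0 < Jv * (1 - d / mr) := by linarith
  have h4 : 0 < 1 - d / mr := (pos_iff_pos_of_mul_pos h3).1 (by linarith)
  have h5 : d / mr < 1 := by linarith
  rw [div_lt_one hm] at h5
  exact h5.le

/-- the new potential -/
theorem pot_update {V : Type} [Fintype V] [DecidableEq V] (G : SimpleGraph V) [DecidableRel G.Adj]
    (σ : V → V → Equiv.Perm (Fin m)) (S : Finset V) (π : V → Equiv.Perm (Fin m))
    (P : V → Fin m → Fin m → ℝ) (θ : ℝ) (v : V) (hvS : v ∉ S) (f : Equiv.Perm (Fin m))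
    (Pv : Fin m → Fin m → ℝ) (A N : ℝ) (hA : 0 < A)
    (hf : ∀ x, G.Adj v x → ∑ B : Finset (Fin m) × Finset (Fin m),
      Real.exp (θ * (dev G σ S π P x B.1 B.2 + inc (σ v x) f Pv B.1 B.2)) ≤
        A * pot G σ S π P θ x)
    (hpot : ∀ x ∉ S, pot G σ S π P θ x ≤ N * A ^ (S.filter (fun u => G.Adj u x)).card) :
    ∀ x ∉ insert v S, pot G σ (insert v S) (Function.update π v f) (Function.update P v Pv) θ x ≤
      N * A ^ ((insert v S).filter (fun u => G.Adj u x)).card := by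
  intro x hx
  rw [mem_insert, not_or] at hx
  have hxo := hpot x hx.2
  by_cases hadj : G.Adj v x
  · have h2 : pot G σ (insert v S) (Function.update π v f) (Function.update P v Pv) θ x =
        ∑ B : Finset (Fin m) × Finset (Fin m),
          Real.exp (θ * (dev G σ S π P x B.1 B.2 + inc (σ v x) f Pv B.1 B.2)) := by
      unfold pot
      refine sum_congr rfl (fun B _ => ?_)
      rw [dev_insert G σ S π P v x hvS f Pv B.1 B.2, if_pos hadj]
    rw [h2]
    refine (hf x hadj).trans ?_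
    have h3 : ((insert v S).filter (fun u => G.Adj u x)).card =
        (S.filter (fun u => G.Adj u x)).card + 1 := by
      rw [filter_insert, if_pos hadj, card_insert_of_notMem]
      exact fun hc => hvS (mem_filter.1 hc).1
    rw [h3, pow_succ]
    calc A * pot G σ S π P θ x
        ≤ A * (N * A ^ (S.filter (fun u => G.Adj u x)).card) :=
          mul_le_mul_of_nonneg_left hxo hA.le
      _ = _ := by ring
  · have h2 : pot G σ (insert v S) (Function.update π v f) (Function.update P v Pv) θ x =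
        pot G σ S π P θ x := by
      unfold pot
      refine sum_congr rfl (fun B _ => ?_)
      rw [dev_insert G σ S π P v x hvS f Pv B.1 B.2, if_neg hadj, add_zero]
    have h3 : ((insert v S).filter (fun u => G.Adj u x)).card =
        (S.filter (fun u => G.Adj u x)).card := by
      rw [filter_insert, if_neg hadj]
    rw [h2, h3]
    exact hxo

/-- the parameters of the levels -/
theorem params (δ γ : ℝ) (hδ : 0 < δ) (hδ1 : δ ≤ 1) (hγ : 0 < γ) :
    ∃ (η : ℝ) (G0 : ℕ) (F : ℕ → ℝ), 0 < η ∧ 0 < G0 ∧ F 0 ≤ δ ^ 4 / 8 ∧ (∀ g, 0 < F g) ∧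
      1 ≤ F G0 ∧ ∀ g < G0, F (g + 1) / (1 + γ) + η ≤ F g := by
  obtain ⟨η, hηdef⟩ : ∃ η : ℝ, η = γ * δ ^ 4 / (16 * (1 + γ)) := ⟨_, rfl⟩
  have hη : 0 < η := by rw [hηdef]; positivity
  have hγ1 : 0 < 1 + γ := by linarith
  obtain ⟨G0, hG0⟩ : ∃ G0 : ℕ, (1 / (1 + γ)) ^ G0 < δ ^ 4 / 16 :=
    exists_pow_lt_of_lt_one (by positivity) (by rw [div_lt_one hγ1]; linarith)
  have hG0' : 0 < G0 := by
    rcases Nat.eq_zero_or_pos G0 with h | h
    · rw [h, pow_zero] at hG0
      have : δ ^ 4 ≤ 1 := pow_le_one₀ hδ.le hδ1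
      linarith
    · exact h
  have hηγ : η * (1 + γ) / γ = δ ^ 4 / 16 := by rw [hηdef]; field_simp
  refine ⟨η, G0, fun g => (1 / (1 + γ)) ^ (G0 - g) + η * (1 + γ) / γ, hη, hG0', ?_, ?_, ?_, ?_⟩
  · simp only
    rw [Nat.sub_zero, hηγ]
    linarith
  · intro g
    positivity
  · simp only
    rw [Nat.sub_self, pow_zero]
    have : 0 < η * (1 + γ) / γ := by positivity
    linarith
  · intro g hg
    simp only
    have e1 : G0 - g = (G0 - (g + 1)) + 1 := by omega
    rw [e1, pow_succ]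
    apply le_of_eq
    field_simp
    ring

/-- one step of the process -/
theorem proc_step {V : Type} [Fintype V] [DecidableEq V] (G : SimpleGraph V) [DecidableRel G.Adj]
    (δ γ : ℝ) (hδ : 0 < δ) (hγ : 0 < γ) (F : ℕ → ℝ) (G0 : ℕ) (R : ℕ → ℕ)
    (lam θ c A Δr : ℝ)
    (hm : 0 < m) (hlam : 0 < lam) (hθ : θ = lam / 2) (hθ1 : θ ≤ 1) (hc : c = lam ^ 2 / 16)
    (hlogA : Real.log A ≤ 1 + c * m + (θ ^ 2 * m + c * m)) (h48 : 48 / lam ^ 2 < m)
    (hΔr1 : 1 ≤ Δr) (hAdef : A = 2 * Δr * Real.exp (θ ^ 2 * m + c * m))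
    (hdeg : ∀ v, (G.degree v : ℝ) ≤ Δr)
    (hg : ∀ (P : Fin m → Fin m → ℝ), (∀ i j, 0 ≤ P i j) → (∀ i j, P i j ≤ (2 / δ) / m) →
      (∀ i, ∑ j, P i j = 1) → (∀ j, ∑ i, P i j = 1) →
      ∀ (I J : Finset (Fin m)) (θ : ℝ), 0 ≤ θ → θ ≤ 1 →
        ∑ π : Equiv.Perm (Fin m), (∏ i, P i (π i)) *
            Real.exp (θ * (((I.filter (fun i => π i ∈ J)).card : ℝ) - ∑ i ∈ I, ∑ j ∈ J, P i j))
          ≤ Real.exp (θ ^ 2 * m + c * m) * ∑ π : Equiv.Perm (Fin m), ∏ i, P i (π i))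
    (J : V → ℝ) (σ : V → V → Equiv.Perm (Fin m)) (hσ : ∀ u v, G.Adj u v → σ v u = (σ u v).symm)
    (S : Finset V) (π : V → Equiv.Perm (Fin m)) (P : V → Fin m → Fin m → ℝ)
    (hpack : PackOn G σ S π) (htab : ∀ u ∈ S, Tab (2 / δ) G0 R F (J u) (P u))
    (hpot : ∀ v ∉ S, pot G σ S π P θ v ≤ 4 ^ m * A ^ (S.filter (fun u => G.Adj u v)).card)
    (v : V) (hvS : v ∉ S) (hJ1 : ∀ u, 1 ≤ J u)
    (hJv : 1 + (1 + γ) / m * ∑ u ∈ S.filter (fun u => G.Adj u v), J u ≤
      J v * (1 - ((S.filter (fun u => G.Adj u v)).card : ℝ) / m))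
    (hnext : (∀ I K : Finset (Fin m), dev G σ S π P v I K ≤ lam * (m : ℝ) ^ 2) →
      ∃ Pv : Fin m → Fin m → ℝ, Tab (2 / δ) G0 R F (J v) Pv ∧
        ∀ i j, ¬ Adm G σ S π v i j → Pv i j = 0) :
    ∃ (π' : V → Equiv.Perm (Fin m)) (P' : V → Fin m → Fin m → ℝ),
      PackOn G σ (insert v S) π' ∧ (∀ u ∈ insert v S, Tab (2 / δ) G0 R F (J u) (P' u)) ∧
      (∀ x ∉ insert v S, pot G σ (insert v S) π' P' θ x ≤
        4 ^ m * A ^ ((insert v S).filter (fun u => G.Adj u x)).card) := by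
  have hA : 0 < A := by rw [hAdef]; positivity
  have hmr : (0 : ℝ) < m := by exact_mod_cast hm
  have hθ0 : 0 < θ := by rw [hθ]; positivity
  have hdg : ((S.filter (fun u => G.Adj u v)).card : ℝ) ≤ m :=
    back_le γ hγ m _ (J v) _ hmr (hJ1 v)
      (sum_nonneg (fun u _ => by have := hJ1 u; linarith)) hJv
  obtain ⟨Pv, hPv, hPv0⟩ := hnext (fun I K => conc G σ S π P v lam θ c A hm hlam hθ hc hA hlogA h48
    hdg (hpot v hvS) I K)
  have hXc : ((univ.filter (fun x => G.Adj v x)).card : ℝ) ≤ Δr := by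
    have h1 : (univ.filter (fun x => G.Adj v x)).card = G.degree v := by
      rw [← SimpleGraph.card_neighborFinset_eq_degree]
      congr 1
      ext x
      simp
    rw [h1]
    exact hdeg v
  obtain ⟨f, hf, hfx⟩ := choose_perm (V := V) (2 / δ) c m hg Pv hPv.nn hPv.ub hPv.row hPv.col θ
    hθ0.le hθ1 (fun x => σ v x) (fun x B => dev G σ S π P x B.1 B.2)
    (univ.filter (fun x => G.Adj v x)) Δr hΔr1 hXc
  refine ⟨Function.update π v f, Function.update P v Pv, ?_, ?_, ?_⟩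
  · refine packOn_insert G σ hσ S π hpack v hvS f (fun i => ?_)
    by_contra hcc
    have := hPv0 i (f i) hcc
    have h2 := hf i
    linarith
  · intro u hu
    rw [mem_insert] at hu
    by_cases huv : u = v
    · rw [huv, Function.update_self]
      exact hPv
    · rw [Function.update_of_ne huv]
      exact htab u (hu.resolve_left huv)
  · refine pot_update G σ S π P θ v hvS f Pv A _ hA (fun x hx => ?_) hpot
    rw [hAdef]
    exact hfx x (by rw [mem_filter]; exact ⟨mem_univ _, hx⟩)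

/-- The whole process. -/
theorem process (K' γ : ℝ) (hK : 1 ≤ K') (hγ : 0 < γ) :
    ∃ (c : ℝ) (m₀ : ℕ), 0 < c ∧ 0 < m₀ ∧ ∀ m : ℕ, m₀ ≤ m → ∀ Δ : ℕ,
      (Δ : ℝ) ≤ Real.exp (c * m) →
      ∀ (V : Type) [Fintype V] [DecidableEq V] (G : SimpleGraph V) [DecidableRel G.Adj],
        (∀ v, G.degree v ≤ Δ) →
        ∀ (ord : V → ℕ) (J : V → ℝ), Function.Injective ord → (∀ v, 1 ≤ J v) → (∀ v, J v ≤ K') →
        (∀ v, 1 + (1 + γ) / m * ∑ u ∈ pre G ord v, J u ≤ J v * (1 - ((pre G ord v).card : ℝ) / m)) →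
        ∀ σ : V → V → Equiv.Perm (Fin m), (∀ u v, G.Adj u v → σ v u = (σ u v).symm) →
          ∃ π, CP.PackOn G σ univ π := by
  classical
  obtain ⟨δ, hδdef⟩ : ∃ δ : ℝ, δ = 1 / K' := ⟨_, rfl⟩
  have hK0 : 0 < K' := by linarith
  have hδ : 0 < δ := by rw [hδdef]; positivity
  have hδ1 : δ ≤ 1 := by rw [hδdef, div_le_one hK0]; exact hK
  have hKδ : K' = 1 / δ := by rw [hδdef]; simp
  obtain ⟨η, G0, F, hη, hG0', hF0, hFpos, hFtop, hFrec⟩ := params δ γ hδ hδ1 hγ
  obtain ⟨R, lam, m1, hlam, hlam1, hR0, hm1, hnext⟩ :=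
    next_table δ γ η hδ hδ1 hγ hη G0 hG0' F hF0 hFpos hFtop hFrec
  obtain ⟨θ, hθ⟩ : ∃ θ : ℝ, θ = lam / 2 := ⟨_, rfl⟩
  have hθ0 : 0 < θ := by rw [hθ]; positivity
  have hlam2 : lam ≤ 1 / 8 := by
    have : δ ^ 3 ≤ 1 := pow_le_one₀ hδ.le hδ1
    linarith
  have hθ1 : θ ≤ 1 := by rw [hθ]; linarith
  obtain ⟨c, hc⟩ : ∃ c : ℝ, c = lam ^ 2 / 16 := ⟨_, rfl⟩
  have hc0 : 0 < c := by rw [hc]; positivity
  obtain ⟨m2, hm2, hgm⟩ := gibbs_mgf (2 / δ) c (by positivity) hc0
  obtain ⟨m3, hm3⟩ := exists_nat_gt (48 / lam ^ 2)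
  refine ⟨c, max m1 (max m2 m3), hc0, lt_of_lt_of_le hm1 (le_max_left _ _), ?_⟩
  intro m hm Δ hΔ V _ _ G _ hdeg ord J hinj hJ1 hJK hJ σ hσ
  have hmm1 : m1 ≤ m := (le_max_left _ _).trans hm
  have hmm2 : m2 ≤ m := (le_max_left _ _).trans ((le_max_right _ _).trans hm)
  have hmm3 : m3 ≤ m := (le_max_right _ _).trans ((le_max_right _ _).trans hm)
  have hmn : 0 < m := lt_of_lt_of_le hm1 hmm1
  have hmr : (0 : ℝ) < m := by exact_mod_cast hmn
  have hg := hgm m hmm2
  have h48 : 48 / lam ^ 2 < m := lt_of_lt_of_le hm3 (by exact_mod_cast hmm3)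
  obtain ⟨Δr, hΔr⟩ : ∃ Δr : ℝ, Δr = max (Δ : ℝ) 1 := ⟨_, rfl⟩
  have hΔr1 : 1 ≤ Δr := by rw [hΔr]; exact le_max_right _ _
  have hΔrΔ : (Δ : ℝ) ≤ Δr := by rw [hΔr]; exact le_max_left _ _
  have hΔre : Δr ≤ Real.exp (c * m) := by
    rw [hΔr]
    exact max_le hΔ (Real.one_le_exp (by positivity))
  have hdegr : ∀ v, (G.degree v : ℝ) ≤ Δr := fun v => le_trans (by exact_mod_cast hdeg v) hΔrΔ
  obtain ⟨A, hA⟩ : ∃ A : ℝ, A = 2 * Δr * Real.exp (θ ^ 2 * m + c * m) := ⟨_, rfl⟩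
  have hlogA : Real.log A ≤ 1 + c * m + (θ ^ 2 * m + c * m) := by
    rw [hA, Real.log_mul (by positivity) (by positivity), Real.log_mul (by norm_num) (by linarith),
      Real.log_exp]
    have h1 : Real.log Δr ≤ c * m := by
      rw [Real.log_le_iff_le_exp (by linarith)]
      exact hΔre
    have h2 : Real.log 2 ≤ 1 := by
      have := Real.log_two_lt_d9
      linarith
    linarith
  -- the invariant
  have hinv : ∀ n : ℕ, ∃ (π : V → Equiv.Perm (Fin m)) (P : V → Fin m → Fin m → ℝ),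
      PackOn G σ (univ.filter (fun u => ord u < n)) π ∧
      (∀ u ∈ univ.filter (fun u => ord u < n), Tab (2 / δ) G0 R F (J u) (P u)) ∧
      (∀ v ∉ univ.filter (fun u => ord u < n),
        pot G σ (univ.filter (fun u => ord u < n)) π P θ v ≤
          4 ^ m * A ^ ((univ.filter (fun u => ord u < n)).filter (fun u => G.Adj u v)).card) := by
    intro n
    induction n with
    | zero =>
      have h0 : univ.filter (fun u : V => ord u < 0) = ∅ := by
        ext u; simp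
      rw [h0]
      refine ⟨fun _ => 1, fun _ _ _ => 0, fun u hu => absurd hu (notMem_empty u),
        fun u hu => absurd hu (notMem_empty u), ?_⟩
      intro v _
      have : pot G σ (∅ : Finset V) (fun _ => 1) (fun _ _ _ => 0) θ v = 4 ^ m := by
        unfold pot dev
        simp only [filter_empty, sum_empty, mul_zero, Real.exp_zero, sum_const, card_univ,
          Fintype.card_prod, Fintype.card_finset, Fintype.card_fin, nsmul_eq_mul, mul_one]
        push_cast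
        rw [← mul_pow]
        norm_num
      rw [this]
      simp
    | succ n ih =>
      obtain ⟨π, P, hpack, htab, hpot⟩ := ih
      by_cases hv : ∃ v, ord v = n
      · obtain ⟨v, hv⟩ := hv
        have hvS : v ∉ univ.filter (fun u : V => ord u < n) := by
          rw [mem_filter]
          rintro ⟨_, h⟩
          omega
        have hS' : univ.filter (fun u : V => ord u < n + 1) =
            insert v (univ.filter (fun u : V => ord u < n)) := by
          ext u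
          rw [mem_insert, mem_filter, mem_filter]
          constructor
          · rintro ⟨_, h⟩
            rcases (Nat.lt_succ_iff.1 h).lt_or_eq with h' | h'
            · exact Or.inr ⟨mem_univ _, h'⟩
            · left
              exact hinj (h'.trans hv.symm)
          · rintro (h | h)
            · rw [h]; exact ⟨mem_univ _, by omega⟩
            · exact ⟨mem_univ _, by omega⟩
        have hpre : pre G ord v = (univ.filter (fun u : V => ord u < n)).filter
            (fun u => G.Adj u v) := by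
          unfold pre
          ext u
          simp only [mem_filter, mem_univ, true_and]
          rw [hv]
          tauto
        have hJv := hJ v
        rw [hpre] at hJv
        rw [hS']
        exact proc_step G δ γ hδ hγ F G0 R lam θ c A Δr hmn hlam hθ hθ1 hc hlogA h48 hΔr1 hA hdegr
          hg J σ hσ _ π P hpack htab hpot v hvS hJ1 hJv
          (fun hdev => hnext m hmm1 V G σ _ π P J v
            (fun u _ => ⟨hJ1 u, by rw [← hKδ]; exact hJK u⟩) (hJ1 v)
            (by rw [← hKδ]; exact hJK v) htab hJv hdev)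
      · have hS' : univ.filter (fun u : V => ord u < n + 1) =
            univ.filter (fun u : V => ord u < n) := by
          ext u
          rw [mem_filter, mem_filter]
          constructor
          · rintro ⟨_, h⟩
            rcases (Nat.lt_succ_iff.1 h).lt_or_eq with h' | h'
            · exact ⟨mem_univ _, h'⟩
            · exact absurd ⟨u, h'⟩ hv
          · rintro ⟨_, h⟩
            exact ⟨mem_univ _, by omega⟩
        rw [hS']
        exact ⟨π, P, hpack, htab, hpot⟩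
  obtain ⟨n, hn⟩ : ∃ n : ℕ, ∀ v, ord v < n := by
    refine ⟨∑ v, ord v + 1, fun v => ?_⟩
    have := single_le_sum (f := ord) (fun u _ => Nat.zero_le _) (mem_univ v)
    omega
  obtain ⟨π, P, hpack, _, _⟩ := hinv n
  refine ⟨π, ?_⟩
  have : univ.filter (fun u : V => ord u < n) = univ := by
    ext u
    simp [hn u]
  rw [this] at hpack
  exact hpack

end Pool.Agent.Helper34.AE
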