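import Mathlib

set_option autoImplicit false

/-!
# Monotone functions are close to step functions
Module QU of the asymptotic packing theorem (MP_36eb6d_co).
-/

namespace Pool.Agent.Helper34.AE

open Finset

/-- Sum over `range (k * s)` of a function of `p / s`. -/
private theorem sum_div (g : ℕ → ℝ) (s : ℕ) (hs : 0 < s) (k : ℕ) :
    ∑ p ∈ range (k * s), g (p / s) = s * ∑ u ∈ range k, g u := by
  induction k with
  | zero => simp
  | succ k ih =>
    rw [Nat.succ_mul, sum_range_add, ih, sum_range_succ, mul_add]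
    congr 1
    rw [sum_congr rfl (g := fun _ => g k)]
    · simp
    · intro r hr
      rw [mem_range] at hr
      rw [mul_comm k s, Nat.mul_add_div hs, Nat.div_eq_of_lt hr, add_zero]

private theorem diag (ψ : ℕ → ℕ → ℝ) (W : ℝ) (h0 : ∀ u v, 0 ≤ ψ u v) (h1 : ∀ u v, ψ u v ≤ W)
    (k : ℕ) :
    ∑ u ∈ range k, ∑ v ∈ range k, (ψ (u + 1) (v + 1) - ψ u v) ≤ 2 * k * W := by
  have e : ∀ u v, ψ (u + 1) (v + 1) - ψ u v =
      (ψ (u + 1) (v + 1) - ψ u (v + 1)) + (ψ u (v + 1) - ψ u v) := by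
    intro u v; ring
  have A : ∑ u ∈ range k, ∑ v ∈ range k, (ψ (u + 1) (v + 1) - ψ u (v + 1)) ≤ k * W := by
    rw [sum_comm]
    calc ∑ v ∈ range k, ∑ u ∈ range k, (ψ (u + 1) (v + 1) - ψ u (v + 1))
        = ∑ v ∈ range k, (ψ k (v + 1) - ψ 0 (v + 1)) :=
          sum_congr rfl (fun v _ => sum_range_sub (fun u => ψ u (v + 1)) k)
      _ ≤ ∑ v ∈ range k, W := sum_le_sum (fun v _ => by
          linarith [h0 0 (v + 1), h1 k (v + 1)])
      _ = k * W := by simp
  have B : ∑ u ∈ range k, ∑ v ∈ range k, (ψ u (v + 1) - ψ u v) ≤ k * W := by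
    calc ∑ u ∈ range k, ∑ v ∈ range k, (ψ u (v + 1) - ψ u v)
        = ∑ u ∈ range k, (ψ u k - ψ u 0) :=
          sum_congr rfl (fun u _ => sum_range_sub (fun v => ψ u v) k)
      _ ≤ ∑ u ∈ range k, W := sum_le_sum (fun u _ => by
          linarith [h0 u 0, h1 u k])
      _ = k * W := by simp
  calc ∑ u ∈ range k, ∑ v ∈ range k, (ψ (u + 1) (v + 1) - ψ u v)
      = ∑ u ∈ range k, ∑ v ∈ range k, (ψ (u + 1) (v + 1) - ψ u (v + 1)) +
        ∑ u ∈ range k, ∑ v ∈ range k, (ψ u (v + 1) - ψ u v) := by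
        rw [← sum_add_distrib]
        refine sum_congr rfl (fun u _ => ?_)
        rw [← sum_add_distrib]
        exact sum_congr rfl (fun v _ => e u v)
    _ ≤ 2 * k * W := by linarith

private theorem core (m k s : ℕ) (hs : 0 < s) (hm : m ≤ k * s) (a b : ℕ → ℤ)
    (ha : ∀ p q, p ≤ q → q < m → a p ≤ a q) (hb : ∀ p q, p ≤ q → q < m → b p ≤ b q)
    (φ : ℤ → ℤ → ℝ) (W : ℝ) (hφ : ∀ a a' b b', a ≤ a' → b ≤ b' → φ a b ≤ φ a' b')
    (h0 : ∀ a b, 0 ≤ φ a b) (h1 : ∀ a b, φ a b ≤ W) :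
    ∑ p ∈ range m, ∑ q ∈ range m, (φ (a p) (b q) - φ (a (p / s * s)) (b (q / s * s))) ≤
      (s : ℝ) ^ 2 * (2 * k * W) := by
  classical
  have hW : 0 ≤ W := (h0 0 0).trans (h1 0 0)
  set ψ : ℕ → ℕ → ℝ := fun u v => if u * s < m ∧ v * s < m then φ (a (u * s)) (b (v * s)) else W
    with hψ
  have p0 : ∀ u v, 0 ≤ ψ u v := by
    intro u v
    simp only [hψ]
    split_ifs
    · exact h0 _ _
    · exact hW
  have p1 : ∀ u v, ψ u v ≤ W := by
    intro u v
    simp only [hψ]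
    split_ifs
    · exact h1 _ _
    · exact le_rfl
  have pm : ∀ u v, ψ u v ≤ ψ (u + 1) (v + 1) := by
    intro u v
    by_cases h : (u + 1) * s < m ∧ (v + 1) * s < m
    · have hu : u * s ≤ (u + 1) * s := Nat.mul_le_mul_right _ (Nat.le_succ _)
      have hv : v * s ≤ (v + 1) * s := Nat.mul_le_mul_right _ (Nat.le_succ _)
      simp only [hψ]
      rw [if_pos h, if_pos ⟨hu.trans_lt h.1, hv.trans_lt h.2⟩]
      exact hφ _ _ _ _ (ha _ _ hu h.1) (hb _ _ hv h.2)
    · have : ψ (u + 1) (v + 1) = W := by simp only [hψ]; rw [if_neg h]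
      rw [this]; exact p1 u v
  have up : ∀ p q, p < m → q < m → φ (a p) (b q) ≤ ψ (p / s + 1) (q / s + 1) := by
    intro p q hp hq
    have hp' : p ≤ (p / s + 1) * s := by
      rw [mul_comm]; exact (Nat.lt_mul_div_succ p hs).le
    have hq' : q ≤ (q / s + 1) * s := by
      rw [mul_comm]; exact (Nat.lt_mul_div_succ q hs).le
    simp only [hψ]
    split_ifs with h
    · exact hφ _ _ _ _ (ha _ _ hp' h.1) (hb _ _ hq' h.2)
    · exact h1 _ _
  have lo : ∀ p q, p < m → q < m → ψ (p / s) (q / s) = φ (a (p / s * s)) (b (q / s * s)) := by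
    intro p q hp hq
    have hp' : p / s * s < m := (Nat.div_mul_le_self p s).trans_lt hp
    have hq' : q / s * s < m := (Nat.div_mul_le_self q s).trans_lt hq
    simp only [hψ]
    rw [if_pos ⟨hp', hq'⟩]
  have nn : ∀ u v, 0 ≤ ψ (u + 1) (v + 1) - ψ u v := fun u v => sub_nonneg.2 (pm u v)
  calc ∑ p ∈ range m, ∑ q ∈ range m, (φ (a p) (b q) - φ (a (p / s * s)) (b (q / s * s)))
      ≤ ∑ p ∈ range m, ∑ q ∈ range m,
          (ψ (p / s + 1) (q / s + 1) - ψ (p / s) (q / s)) := by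
        refine sum_le_sum (fun p hp => sum_le_sum (fun q hq => ?_))
        rw [mem_range] at hp hq
        rw [lo p q hp hq]
        linarith [up p q hp hq]
    _ ≤ ∑ p ∈ range (k * s), ∑ q ∈ range (k * s),
          (ψ (p / s + 1) (q / s + 1) - ψ (p / s) (q / s)) := by
        calc _ ≤ ∑ p ∈ range m, ∑ q ∈ range (k * s),
              (ψ (p / s + 1) (q / s + 1) - ψ (p / s) (q / s)) :=
              sum_le_sum (fun p _ => sum_le_sum_of_subset_of_nonneg (range_subset_range.2 hm)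
                (fun q _ _ => nn _ _))
          _ ≤ _ := sum_le_sum_of_subset_of_nonneg (range_subset_range.2 hm)
                (fun p _ _ => sum_nonneg (fun q _ => nn _ _))
    _ = ∑ p ∈ range (k * s), (fun u => (s : ℝ) * ∑ v ∈ range k, (ψ (u + 1) (v + 1) - ψ u v)) (p / s) := by
        refine sum_congr rfl (fun p _ => ?_)
        exact sum_div (fun v => ψ (p / s + 1) (v + 1) - ψ (p / s) v) s hs k
    _ = (s : ℝ) ^ 2 * ∑ u ∈ range k, ∑ v ∈ range k, (ψ (u + 1) (v + 1) - ψ u v) := by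
        rw [sum_div (fun u => (s : ℝ) * ∑ v ∈ range k, (ψ (u + 1) (v + 1) - ψ u v)) s hs k,
          ← mul_sum]
        ring
    _ ≤ (s : ℝ) ^ 2 * (2 * k * W) :=
        mul_le_mul_of_nonneg_left (diag ψ W p0 p1 k) (by positivity)

theorem quant_approx {m : ℕ} (k : ℕ) (hk : 0 < k) (hkm : k ≤ m) (α β : Fin m → ℤ) :
    ∃ (ρ χ : Fin m → Fin k) (α' β' : Fin m → ℤ),
      (∀ i i', ρ i = ρ i' → α' i = α' i') ∧ (∀ j j', χ j = χ j' → β' j = β' j') ∧
      (∀ i, α' i ≤ α i) ∧ (∀ j, β' j ≤ β j) ∧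
      ∀ (φ : ℤ → ℤ → ℝ) (W : ℝ), (∀ a a' b b', a ≤ a' → b ≤ b' → φ a b ≤ φ a' b') →
        (∀ a b, 0 ≤ φ a b) → (∀ a b, φ a b ≤ W) →
        ∑ i, ∑ j, (φ (α i) (β j) - φ (α' i) (β' j)) ≤ 8 * W * m ^ 2 / k := by
  classical
  obtain ⟨s, hs⟩ : ∃ s : ℕ, s = m / k + 1 := ⟨_, rfl⟩
  have hs0 : 0 < s := by rw [hs]; exact Nat.succ_pos _
  have hms : m < k * s := by rw [hs]; exact Nat.lt_mul_div_succ m hk
  have key : ∀ γ : Fin m → ℤ, ∃ (e : Equiv.Perm (Fin m)) (c : ℕ → ℤ),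
      (∀ p q, p ≤ q → q < m → c p ≤ c q) ∧ ∀ i, γ i = c (e i : ℕ) := by
    intro γ
    refine ⟨(Tuple.sort γ).symm, fun p => if h : p < m then γ (Tuple.sort γ ⟨p, h⟩) else 0, ?_, ?_⟩
    · intro p q hpq hq
      have hp : p < m := hpq.trans_lt hq
      simp only [hp, hq, dif_pos]
      exact Tuple.monotone_sort γ (show (⟨p, hp⟩ : Fin m) ≤ ⟨q, hq⟩ from hpq)
    · intro i
      have : (((Tuple.sort γ).symm i : Fin m) : ℕ) < m := Fin.is_lt _
      simp only [this, dif_pos]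
      simp
  obtain ⟨e, a, ha, hea⟩ := key α
  obtain ⟨f, b, hb, hfb⟩ := key β
  have grp : ∀ p : Fin m, (p : ℕ) / s < k := by
    intro p
    rw [Nat.div_lt_iff_lt_mul hs0]
    exact p.is_lt.trans hms
  refine ⟨fun i => ⟨(e i : ℕ) / s, grp _⟩, fun j => ⟨(f j : ℕ) / s, grp _⟩,
    fun i => a ((e i : ℕ) / s * s), fun j => b ((f j : ℕ) / s * s), ?_, ?_, ?_, ?_, ?_⟩
  · intro i i' h
    have := congrArg Fin.val h
    simp only at this
    simp only [this]
  · intro i i' h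
    have := congrArg Fin.val h
    simp only at this
    simp only [this]
  · intro i
    rw [hea i]
    exact ha _ _ (Nat.div_mul_le_self _ _) (Fin.is_lt _)
  · intro i
    rw [hfb i]
    exact hb _ _ (Nat.div_mul_le_self _ _) (Fin.is_lt _)
  · intro φ W hφ h0 h1
    have hW : 0 ≤ W := (h0 0 0).trans (h1 0 0)
    have h2 := core m k s hs0 hms.le a b ha hb φ W hφ h0 h1
    have h3 : ∑ i, ∑ j, (φ (α i) (β j) - φ (a ((e i : ℕ) / s * s)) (b ((f j : ℕ) / s * s))) =
        ∑ p ∈ range m, ∑ q ∈ range m, (φ (a p) (b q) - φ (a (p / s * s)) (b (q / s * s))) := by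
      rw [← Fin.sum_univ_eq_sum_range
        (fun p => ∑ q ∈ range m, (φ (a p) (b q) - φ (a (p / s * s)) (b (q / s * s)))) m]
      rw [← Equiv.sum_comp e (fun i : Fin m => ∑ q ∈ range m,
        (φ (a (i : ℕ)) (b q) - φ (a ((i : ℕ) / s * s)) (b (q / s * s))))]
      refine sum_congr rfl (fun i _ => ?_)
      rw [← Fin.sum_univ_eq_sum_range
        (fun q => (φ (a (e i)) (b q) - φ (a ((e i : ℕ) / s * s)) (b (q / s * s)))) m]
      rw [← Equiv.sum_comp f (fun j : Fin m =>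
        (φ (a (e i)) (b (j : ℕ)) - φ (a ((e i : ℕ) / s * s)) (b ((j : ℕ) / s * s))))]
      refine sum_congr rfl (fun j _ => ?_)
      rw [hea i, hfb j]
    rw [h3]
    refine h2.trans ?_
    have hk' : (0 : ℝ) < k := by exact_mod_cast hk
    have hsr : (s : ℝ) ≤ 2 * m / k := by
      rw [le_div_iff₀ hk']
      have : s * k ≤ 2 * m := by
        rw [hs, Nat.add_mul, one_mul]
        have := Nat.div_mul_le_self m k
        omega
      exact_mod_cast this
    have hs2 : (s : ℝ) ^ 2 ≤ (2 * m / k) ^ 2 := by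
      have : (0 : ℝ) ≤ s := Nat.cast_nonneg _
      gcongr
    calc (s : ℝ) ^ 2 * (2 * k * W) ≤ (2 * m / k) ^ 2 * (2 * k * W) :=
          mul_le_mul_of_nonneg_right hs2 (by positivity)
      _ = 8 * W * m ^ 2 / k := by field_simp; ring

end Pool.Agent.Helper34.AE
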