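import Pool.Agent.Helper34.AE.Int4
import Pool.Agent.Helper34.AE.Quant
import Pool.Agent.Helper34.AE.Dual
import Pool.Agent.Helper34.AE.Maurey

set_option autoImplicit false

namespace Pool.Agent.Helper34.AE

open Finset

section
variable {m : ℕ} {H : Fin m → Fin m → Prop} [∀ i j, Decidable (H i j)] {Q : Fin m → Fin m → ℝ}
  {κ δ lam : ℝ}

theorem int_ineq (hr : Resp m H Q κ δ lam) (G K k : ℕ) (hk : 0 < k)
    (hkm : k ≤ m) (R : ℕ → ℕ) (hR : ∀ g, k * R g ^ ((g + 1) * K) ≤ R (g + 1))
    (hR0 : 0 < R 0) (hR1 : ∀ g, R g ≤ R (g + 1)) (b : ℕ → ℝ)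
    (hb : ∀ g < G, ∀ S : Finset (Fin m × Fin m), IsStep (R (g + 1)) S →
      ∑ p ∈ S, (Q p.1 p.2 - (1 - κ)) ≤ b (g + 1) * m ^ 2)
    (α β : Fin m → ℤ) (ω : ℕ → ℕ) (S : ℕ → ℕ → Finset (Fin m × Fin m))
    (hS : ∀ g < G, ∀ x < K, IsStep (R g) (S g x)) :
    ∑ i, ∑ j, ((α i + β j - Phi G K ω S i j : ℤ) : ℝ) -
      2 / δ * ∑ i, ∑ j, (if H i j then ((max 0 (α i + β j - Phi G K ω S i j) : ℤ) : ℝ) else 0) ≤
    m ^ 2 * ∑ g ∈ range G, (K * ω g : ℝ) *
      (b (g + 1) / κ + (32 / (δ ^ 2 * k) + 2 * (R G : ℝ) ^ 2 * lam / δ)) := by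
  obtain ⟨ρ, χ, α', β', h1, h2, h3, h4, h5⟩ := quant_approx k hk hkm α β
  exact int_core hr G K k hk R hR hR0 hR1 b hb α β ω S hS ρ χ α' β' h1 h2 h3 h4 h5

/-- the dual functional -/
noncomputable def VV (H : Fin m → Fin m → Prop) [∀ i j, Decidable (H i j)] (C : ℝ)
    (f : Fin m → Fin m → ℝ) : ℝ :=
  ∑ i, ∑ j, f i j - C * ∑ i, ∑ j, (if H i j then max 0 (f i j) else 0)

theorem VV_lip (C : ℝ) (hC : 0 ≤ C) (f f' : Fin m → Fin m → ℝ) :
    VV H C f ≤ VV H C f' + (1 + C) * ∑ i, ∑ j, |f i j - f' i j| := by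
  unfold VV
  have h1 : ∑ i, ∑ j, f i j - ∑ i, ∑ j, f' i j ≤ ∑ i, ∑ j, |f i j - f' i j| := by
    simp only [← sum_sub_distrib]
    exact sum_le_sum (fun i _ => sum_le_sum (fun j _ => le_abs_self _))
  have h2 : ∑ i, ∑ j, (if H i j then max 0 (f' i j) else 0) -
      ∑ i, ∑ j, (if H i j then max 0 (f i j) else 0) ≤ ∑ i, ∑ j, |f i j - f' i j| := by
    simp only [← sum_sub_distrib]
    refine sum_le_sum (fun i _ => sum_le_sum (fun j _ => ?_))
    have h3 : |f i j - f' i j| = |f' i j - f i j| := abs_sub_comm _ _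
    have h4 := le_abs_self (f' i j - f i j)
    have h5 := abs_nonneg (f i j - f' i j)
    split_ifs
    · rcases le_total 0 (f' i j) with h | h
      · rw [max_eq_right h]
        have := le_max_right 0 (f i j)
        linarith
      · rw [max_eq_left h]
        have := le_max_left 0 (f i j)
        linarith
    · linarith
  nlinarith

end

theorem isStep_empty {m : ℕ} (N : ℕ) (hN : 0 < N) : IsStep N (∅ : Finset (Fin m × Fin m)) :=
  ⟨fun _ => 0, fun _ => 0, fun _ => hN, fun _ => hN, fun _ _ _ _ _ _ => by simp⟩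

theorem response (δ η : ℝ) (hδ : 0 < δ) (hδ1 : δ ≤ 1) (hη : 0 < η) (G : ℕ) :
    ∃ (R : ℕ → ℕ) (lam : ℝ) (m₀ : ℕ), 0 < lam ∧ lam ≤ δ ^ 3 / 8 ∧ 2 ≤ R 0 ∧ 0 < m₀ ∧
      ∀ (m : ℕ), m₀ ≤ m →
      ∀ (H : Fin m → Fin m → Prop) [∀ i j, Decidable (H i j)]
        (Q : Fin m → Fin m → ℝ) (κ : ℝ) (b : ℕ → ℝ), Resp m H Q κ δ lam →
        (∀ g < G, ∀ S : Finset (Fin m × Fin m), IsStep (R (g + 1)) S →
          ∑ p ∈ S, (Q p.1 p.2 - (1 - κ)) ≤ b (g + 1) * m ^ 2) →
        ∃ P : Fin m → Fin m → ℝ, (∀ i j, 0 ≤ P i j) ∧ (∀ i j, P i j ≤ 2 / δ / m) ∧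
          (∀ i j, ¬ H i j → P i j = 0) ∧ (∀ i, ∑ j, P i j = 1) ∧ (∀ j, ∑ i, P i j = 1) ∧
          ∀ g < G, ∀ S : Finset (Fin m × Fin m), IsStep (R g) S →
            ∑ p ∈ S, P p.1 p.2 ≤ S.card / m + (b (g + 1) / κ + η) * m := by
  classical
  -- constants
  obtain ⟨C, hC⟩ : ∃ C : ℝ, C = 2 / δ := ⟨_, rfl⟩
  have hC0 : 0 < C := by rw [hC]; positivity
  obtain ⟨K, hK⟩ := exists_nat_gt ((2 * (1 + C) / η) ^ 2)
  have hK0 : (0 : ℝ) < K := lt_of_le_of_lt (by positivity) hK
  have hKn : 0 < K := by exact_mod_cast hK0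
  have hsK : (1 + C) / Real.sqrt K ≤ η / 2 := by
    have h1 : 2 * (1 + C) / η ≤ Real.sqrt K := Real.le_sqrt_of_sq_le hK.le
    have h2 : 0 < Real.sqrt K := Real.sqrt_pos.2 hK0
    rw [div_le_iff₀ h2]
    rw [div_le_iff₀ hη] at h1
    linarith
  obtain ⟨k, hk⟩ := exists_nat_gt (128 / (δ ^ 2 * η))
  have hk0 : (0 : ℝ) < k := lt_trans (by positivity) hk
  have hkn : 0 < k := by exact_mod_cast hk0
  have hknoise : 32 / (δ ^ 2 * k) ≤ η / 4 := by
    rw [div_lt_iff₀ (by positivity)] at hk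
    rw [div_le_iff₀ (by positivity)]
    nlinarith
  obtain ⟨R, hRdef⟩ : ∃ R : ℕ → ℕ, R = fun g => Nat.rec 2
    (fun g r => max r (k * r ^ ((g + 1) * K))) g := ⟨_, rfl⟩
  have hR0 : R 0 = 2 := by subst hRdef; rfl
  have hRs : ∀ g, R (g + 1) = max (R g) (k * R g ^ ((g + 1) * K)) := by
    intro g
    rw [hRdef]
  have hR : ∀ g, k * R g ^ ((g + 1) * K) ≤ R (g + 1) := by
    intro g
    rw [hRs]
    exact le_max_right _ _
  have hR1 : ∀ g, R g ≤ R (g + 1) := by
    intro g
    rw [hRs]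
    exact le_max_left _ _
  have hRpos : ∀ g, 0 < R g := by
    intro g
    have hmono : Monotone R := monotone_nat_of_le_succ hR1
    have : R 0 ≤ R g := hmono (Nat.zero_le g)
    omega
  have hRG : (1 : ℝ) ≤ (R G : ℝ) := by
    exact_mod_cast hRpos G
  obtain ⟨lam, hlam⟩ : ∃ lam : ℝ, lam = min (δ ^ 3 / 8) (η * δ / (8 * (R G : ℝ) ^ 2)) := ⟨_, rfl⟩
  have hRG0 : (0 : ℝ) < R G := by linarith
  have hlam0 : 0 < lam := by
    rw [hlam]
    exact lt_min (by positivity) (by positivity)
  have hlam1 : lam ≤ δ ^ 3 / 8 := by rw [hlam]; exact min_le_left _ _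
  have hlam2 : 2 * (R G : ℝ) ^ 2 * lam / δ ≤ η / 4 := by
    have h1 : lam ≤ η * δ / (8 * (R G : ℝ) ^ 2) := by rw [hlam]; exact min_le_right _ _
    rw [le_div_iff₀ (by positivity)] at h1
    rw [div_le_iff₀ hδ]
    linarith
  refine ⟨R, lam, k, hlam0, hlam1, by rw [hR0], hkn, ?_⟩
  intro m hkm H _ Q κ b hr hb
  have hm := hr.m0
  have hκ := hr.κ0
  have hb0 : ∀ g < G, 0 ≤ b (g + 1) := by
    intro g hg
    have h1 := hb g hg ∅ (isStep_empty _ (hRpos _))
    rw [sum_empty] at h1
    have h2 : (0 : ℝ) < (m : ℝ) ^ 2 := by positivity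
    exact le_of_mul_le_mul_right (by linarith) h2
  -- index type
  let ι := Σ g : Fin G, {S : Finset (Fin m × Fin m) // IsStep (R g) S}
  have key : ∀ (α β : Fin m → ℝ) (w : ι → ℝ), (∀ t, 0 ≤ w t) →
      ∑ i, ∑ j, (α i + β j - ∑ t : ι, w t * (if (i, j) ∈ t.2.1 then (1 : ℝ) else 0)) -
        C * ∑ i, ∑ j, (if H i j then
          max 0 (α i + β j - ∑ t : ι, w t * (if (i, j) ∈ t.2.1 then (1 : ℝ) else 0)) else 0) ≤
      m ^ 2 * ∑ t : ι, w t * (b (t.1 + 1) / κ + η) := by
    intro α β w hw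
    obtain ⟨Wg, hWg⟩ : ∃ Wg : Fin G → ℝ, Wg = fun g => ∑ S, w ⟨g, S⟩ := ⟨_, rfl⟩
    have hWg0 : ∀ g, 0 ≤ Wg g := by
      intro g
      rw [hWg]
      exact sum_nonneg (fun S _ => hw _)
    -- sampling
    have hsamp : ∀ g : Fin G, ∃ s : ℕ → {S : Finset (Fin m × Fin m) // IsStep (R g) S},
        ∑ p : Fin m × Fin m, |∑ S : {S : Finset (Fin m × Fin m) // IsStep (R g) S},
          w ⟨g, S⟩ * (if p ∈ S.1 then (1 : ℝ) else 0) -
          Wg g / K * ∑ x ∈ range K, (if p ∈ (s x).1 then (1 : ℝ) else 0)| ≤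
        Wg g * m ^ 2 / Real.sqrt K := by
      intro g
      rcases (hWg0 g).lt_or_eq with h | h
      · have h0 : 0 < ∑ S : {S : Finset (Fin m × Fin m) // IsStep (R g) S}, w ⟨g, S⟩ := by
          rw [hWg] at h; exact h
        obtain ⟨s, hs⟩ := maurey (κ := Fin m × Fin m)
          (fun S : {S : Finset (Fin m × Fin m) // IsStep (R g) S} => w ⟨g, S⟩)
          (fun S => hw _) h0 (fun S p => if p ∈ S.1 then (1 : ℝ) else 0)
          (fun S p => by split_ifs <;> norm_num) (fun S p => by split_ifs <;> norm_num) K hKn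
        refine ⟨s, ?_⟩
        rw [hWg]
        refine hs.trans (le_of_eq ?_)
        rw [Fintype.card_prod, Fintype.card_fin]
        push_cast
        ring
      · have h0 : ∀ S : {S : Finset (Fin m × Fin m) // IsStep (R g) S}, w ⟨g, S⟩ = 0 := by
          intro S
          have h1 : ∑ S : {S : Finset (Fin m × Fin m) // IsStep (R g) S}, w ⟨g, S⟩ = 0 := by
            rw [hWg] at h; exact h.symm
          exact (sum_eq_zero_iff_of_nonneg (fun S _ => hw _)).1 h1 S (mem_univ _)
        refine ⟨fun _ => ⟨∅, isStep_empty _ (hRpos _)⟩, ?_⟩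
        rw [← h]
        simp [h0]
    choose s hs using hsamp
    -- data for the integer inequality
    obtain ⟨S, hSdef⟩ : ∃ S : ℕ → ℕ → Finset (Fin m × Fin m),
      S = fun g x => if h : g < G then (s ⟨g, h⟩ x).1 else ∅ := ⟨_, rfl⟩
    have hSg : ∀ (g : Fin G) (x : ℕ), S g x = (s g x).1 := by
      intro g x
      rw [hSdef]
      simp
    have hS : ∀ g < G, ∀ x < K, IsStep (R g) (S g x) := by
      intro g hg x _
      have := hSg ⟨g, hg⟩ x
      simp only at this
      rw [this]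
      exact (s ⟨g, hg⟩ x).2
    obtain ⟨W', hW'⟩ : ∃ W' : ℕ → ℝ, W' = fun g => if h : g < G then Wg ⟨g, h⟩ else 0 := ⟨_, rfl⟩
    have hW'g : ∀ g : Fin G, W' g = Wg g := by
      intro g
      rw [hW']
      simp
    have hW'0 : ∀ g, 0 ≤ W' g := by
      intro g
      rw [hW']
      simp only
      split_ifs
      · exact hWg0 _
      · exact le_rfl
    -- the real test function and its approximation
    obtain ⟨Ψ, hΨ⟩ : ∃ Ψ : Fin m → Fin m → ℝ, Ψ = fun i j =>
      ∑ t : ι, w t * (if (i, j) ∈ t.2.1 then (1 : ℝ) else 0) := ⟨_, rfl⟩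
    obtain ⟨err, herr⟩ : ∃ err : Fin m → Fin m → ℝ, err = fun i j => ∑ g : Fin G,
      |∑ S : {S : Finset (Fin m × Fin m) // IsStep (R g) S},
          w ⟨g, S⟩ * (if (i, j) ∈ S.1 then (1 : ℝ) else 0) -
          Wg g / K * ∑ x ∈ range K, (if (i, j) ∈ (s g x).1 then (1 : ℝ) else 0)| := ⟨_, rfl⟩
    have herr1 : ∑ i, ∑ j, err i j ≤ (∑ g : Fin G, Wg g) * m ^ 2 / Real.sqrt K := by
      rw [herr]
      simp only
      rw [← Fintype.sum_prod_type' (f := fun i j => ∑ g : Fin G,
        |∑ S : {S : Finset (Fin m × Fin m) // IsStep (R g) S},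
          w ⟨g, S⟩ * (if (i, j) ∈ S.1 then (1 : ℝ) else 0) -
          Wg g / K * ∑ x ∈ range K, (if (i, j) ∈ (s g x).1 then (1 : ℝ) else 0)|)]
      rw [sum_comm, sum_mul, sum_div]
      exact sum_le_sum (fun g _ => hs g)
    have hnoise : 32 / (δ ^ 2 * (k : ℝ)) + 2 * (R G : ℝ) ^ 2 * lam / δ ≤ η / 2 := by linarith
    have hnoise0 : 0 ≤ 32 / (δ ^ 2 * (k : ℝ)) + 2 * (R G : ℝ) ^ 2 * lam / δ := by positivity
    -- the inequality for every scale
    have hscale : ∀ n : ℕ, (n : ℝ) * VV H C (fun i j => α i + β j - Ψ i j) ≤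
        n * (m ^ 2 * ∑ g : Fin G, Wg g * (b (g + 1) / κ + η)) +
        (m ^ 2 * ∑ g : Fin G, K * (b (g + 1) / κ + η / 2) + (1 + C) * ((2 + G * K) * m ^ 2)) := by
      intro n
      obtain ⟨ω, hω⟩ : ∃ ω : ℕ → ℕ, ω = fun g => ⌈n * W' g / K⌉₊ := ⟨_, rfl⟩
      have hω1 : ∀ g, n * W' g / K ≤ ω g := by
        intro g; rw [hω]; exact Nat.le_ceil _
      have hω2 : ∀ g, (ω g : ℝ) ≤ n * W' g / K + 1 := by
        intro g; rw [hω]
        exact (Nat.ceil_lt_add_one (by have := hW'0 g; positivity)).le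
      have hI := int_ineq hr G K k hkn hkm R hR (by omega) hR1 b hb
        (fun i => ⌊n * α i⌋) (fun j => ⌊n * β j⌋) ω S hS
      set F : Fin m → Fin m → ℝ := fun i j =>
        ((⌊n * α i⌋ + ⌊n * β j⌋ - Phi G K ω S i j : ℤ) : ℝ) with hF
      have e1 : VV H C F = ∑ i, ∑ j, ((⌊n * α i⌋ + ⌊n * β j⌋ - Phi G K ω S i j : ℤ) : ℝ) -
          2 / δ * ∑ i, ∑ j, (if H i j then
            ((max 0 (⌊n * α i⌋ + ⌊n * β j⌋ - Phi G K ω S i j) : ℤ) : ℝ) else 0) := by
        unfold VV
        rw [hC, hF]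
        congr 2
        refine sum_congr rfl (fun i _ => sum_congr rfl (fun j _ => ?_))
        split_ifs
        · push_cast; rfl
        · rfl
      rw [← e1] at hI
      -- bound of the right side
      have hI2 : VV H C F ≤ n * (m ^ 2 * ∑ g : Fin G, Wg g * (b (g + 1) / κ + η / 2)) +
          m ^ 2 * ∑ g : Fin G, K * (b (g + 1) / κ + η / 2) := by
        refine hI.trans ?_
        have e2 : (n : ℝ) * (m ^ 2 * ∑ g : Fin G, Wg g * (b (g + 1) / κ + η / 2)) +
          m ^ 2 * ∑ g : Fin G, K * (b (g + 1) / κ + η / 2) =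
          m ^ 2 * ∑ g ∈ range G, (n * W' g + K) * (b (g + 1) / κ + η / 2) := by
          rw [← Fin.sum_univ_eq_sum_range (fun g => (n * W' g + K) * (b (g + 1) / κ + η / 2)) G]
          simp only [hW'g, mul_sum, ← sum_add_distrib]
          refine sum_congr rfl (fun g _ => ?_)
          ring
        rw [e2]
        refine mul_le_mul_of_nonneg_left (sum_le_sum (fun g hg => ?_)) (by positivity)
        rw [mem_range] at hg
        have h1 : 0 ≤ b (g + 1) / κ := div_nonneg (hb0 g hg) hκ.le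
        have h2 : (K * ω g : ℝ) ≤ n * W' g + K := by
          have := mul_le_mul_of_nonneg_left (hω2 g) hK0.le
          have e3 : (K : ℝ) * (n * W' g / K + 1) = n * W' g + K := by
            field_simp
          linarith
        have h3 : (0 : ℝ) ≤ n * W' g + K := by have := hW'0 g; positivity
        calc (K * ω g : ℝ) * (b (g + 1) / κ + (32 / (δ ^ 2 * k) + 2 * (R G : ℝ) ^ 2 * lam / δ))
            ≤ (n * W' g + K) * (b (g + 1) / κ + (32 / (δ ^ 2 * k) + 2 * (R G : ℝ) ^ 2 * lam / δ)) :=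
              mul_le_mul_of_nonneg_right h2 (by linarith)
          _ ≤ (n * W' g + K) * (b (g + 1) / κ + η / 2) :=
              mul_le_mul_of_nonneg_left (by linarith) h3
      -- Lipschitz comparison
      have hL := VV_lip (H := H) C hC0.le (fun i j => n * (α i + β j - Ψ i j)) F
      have e4 : VV H C (fun i j => n * (α i + β j - Ψ i j)) =
          n * VV H C (fun i j => α i + β j - Ψ i j) := by
        unfold VV
        have e5 : ∀ x : ℝ, max 0 (n * x) = n * max 0 x := by
          intro x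
          rw [mul_max_of_nonneg _ _ (Nat.cast_nonneg n), mul_zero]
        simp only [e5]
        have e6 : ∀ i j, (if H i j then (n : ℝ) * max 0 (α i + β j - Ψ i j) else 0) =
            n * (if H i j then max 0 (α i + β j - Ψ i j) else 0) := by
          intro i j; split_ifs <;> simp
        simp only [e6, ← mul_sum]
        ring
      rw [e4] at hL
      have hd : ∑ i, ∑ j, |n * (α i + β j - Ψ i j) - F i j| ≤
          (2 + G * K) * m ^ 2 + n * ((∑ g : Fin G, Wg g) * m ^ 2 / Real.sqrt K) := by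
        have hcell : ∀ i j, |n * (α i + β j - Ψ i j) - F i j| ≤ (2 + G * K) + n * err i j := by
          intro i j
          have e7 : Ψ i j = ∑ g : Fin G, ∑ S : {S : Finset (Fin m × Fin m) // IsStep (R g) S},
              w ⟨g, S⟩ * (if (i, j) ∈ S.1 then (1 : ℝ) else 0) := by
            rw [hΨ]
            simp only
            exact Fintype.sum_sigma _
          have e8 : ((Phi G K ω S i j : ℤ) : ℝ) = ∑ g : Fin G,
              (ω g : ℝ) * ∑ x ∈ range K, (if (i, j) ∈ (s g x).1 then (1 : ℝ) else 0) := by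
            unfold Phi
            push_cast
            rw [← Fin.sum_univ_eq_sum_range (fun g => (ω g : ℝ) *
              ∑ x ∈ range K, (if (i, j) ∈ S g x then (1 : ℝ) else 0)) G]
            simp only [hSg]
          have h4 : |(Phi G K ω S i j : ℝ) - n * Ψ i j| ≤ G * K + n * err i j := by
            rw [e7, e8, herr]
            simp only
            rw [mul_sum, ← sum_sub_distrib, mul_sum]
            refine (abs_sum_le_sum_abs _ _).trans ?_
            have e9 : (G * K : ℝ) = ∑ g : Fin G, (K : ℝ) := by simp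
            rw [e9, ← sum_add_distrib]
            refine sum_le_sum (fun g _ => ?_)
            set a := ∑ S : {S : Finset (Fin m × Fin m) // IsStep (R g) S},
              w ⟨g, S⟩ * (if (i, j) ∈ S.1 then (1 : ℝ) else 0) with ha
            set c := ∑ x ∈ range K, (if (i, j) ∈ (s g x).1 then (1 : ℝ) else 0) with hc
            have hc0 : 0 ≤ c := by
              rw [hc]; exact sum_nonneg (fun x _ => by split_ifs <;> norm_num)
            have hc1 : c ≤ K := by
              rw [hc]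
              calc ∑ x ∈ range K, (if (i, j) ∈ (s g x).1 then (1 : ℝ) else 0) ≤
                    ∑ x ∈ range K, (1 : ℝ) := sum_le_sum (fun x _ => by split_ifs <;> norm_num)
                _ = K := by simp
            have h5 := hω1 g
            have h6 := hω2 g
            rw [hW'g] at h5 h6
            have e10 : (ω g : ℝ) * c - n * a = ((ω g : ℝ) - n * Wg g / K) * c -
                n * (a - Wg g / K * c) := by ring
            rw [e10]
            refine (abs_sub _ _).trans ?_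
            refine add_le_add ?_ ?_
            · rw [abs_of_nonneg (mul_nonneg (by linarith) hc0)]
              calc ((ω g : ℝ) - n * Wg g / K) * c ≤ 1 * K :=
                    mul_le_mul (by linarith) hc1 hc0 (by norm_num)
                _ = K := one_mul _
            · rw [abs_mul, Nat.abs_cast]
          have h7 : |n * α i - ⌊n * α i⌋| ≤ 1 := by
            rw [abs_of_nonneg (sub_nonneg.2 (Int.floor_le _))]
            linarith [Int.lt_floor_add_one (n * α i)]
          have h8 : |n * β j - ⌊n * β j⌋| ≤ 1 := by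
            rw [abs_of_nonneg (sub_nonneg.2 (Int.floor_le _))]
            linarith [Int.lt_floor_add_one (n * β j)]
          have e11 : n * (α i + β j - Ψ i j) - F i j = (n * α i - ⌊n * α i⌋) +
              (n * β j - ⌊n * β j⌋) + ((Phi G K ω S i j : ℝ) - n * Ψ i j) := by
            rw [hF]
            push_cast
            ring
          rw [e11]
          refine (abs_add_three _ _ _).trans ?_
          linarith
        calc ∑ i, ∑ j, |n * (α i + β j - Ψ i j) - F i j| ≤
              ∑ i : Fin m, ∑ j : Fin m, ((2 + G * K) + n * err i j) :=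
              sum_le_sum (fun i _ => sum_le_sum (fun j _ => hcell i j))
          _ = (2 + G * K) * m ^ 2 + n * ∑ i, ∑ j, err i j := by
              simp only [sum_add_distrib, sum_const, card_univ, Fintype.card_fin, nsmul_eq_mul,
                ← mul_sum]
              ring
          _ ≤ _ := by
              have := mul_le_mul_of_nonneg_left herr1 (Nat.cast_nonneg n)
              linarith
      have hfin : (1 + C) * (n * ((∑ g : Fin G, Wg g) * m ^ 2 / Real.sqrt K)) ≤
          n * (m ^ 2 * ∑ g : Fin G, Wg g * (η / 2)) := by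
        rw [← sum_mul]
        have h9 : 0 ≤ ∑ g : Fin G, Wg g := sum_nonneg (fun g _ => hWg0 g)
        have e12 : (1 + C) * (n * ((∑ g : Fin G, Wg g) * m ^ 2 / Real.sqrt K)) =
            n * (m ^ 2 * ((∑ g : Fin G, Wg g) * ((1 + C) / Real.sqrt K))) := by ring
        rw [e12]
        gcongr
      have e13 : (n : ℝ) * (m ^ 2 * ∑ g : Fin G, Wg g * (b (g + 1) / κ + η)) =
          n * (m ^ 2 * ∑ g : Fin G, Wg g * (b (g + 1) / κ + η / 2)) +
          n * (m ^ 2 * ∑ g : Fin G, Wg g * (η / 2)) := by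
        rw [← mul_add, ← mul_add, ← sum_add_distrib]
        congr 2
        refine sum_congr rfl (fun g _ => ?_)
        ring
      have hd2 := mul_le_mul_of_nonneg_left hd (by linarith : (0 : ℝ) ≤ 1 + C)
      rw [e13]
      rw [mul_add] at hd2
      linarith
    -- let the scale go to infinity
    have hfinal : VV H C (fun i j => α i + β j - Ψ i j) ≤
        m ^ 2 * ∑ g : Fin G, Wg g * (b (g + 1) / κ + η) := by
      by_contra hcon
      push Not at hcon
      set A := VV H C (fun i j => α i + β j - Ψ i j) with hA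
      set B := (m : ℝ) ^ 2 * ∑ g : Fin G, Wg g * (b (g + 1) / κ + η) with hB
      set E := (m : ℝ) ^ 2 * ∑ g : Fin G, K * (b (g + 1) / κ + η / 2) +
        (1 + C) * ((2 + G * K) * m ^ 2) with hE
      obtain ⟨n, hn⟩ := exists_nat_gt (E / (A - B))
      rw [div_lt_iff₀ (by linarith)] at hn
      have := hscale n
      linarith
    have e14 : ∑ t : ι, w t * (b (t.1 + 1) / κ + η) = ∑ g : Fin G, Wg g * (b (g + 1) / κ + η) := by
      rw [Fintype.sum_sigma]
      refine sum_congr rfl (fun g _ => ?_)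
      rw [hWg]
      simp only
      rw [sum_mul]
    rw [e14]
    refine le_trans (le_of_eq ?_) hfinal
    unfold VV
    rw [hΨ]
  -- duality
  obtain ⟨P, hP0, hPu, hPr, hPc, hPt⟩ := dual_exists (ι := ι)
    (fun i j => if H i j then C / m else 0) (by
      intro i j
      split_ifs
      · positivity
      · exact le_rfl)
    (fun t i j => if (i, j) ∈ t.2.1 then (1 : ℝ) else 0)
    (fun t => (t.2.1.card : ℝ) / m + (b (t.1 + 1) / κ + η) * m) (by
      intro α β w hw
      have h1 := key α β w hw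
      -- multiply by m
      have e1 : ∑ i, ∑ j, (α i + β j - ∑ t : ι, w t * (if (i, j) ∈ t.2.1 then (1 : ℝ) else 0)) =
          m * (∑ i, α i + ∑ j, β j) - ∑ t : ι, w t * (t.2.1.card : ℝ) := by
        simp only [sum_sub_distrib, sum_add_distrib]
        congr 1
        · simp only [sum_const, card_univ, Fintype.card_fin, nsmul_eq_mul]
          rw [← mul_sum]
          ring
        · have e2 : ∀ i : Fin m, ∑ j : Fin m, ∑ t : ι, w t * (if (i, j) ∈ t.2.1 then (1 : ℝ) else 0)
              = ∑ t : ι, w t * ∑ j : Fin m, (if (i, j) ∈ t.2.1 then (1 : ℝ) else 0) := by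
            intro i
            rw [sum_comm]
            refine sum_congr rfl (fun t _ => ?_)
            rw [mul_sum]
          simp only [e2]
          rw [sum_comm]
          refine sum_congr rfl (fun t _ => ?_)
          rw [← mul_sum]
          congr 1
          rw [← Fintype.sum_prod_type' (f := fun i j => if (i, j) ∈ t.2.1 then (1 : ℝ) else 0)]
          simp
      have e3 : ∑ i, ∑ j, (if H i j then C / m else 0) *
          max 0 (α i + β j - ∑ t : ι, w t * (if (i, j) ∈ t.2.1 then (1 : ℝ) else 0)) =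
          (C * ∑ i, ∑ j, (if H i j then
          max 0 (α i + β j - ∑ t : ι, w t * (if (i, j) ∈ t.2.1 then (1 : ℝ) else 0)) else 0)) / m := by
        rw [mul_sum, sum_div]
        refine sum_congr rfl (fun i _ => ?_)
        rw [mul_sum, sum_div]
        refine sum_congr rfl (fun j _ => ?_)
        split_ifs <;> ring
      rw [e3, le_div_iff₀ hm]
      rw [e1] at h1
      have e4 : (∑ i, α i + ∑ j, β j - ∑ t : ι, w t *
          ((t.2.1.card : ℝ) / m + (b (t.1 + 1) / κ + η) * m)) * m =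
          m * (∑ i, α i + ∑ j, β j) - ∑ t : ι, w t * (t.2.1.card : ℝ) -
          m ^ 2 * ∑ t : ι, w t * (b (t.1 + 1) / κ + η) := by
        have e5 : (∑ t : ι, w t * ((t.2.1.card : ℝ) / m + (b (t.1 + 1) / κ + η) * m)) * m =
            ∑ t : ι, w t * (t.2.1.card : ℝ) + m ^ 2 * ∑ t : ι, w t * (b (t.1 + 1) / κ + η) := by
          rw [sum_mul, mul_sum, ← sum_add_distrib]
          refine sum_congr rfl (fun t _ => ?_)
          field_simp
        rw [sub_mul, e5]
        ring
      rw [e4]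
      linarith)
  refine ⟨P, hP0, ?_, ?_, hPr, hPc, ?_⟩
  · intro i j
    refine (hPu i j).trans ?_
    split_ifs
    · rw [hC]
    · positivity
  · intro i j hij
    have h1 := hPu i j
    simp only [if_neg hij] at h1
    exact le_antisymm h1 (hP0 i j)
  · intro g hg S hS
    have h1 := hPt ⟨⟨g, hg⟩, ⟨S, hS⟩⟩
    simp only at h1
    refine le_trans (le_of_eq ?_) h1
    rw [← Fintype.sum_prod_type' (f := fun i j => (if (i, j) ∈ S then (1 : ℝ) else 0) * P i j)]
    simp only [ite_mul, one_mul, zero_mul]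
    rw [← sum_filter]
    refine sum_congr ?_ (fun _ _ => rfl)
    ext p
    simp
  
end Pool.Agent.Helper34.AE
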